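import Mathlib

set_option autoImplicit false

namespace Pool.Agent.Helper74.RR

open Finset

/-- The additive character `u ↦ exp (2 π i u)`. -/
noncomputable def e (u : ℝ) : ℂ := Complex.exp (2 * Real.pi * u * Complex.I)

theorem e_add (u v : ℝ) : e (u + v) = e u * e v := by
  unfold e
  rw [← Complex.exp_add]
  congr 1
  push_cast
  ring

theorem e_zero : e 0 = 1 := by simp [e]

theorem e_int (n : ℤ) : e (n : ℝ) = 1 := by
  unfold e
  rw [show (2 * Real.pi * ((n : ℝ) : ℂ) * Complex.I : ℂ) = n * (2 * Real.pi * Complex.I) by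
    push_cast; ring]
  exact Complex.exp_int_mul_two_pi_mul_I n

theorem norm_e (u : ℝ) : ‖e u‖ = 1 := by
  unfold e
  rw [show (2 * Real.pi * (u : ℂ) * Complex.I : ℂ) = ((2 * Real.pi * u : ℝ) : ℂ) * Complex.I by
    push_cast; ring]
  exact Complex.norm_exp_ofReal_mul_I _

theorem e_ne_zero (u : ℝ) : e u ≠ 0 := by
  intro h
  have := norm_e u
  rw [h] at this
  simp at this

theorem e_add_int (u : ℝ) (n : ℤ) : e (u + n) = e u := by
  rw [e_add, e_int, mul_one]

theorem e_half : e (1 / 2) = -1 := by
  unfold e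
  rw [show (2 * Real.pi * ((1 / 2 : ℝ) : ℂ) * Complex.I : ℂ) = Real.pi * Complex.I by
    push_cast; ring]
  exact Complex.exp_pi_mul_I

theorem e_pow (u : ℝ) (n : ℕ) : e u ^ n = e (n * u) := by
  unfold e
  rw [← Complex.exp_nat_mul]
  congr 1
  push_cast
  ring

theorem e_neg (u : ℝ) : e (-u) = (starRingEnd ℂ) (e u) := by
  unfold e
  rw [← Complex.exp_conj]
  congr 1
  simp [Complex.conj_ofReal, map_ofNat]

/-- Gaussian binomials at `q = e t`, with an integer lower index. -/
noncomputable def gb (t : ℝ) : ℕ → ℤ → ℂ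
  | 0, k => if k = 0 then 1 else 0
  | (n + 1), k => gb t n (k - 1) + e (t * k) * gb t n k

theorem gb_succ (t : ℝ) (n : ℕ) (k : ℤ) :
    gb t (n + 1) k = gb t n (k - 1) + e (t * k) * gb t n k := rfl

theorem gb_zero_left (t : ℝ) (k : ℤ) : gb t 0 k = if k = 0 then 1 else 0 := rfl

theorem gb_succ' (t : ℝ) (n : ℕ) (k : ℤ) :
    gb t (n + 1) k = gb t n k + e (t * (n + 1 - k)) * gb t n (k - 1) := by
  induction n generalizing k with
  | zero =>
    rw [gb_succ, gb_zero_left, gb_zero_left]
    by_cases h0 : k = 0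
    · subst h0; simp [e_zero]
    · by_cases h1 : k = 1
      · subst h1; simp [e_zero]
      · have h2 : k - 1 ≠ 0 := by omega
        simp [h0, h2]
  | succ n ih =>
    have A := ih (k - 1)
    have B := ih k
    have C := gb_succ t n k
    have D := gb_succ t n (k - 1)
    rw [gb_succ t (n + 1) k]
    have h1 : e (t * k) * e (t * (n + 1 - k)) = e (t * ((n + 1 : ℕ) + 1 - k)) * e (t * ((k - 1 : ℤ) : ℝ)) := by
      rw [← e_add, ← e_add]
      congr 1
      push_cast
      ring
    have h2 : e (t * (n + 1 - ((k - 1 : ℤ) : ℝ))) = e (t * ((n + 1 : ℕ) + 1 - k)) := by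
      congr 1
      push_cast
      ring
    rw [h2] at A
    linear_combination A - e (t * ((n + 1 : ℕ) + 1 - k)) * D + e (t * k) * B - C
      + (gb t n (k - 1)) * h1

theorem gb_neg (t : ℝ) (n : ℕ) (k : ℤ) (hk : k < 0) : gb t n k = 0 := by
  induction n generalizing k with
  | zero => rw [gb_zero_left, if_neg (by omega)]
  | succ n ih => rw [gb_succ, ih k hk, ih (k - 1) (by omega)]; simp

theorem gb_large (t : ℝ) (n : ℕ) (k : ℤ) (hk : (n : ℤ) < k) : gb t n k = 0 := by
  induction n generalizing k with
  | zero => rw [gb_zero_left, if_neg (by push_cast at hk; omega)]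
  | succ n ih =>
    push_cast at hk
    rw [gb_succ, ih k (by omega), ih (k - 1) (by omega)]; simp

theorem gb_zero (t : ℝ) (n : ℕ) : gb t n 0 = 1 := by
  induction n with
  | zero => simp [gb_zero_left]
  | succ n ih => rw [gb_succ, ih, gb_neg t n (0 - 1) (by omega)]; simp [e_zero]

theorem gb_self (t : ℝ) (n : ℕ) : gb t n n = 1 := by
  induction n with
  | zero => simp [gb_zero_left]
  | succ n ih =>
    rw [gb_succ, gb_large t n ((n + 1 : ℕ) : ℤ) (by push_cast; omega)]
    have : (((n + 1 : ℕ) : ℤ) - 1) = n := by push_cast; ring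
    rw [this, ih]; simp

/-- multiplicative recursion in the lower index -/
theorem gb_mul (t : ℝ) (n : ℕ) (k : ℤ) :
    gb t n (k + 1) * (1 - e (t * (k + 1))) = gb t n k * (1 - e (t * (n - k))) := by
  induction n generalizing k with
  | zero =>
    rw [gb_zero_left, gb_zero_left]
    by_cases h0 : k = 0
    · subst h0; simp [e_zero]
    · by_cases h1 : k = -1
      · subst h1; simp [e_zero]
      · have h2 : k + 1 ≠ 0 := by omega
        simp [h0, h2]
  | succ n ih =>
    have A := gb_succ t n (k + 1)
    have B := gb_succ' t n k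
    have I1 := ih k
    have I2 := ih (k - 1)
    have e1 : (k + 1 - 1 : ℤ) = k := by ring
    have e2 : (k - 1 + 1 : ℤ) = k := by ring
    rw [e1] at A
    rw [e2] at I2
    rw [A, B]
    have c1 : e (t * ((k + 1 : ℤ) : ℝ)) = e (t * (k + 1)) := by push_cast; rfl
    have c2 : e (t * (((k - 1 : ℤ) : ℝ) + 1)) = e (t * k) := by push_cast; congr 1; ring
    have c3 : e (t * (n - ((k - 1 : ℤ) : ℝ))) = e (t * (n + 1 - k)) := by
      push_cast; congr 1; ring
    have c4 : e (t * ((n + 1 : ℕ) - (k : ℝ))) = e (t * (n + 1 - k)) := by push_cast; rfl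
    rw [c2, c3] at I2
    rw [c1, c4]
    have m1 : e (t * (k + 1)) * e (t * (n - k)) = e (t * (n + 1)) := by
      rw [← e_add]; congr 1; ring
    have m2 : e (t * (n + 1 - k)) * e (t * k) = e (t * (n + 1)) := by
      rw [← e_add]; congr 1; ring
    linear_combination e (t * (k + 1)) * I1 + e (t * (n + 1 - k)) * I2 - gb t n k * m1
      + gb t n k * m2

theorem sum_Icc_telescope (V : ℤ → ℂ) (N : ℕ) :
    ∑ j ∈ Icc (-(N : ℤ)) N, (V j - V (j + 1)) = V (-(N : ℤ)) - V (N + 1) := by
  induction N with
  | zero => simp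
  | succ N ih =>
    have h : Icc (-((N + 1 : ℕ) : ℤ)) ((N + 1 : ℕ) : ℤ)
        = insert (-((N : ℤ) + 1)) (insert ((N : ℤ) + 1) (Icc (-(N : ℤ)) N)) := by
      ext x
      simp only [mem_Icc, mem_insert]
      push_cast
      omega
    rw [h, sum_insert, sum_insert, ih]
    · push_cast
      have : (-((N : ℤ) + 1) + 1) = -(N : ℤ) := by ring
      rw [this]
      have h2 : -((N : ℤ) + 1) = -1 + -(N : ℤ) := by ring
      ring_nf
    · simp
    · simp only [mem_insert, mem_Icc, not_or]
      constructor <;> omega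

/-- phase in Schur's sum -/
noncomputable def ph (t : ℝ) (s : ℤ) (j : ℤ) : ℝ :=
  (j : ℝ) / 2 + t * ((j : ℝ) * (5 * j + 1 - 4 * s) / 2)

/-- index in Schur's sum -/
def kk (n : ℕ) (s j : ℤ) : ℤ := ((n : ℤ) - 5 * j) / 2 + s

/-- Schur's sum -/
noncomputable def sch (t : ℝ) (s : ℤ) (N n : ℕ) : ℂ :=
  ∑ j ∈ Icc (-(N : ℤ)) N, e (ph t s j) * gb t n (kk n s j)

theorem sch_rec (t : ℝ) (s : ℤ) (N n : ℕ) (hN : (n : ℤ) + 10 + 2 * |s| ≤ N) :
    sch t s N (n + 2) = sch t s N (n + 1) + e (t * (n + 1)) * sch t s N n := by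
  set R : ℤ → ℂ := fun j => e (ph t s j) * gb t (n + 2) (kk (n + 2) s j)
    - e (ph t s j) * gb t (n + 1) (kk (n + 1) s j)
    - e (t * (n + 1)) * (e (ph t s j) * gb t n (kk n s j)) with hR
  have key : ∑ j ∈ Icc (-(N : ℤ)) N, R j = 0 := by
    -- remainder formulas
    have hev : ∀ j : ℤ, ((n : ℤ) - 5 * j) % 2 = 0 →
        R j = e (ph t s j) * (e (t * (kk (n + 2) s j)) * gb t n (kk (n + 2) s j)) := by
      intro j hj
      have k1 : kk (n + 1) s j = kk (n + 2) s j - 1 := by
        unfold kk; push_cast; omega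
      have k0 : kk n s j = kk (n + 2) s j - 1 := by
        unfold kk; push_cast; omega
      simp only [hR]
      rw [k1, k0]
      set k := kk (n + 2) s j
      have A := gb_succ t (n + 1) k
      have B := gb_succ' t n k
      have m : e (t * k) * e (t * (n + 1 - k)) = e (t * (n + 1)) := by
        rw [← e_add]; congr 1; ring
      rw [show n + 2 = n + 1 + 1 from rfl, A, B]
      linear_combination (e (ph t s j) * gb t n (k - 1)) * m
    have hod : ∀ j : ℤ, ((n : ℤ) - 5 * j) % 2 = 1 →
        R j = e (ph t s j) * (e (t * (n + 2 - (kk (n + 2) s j : ℤ))) * gb t n (kk (n + 2) s j - 2)) := by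
      intro j hj
      have k1 : kk (n + 1) s j = kk (n + 2) s j := by
        unfold kk; push_cast; omega
      have k0 : kk n s j = kk (n + 2) s j - 1 := by
        unfold kk; push_cast; omega
      simp only [hR]
      rw [k1, k0]
      set k := kk (n + 2) s j
      have A := gb_succ' t (n + 1) k
      have B := gb_succ t n (k - 1)
      have c1 : e (t * (((n + 1 : ℕ) : ℝ) + 1 - k)) = e (t * (n + 2 - k)) := by
        congr 1; push_cast; ring
      have c2 : (k - 1 - 1 : ℤ) = k - 2 := by ring
      rw [c1] at A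
      rw [c2] at B
      have m : e (t * (n + 2 - k)) * e (t * ((k - 1 : ℤ) : ℝ)) = e (t * (n + 1)) := by
        rw [← e_add]; congr 1; push_cast; ring
      rw [show n + 2 = n + 1 + 1 from rfl, A, B]
      linear_combination (e (ph t s j) * gb t n (k - 1)) * m
    have hpair : ∀ j : ℤ, ((n : ℤ) - 5 * j) % 2 = 0 → R j = - R (j - 1) := by
      intro j hj
      rw [hev j hj, hod (j - 1) (by omega)]
      have k2 : kk (n + 2) s (j - 1) = kk (n + 2) s j + 2 := by
        unfold kk; push_cast; omega
      have k3 : 2 * kk (n + 2) s j = (n : ℤ) + 2 - 5 * j + 2 * s := by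
        unfold kk; push_cast; omega
      rw [k2]
      set k := kk (n + 2) s j
      have c2 : (k + 2 - 2 : ℤ) = k := by ring
      rw [c2]
      have k3' : (2 : ℝ) * k = n + 2 - 5 * j + 2 * s := by exact_mod_cast k3
      have m : e (ph t s j) * e (t * k)
          = - (e (ph t s (j - 1)) * e (t * (n + 2 - ((k + 2 : ℤ) : ℝ)))) := by
        rw [← e_add, ← e_add]
        have : ph t s j + t * k = (ph t s (j - 1) + t * (n + 2 - ((k + 2 : ℤ) : ℝ))) + 1 / 2 := by
          unfold ph
          push_cast
          linear_combination t * k3'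
        rw [this, e_add, e_half]
        ring
      linear_combination (gb t n k) * m
    set V : ℤ → ℂ := fun j => if ((n : ℤ) - 5 * j) % 2 = 0 then R j else 0 with hV
    have hRV : ∀ j, R j = V j - V (j + 1) := by
      intro j
      rcases Int.emod_two_eq_zero_or_one ((n : ℤ) - 5 * j) with h | h
      · have h2 : ¬ (((n : ℤ) - 5 * (j + 1)) % 2 = 0) := by omega
        simp only [hV]
        rw [if_pos h, if_neg h2]; ring
      · have h2 : ((n : ℤ) - 5 * (j + 1)) % 2 = 0 := by omega
        have h3 : ¬ (((n : ℤ) - 5 * j) % 2 = 0) := by omega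
        simp only [hV]
        rw [if_neg h3, if_pos h2, hpair (j + 1) h2]
        have : j + 1 - 1 = j := by ring
        rw [this]; ring
    rw [sum_congr rfl (fun j _ => hRV j), sum_Icc_telescope]
    have habs := abs_nonneg s
    have hs1 := le_abs_self s
    have hs2 := neg_abs_le s
    have v1 : V (-(N : ℤ)) = 0 := by
      simp only [hV]
      split_ifs with h
      · rw [hev _ h, gb_large]
        · simp
        · unfold kk; push_cast; omega
      · rfl
    have v2 : V ((N : ℤ) + 1) = 0 := by
      simp only [hV]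
      split_ifs with h
      · rw [hev _ h, gb_neg]
        · simp
        · unfold kk; push_cast; omega
      · rfl
    rw [v1, v2]; ring
  have : ∑ j ∈ Icc (-(N : ℤ)) N, R j
      = sch t s N (n + 2) - sch t s N (n + 1) - e (t * (n + 1)) * sch t s N n := by
    simp only [hR, sch, sum_sub_distrib, mul_sum]
  rw [key] at this
  linear_combination -this

/-- The sequence `A_{n-1}` at `q = e t`. -/
noncomputable def seqA (t : ℝ) : ℕ → ℂ
  | 0 => 1
  | 1 => 1
  | (n + 2) => seqA t (n + 1) + e (t * (n + 1)) * seqA t n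

/-- The sequence `B_{n-1}` at `q = e t`. -/
noncomputable def seqB (t : ℝ) : ℕ → ℂ
  | 0 => 0
  | 1 => 1
  | (n + 2) => seqB t (n + 1) + e (t * (n + 1)) * seqB t n

theorem sum_single_zero (N : ℕ) (f : ℤ → ℂ) (h : ∀ j : ℤ, j ≠ 0 → f j = 0) :
    ∑ j ∈ Icc (-(N : ℤ)) N, f j = f 0 := by
  rw [sum_eq_single 0]
  · intro b _ hb; exact h b hb
  · intro h0; exfalso; apply h0; simp

theorem sch_A (t : ℝ) (N n : ℕ) (hN : n + 10 ≤ N) : sch t 0 N n = seqA t n := by
  induction n using Nat.strong_induction_on with
  | _ n ih =>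
    match n, ih, hN with
    | 0, _, _ =>
      unfold sch
      rw [sum_single_zero]
      · simp [ph, kk, e_zero, gb_zero_left, seqA]
      · intro j hj
        rw [gb_zero_left, if_neg]
        · simp
        · unfold kk; push_cast; omega
    | 1, _, _ =>
      unfold sch
      rw [sum_single_zero]
      · have : kk 1 0 0 = 0 := by decide
        rw [this, gb_zero]
        simp [ph, e_zero, seqA]
      · intro j hj
        rcases lt_or_gt_of_ne hj with h | h
        · rw [gb_large]
          · simp
          · unfold kk; push_cast; omega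
        · rw [gb_neg]
          · simp
          · unfold kk; push_cast; omega
    | (m + 2), ih, hN =>
      rw [sch_rec t 0 N m (by simp; omega), ih (m + 1) (by omega) (by omega),
        ih m (by omega) (by omega)]
      rfl

theorem sch_B (t : ℝ) (N n : ℕ) (hN : n + 12 ≤ N) : sch t 1 N n = seqB t n := by
  induction n using Nat.strong_induction_on with
  | _ n ih =>
    match n, ih, hN with
    | 0, _, _ =>
      unfold sch
      rw [sum_single_zero]
      · simp [kk, gb_zero_left, seqB]
      · intro j hj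
        rw [gb_zero_left, if_neg]
        · simp
        · unfold kk; push_cast; omega
    | 1, _, _ =>
      unfold sch
      rw [sum_single_zero]
      · have : kk 1 1 0 = ((1 : ℕ) : ℤ) := by decide
        rw [this, gb_self]
        simp [ph, e_zero, seqB]
      · intro j hj
        rcases lt_or_gt_of_ne hj with h | h
        · rw [gb_large]
          · simp
          · unfold kk; push_cast; omega
        · rw [gb_neg]
          · simp
          · unfold kk; push_cast; omega
    | (m + 2), ih, hN =>
      rw [sch_rec t 1 N m (by simp; omega), ih (m + 1) (by omega) (by omega),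
        ih m (by omega) (by omega)]
      rfl

end Pool.Agent.Helper74.RR
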