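import Mathlib
import Pool.Agent.Helper74.RR.R1

set_option autoImplicit false

namespace Pool.Agent.Helper74.RR

open Finset

theorem one_sub_e (u : ℝ) :
    1 - e u = -2 * Complex.I * e (u / 2) * ((Real.sin (Real.pi * u) : ℝ) : ℂ) := by
  have h1 : e u = e (u / 2) * e (u / 2) := by rw [← e_add]; congr 1; ring
  have h2 : e (u / 2) * e (-(u / 2)) = 1 := by rw [← e_add]; simp [e_zero]
  have h3 : ((Real.sin (Real.pi * u) : ℝ) : ℂ) = (e (-(u / 2)) - e (u / 2)) * Complex.I / 2 := by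
    rw [Complex.ofReal_sin, Complex.sin]
    unfold e
    have a1 : (-((Real.pi * u : ℝ) : ℂ) * Complex.I) = 2 * Real.pi * ((-(u / 2) : ℝ) : ℂ) * Complex.I := by
      push_cast; ring
    have a2 : (((Real.pi * u : ℝ) : ℂ) * Complex.I) = 2 * Real.pi * ((u / 2 : ℝ) : ℂ) * Complex.I := by
      push_cast; ring
    rw [a1, a2]
  rw [h3]
  have hI : Complex.I * Complex.I = -1 := Complex.I_mul_I
  linear_combination (-1 : ℂ) * h1 - h2 + (e (u / 2) * (e (-(u / 2)) - e (u / 2))) * hI

theorem e_int_half (c : ℤ) : e ((c : ℝ) / 2) = ((Real.cos (Real.pi * c) : ℝ) : ℂ) := by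
  have h := one_sub_e ((c : ℝ))
  unfold e
  have : (2 * Real.pi * (((c : ℝ) / 2 : ℝ) : ℂ) * Complex.I) = ((Real.pi * c : ℝ) : ℂ) * Complex.I := by
    push_cast; ring
  rw [this, Complex.exp_mul_I]
  have hs : Complex.sin ((Real.pi * c : ℝ) : ℂ) = 0 := by
    rw [← Complex.ofReal_sin, mul_comm, Real.sin_int_mul_pi]; simp
  rw [hs, ← Complex.ofReal_cos]
  simp

theorem sin_shift (t : ℝ) (d : ℕ) (c : ℤ) (m : ℝ) :
    Real.sin (Real.pi * ((d - m) * t))
      = - Real.cos (Real.pi * c) * Real.sin (Real.pi * (m * t - (d * t - c))) := by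
  have h1 : Real.pi * ((d - m) * t) = Real.pi * c - Real.pi * (m * t - (d * t - c)) := by ring
  have hs : Real.sin (Real.pi * c) = 0 := by rw [mul_comm, Real.sin_int_mul_pi]
  rw [h1, Real.sin_sub, hs]
  ring

/-- sine product form of the Gaussian binomial -/
theorem gb_sine (t : ℝ) (d : ℕ) (c : ℤ) (m : ℕ)
    (h : ∀ i : ℕ, i < m → Real.sin (Real.pi * ((i + 1) * t)) ≠ 0) :
    gb t d m = e (m * (d - m) * t / 2 + m * (c + 1) / 2)
      * ((∏ i ∈ range m, (Real.sin (Real.pi * (i * t - (d * t - c)))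
          / Real.sin (Real.pi * ((i + 1) * t))) : ℝ) : ℂ) := by
  induction m with
  | zero => simp [gb_zero, e_zero]
  | succ m ih =>
    have hm := ih (fun i hi => h i (by omega))
    have hne := h m (by omega)
    have hrec := gb_mul t d m
    rw [one_sub_e, one_sub_e] at hrec
    have s1 := sin_shift t d c m
    rw [mul_comm (t : ℝ) ((d : ℝ) - ((m : ℤ) : ℝ))] at hrec
    have cst : (((m : ℤ) : ℝ)) = (m : ℝ) := by push_cast; rfl
    rw [cst] at hrec
    rw [s1] at hrec
    rw [prod_range_succ, Complex.ofReal_mul]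
    set S : ℝ := Real.sin (Real.pi * ((m + 1) * t)) with hS
    set U : ℝ := Real.sin (Real.pi * (m * t - (d * t - c))) with hU
    have c2 : t * ((m : ℝ) + 1) = (m + 1) * t := by ring
    rw [c2, ← hS] at hrec
    have hSc : (S : ℂ) ≠ 0 := by exact_mod_cast hne
    have he := e_ne_zero ((m + 1) * t / 2)
    have hphase : e (((m + 1 : ℕ) : ℝ) * (d - ((m + 1 : ℕ) : ℝ)) * t / 2 + ((m + 1 : ℕ) : ℝ) * (c + 1) / 2)
          * e ((m + 1) * t / 2)
        = - (e (m * (d - m) * t / 2 + m * (c + 1) / 2) * e ((d - m) * t / 2)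
          * ((Real.cos (Real.pi * c) : ℝ) : ℂ)) := by
      rw [← e_int_half, ← e_add, ← e_add, ← e_add]
      have : ((m + 1 : ℕ) : ℝ) * (d - ((m + 1 : ℕ) : ℝ)) * t / 2 + ((m + 1 : ℕ) : ℝ) * (c + 1) / 2
            + (m + 1) * t / 2
          = (m * (d - m) * t / 2 + m * (c + 1) / 2 + (d - m) * t / 2 + c / 2) + 1 / 2 := by
        push_cast; ring
      rw [this, e_add _ (1 / 2), e_half]
      ring
    have h2 : (2 : ℂ) ≠ 0 := two_ne_zero
    have hI := Complex.I_ne_zero
    have key : gb t d (m + 1) * (e ((m + 1) * t / 2) * S)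
        = - (gb t d m * (e ((d - m) * t / 2) * ((Real.cos (Real.pi * c) : ℝ) : ℂ) * U)) := by
      have := hrec
      push_cast at this ⊢
      have h3 : (-2 * Complex.I) ≠ 0 := by simp
      apply mul_left_cancel₀ h3
      linear_combination this
    have cst2 : (((m + 1 : ℕ) : ℤ)) = (m : ℤ) + 1 := by push_cast; rfl
    rw [cst2]
    apply mul_right_cancel₀ (mul_ne_zero he hSc)
    rw [key, hm]
    set P : ℝ := ∏ i ∈ range m, (Real.sin (Real.pi * (i * t - (d * t - c)))
          / Real.sin (Real.pi * ((i + 1) * t))) with hP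
    have hUS : ((U / S : ℝ) : ℂ) * S = U := by
      rw [Complex.ofReal_div]
      field_simp
    set E3 := e (((m + 1 : ℕ) : ℝ) * (d - ((m + 1 : ℕ) : ℝ)) * t / 2 + ((m + 1 : ℕ) : ℝ) * (c + 1) / 2)
    linear_combination (-(U : ℂ) * P) * hphase - E3 * P * e ((m + 1) * t / 2) * hUS

/-- The slowly varying product. -/
noncomputable def GG (t ε : ℝ) (m : ℕ) : ℝ :=
  ∏ i ∈ Ico 1 m, (Real.sin (Real.pi * (i * t - ε)) / Real.sin (Real.pi * (i * t)))

theorem gb_GG (t : ℝ) (d : ℕ) (c : ℤ) (m : ℕ) (hm : 1 ≤ m)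
    (h : ∀ i : ℕ, 1 ≤ i → i ≤ m → Real.sin (Real.pi * (i * t)) ≠ 0) :
    gb t d m = e (m * (d - m) * t / 2 + m * (c + 1) / 2)
      * ((-(Real.sin (Real.pi * (d * t - c)) * GG t (d * t - c) m
          / Real.sin (Real.pi * (m * t))) : ℝ) : ℂ) := by
  rw [gb_sine t d c m]
  · congr 2
    obtain ⟨n, rfl⟩ : ∃ n, m = n + 1 := ⟨m - 1, by omega⟩
    rw [prod_div_distrib]
    have h1 : ∏ i ∈ range (n + 1), Real.sin (Real.pi * (i * t - (d * t - c)))
        = - Real.sin (Real.pi * (d * t - c))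
          * ∏ i ∈ Ico 1 (n + 1), Real.sin (Real.pi * (i * t - (d * t - c))) := by
      rw [range_eq_Ico, prod_eq_prod_Ico_succ_bot (by omega : 0 < n + 1)]
      congr 1
      rw [← Real.sin_neg]
      congr 1
      push_cast; ring
    have h2 : ∏ i ∈ range (n + 1), Real.sin (Real.pi * ((i + 1) * t))
        = (∏ i ∈ Ico 1 (n + 1), Real.sin (Real.pi * (i * t)))
          * Real.sin (Real.pi * ((n + 1 : ℕ) * t)) := by
      rw [prod_range_succ]
      congr 1
      · rw [prod_Ico_eq_prod_range]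
        apply prod_congr (by simp)
        intro i _
        push_cast
        ring_nf
      · push_cast; rfl
    rw [h1, h2]
    unfold GG
    rw [prod_div_distrib]
    have n1 : (∏ i ∈ Ico 1 (n + 1), Real.sin (Real.pi * (i * t))) ≠ 0 := by
      rw [prod_ne_zero_iff]
      intro i hi
      rw [mem_Ico] at hi
      exact h i hi.1 (by omega)
    have n2 := h (n + 1) (by omega) le_rfl
    field_simp
  · intro i hi
    have := h (i + 1) (by omega) (by omega)
    push_cast at this
    exact this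

end Pool.Agent.Helper74.RR
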