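import Mathlib
import Pool.Agent.Helper74.RR.R2

set_option autoImplicit false

namespace Pool.Agent.Helper74.RR

open Finset

theorem norm_one_sub_e (u : ℝ) : ‖1 - e u‖ = 2 * |Real.sin (Real.pi * u)| := by
  rw [one_sub_e, norm_mul, norm_mul, norm_mul, norm_e, Complex.norm_I, Complex.norm_real,
    Real.norm_eq_abs]
  simp

theorem norm_e_sub_one_le (u : ℝ) : ‖e u - 1‖ ≤ 2 * Real.pi * |u| := by
  rw [norm_sub_rev, norm_one_sub_e]
  have h1 : |Real.sin (Real.pi * u)| ≤ |Real.pi * u| := Real.abs_sin_le_abs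
  rw [abs_mul, abs_of_pos Real.pi_pos] at h1
  linarith

theorem norm_e_sub_e_le (u v : ℝ) : ‖e u - e v‖ ≤ 2 * Real.pi * |u - v| := by
  have : e u - e v = e v * (e (u - v) - 1) := by
    rw [mul_sub, ← e_add]
    ring_nf
  rw [this, norm_mul, norm_e, one_mul]
  exact norm_e_sub_one_le _

/-- `|sin (π u)| ≥ 2 |u|` for `|u| ≤ 1/2` -/
theorem two_mul_le_sin (u : ℝ) (hu : |u| ≤ 1 / 2) : 2 * |u| ≤ |Real.sin (Real.pi * u)| := by
  have key : ∀ v : ℝ, 0 ≤ v → v ≤ 1 / 2 → 2 * v ≤ Real.sin (Real.pi * v) := by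
    intro v h0 h1
    have h2 : Real.pi * v ≤ Real.pi / 2 := by nlinarith [Real.pi_pos]
    have h3 := Real.mul_le_sin (mul_nonneg Real.pi_pos.le h0) h2
    have h4 : 2 / Real.pi * (Real.pi * v) = 2 * v := by
      field_simp
    linarith
  rcases abs_cases u with ⟨h, h'⟩ | ⟨h, h'⟩
  · rw [h] at hu ⊢
    have := key u h' hu
    exact this.trans (le_abs_self _)
  · rw [h] at hu ⊢
    have := key (-u) (by linarith) hu
    have h5 : Real.sin (Real.pi * -u) = - Real.sin (Real.pi * u) := by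
      rw [mul_neg, Real.sin_neg]
    rw [h5] at this
    exact this.trans (neg_le_abs _)

/-- threshold function times a character -/
noncomputable def Ph (g : ℤ) (u z : ℝ) : ℂ := if Int.fract z < u then e (g * z) else 0

theorem Ph_add_int (g : ℤ) (u z : ℝ) (k : ℤ) : Ph g u (z + k) = Ph g u z := by
  unfold Ph
  rw [Int.fract_add_intCast]
  have : e ((g : ℝ) * (z + k)) = e (g * z) := by
    have : (g : ℝ) * (z + k) = g * z + ((g * k : ℤ) : ℝ) := by push_cast; ring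
    rw [this, e_add_int]
  rw [this]

theorem norm_Ph_le (g : ℤ) (u z : ℝ) : ‖Ph g u z‖ ≤ 1 := by
  unfold Ph
  split_ifs
  · rw [norm_e]
  · simp

theorem thr_change (u z ξ : ℝ) (h : ¬ (Int.fract z < u ↔ Int.fract (z + ξ) < u)) :
    (∃ k : ℤ, |z - k| ≤ |ξ|) ∨ (∃ k : ℤ, |z - u - k| ≤ |ξ|) := by
  rcases lt_trichotomy ⌊z + ξ⌋ ⌊z⌋ with hlt | heq | hgt
  · left
    refine ⟨⌊z⌋, ?_⟩
    have h1 : z + ξ < (⌊z + ξ⌋ : ℝ) + 1 := Int.lt_floor_add_one _
    have h2 : ((⌊z + ξ⌋ : ℝ)) + 1 ≤ ⌊z⌋ := by exact_mod_cast hlt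
    have h3 := Int.floor_le z
    rw [abs_of_nonneg (by linarith)]
    have : -ξ ≤ |ξ| := neg_le_abs ξ
    linarith
  · right
    refine ⟨⌊z⌋, ?_⟩
    have f1 : Int.fract z = z - ⌊z⌋ := rfl
    have f2 : Int.fract (z + ξ) = z + ξ - ⌊z⌋ := by
      rw [← heq]; rfl
    rw [f1, f2] at h
    rw [abs_le]
    have a1 := le_abs_self ξ
    have a2 := neg_abs_le ξ
    by_cases hz : z - ⌊z⌋ < u
    · have : ¬ (z + ξ - ⌊z⌋ < u) := fun h' => h ⟨fun _ => h', fun _ => hz⟩
      push Not at this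
      constructor <;> linarith
    · have : z + ξ - ⌊z⌋ < u := by
        by_contra h'
        exact h ⟨fun h'' => absurd h'' hz, fun h'' => absurd h'' h'⟩
      push Not at hz
      constructor <;> linarith
  · left
    refine ⟨⌊z⌋ + 1, ?_⟩
    have h1 := Int.floor_le (z + ξ)
    have h2 : ((⌊z⌋ : ℝ)) + 1 ≤ ⌊z + ξ⌋ := by exact_mod_cast hgt
    have h3 : z < (⌊z⌋ : ℝ) + 1 := Int.lt_floor_add_one _
    push_cast
    rw [abs_of_nonpos (by linarith)]
    have := le_abs_self ξ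
    linarith

/-- near-integer indicator -/
noncomputable def XX (δ z : ℝ) : ℝ := by
  classical exact if ∃ k : ℤ, |z - k| ≤ δ then 1 else 0

theorem XX_nonneg (δ z : ℝ) : 0 ≤ XX δ z := by
  unfold XX; split_ifs <;> norm_num

theorem Ph_compare (g : ℤ) (u z ξ δ : ℝ) (hξ : |ξ| ≤ δ) :
    ‖Ph g u (z + ξ) - Ph g u z‖ ≤ 2 * Real.pi * |(g : ℝ)| * |ξ| + XX δ z + XX δ (z - u) := by
  have hx1 := XX_nonneg δ z
  have hx2 := XX_nonneg δ (z - u)
  have hpi : 0 ≤ 2 * Real.pi * |(g : ℝ)| * |ξ| := by positivity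
  by_cases h : (Int.fract z < u ↔ Int.fract (z + ξ) < u)
  · have : ‖Ph g u (z + ξ) - Ph g u z‖ ≤ 2 * Real.pi * |(g : ℝ)| * |ξ| := by
      unfold Ph
      by_cases hz : Int.fract z < u
      · rw [if_pos hz, if_pos (h.1 hz)]
        refine (norm_e_sub_e_le _ _).trans ?_
        have : (g : ℝ) * (z + ξ) - g * z = g * ξ := by ring
        rw [this, abs_mul]
        apply le_of_eq; ring
      · rw [if_neg hz, if_neg (fun h' => hz (h.2 h'))]
        simpa using hpi
    linarith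
  · have hnorm : ‖Ph g u (z + ξ) - Ph g u z‖ ≤ 1 := by
      unfold Ph
      by_cases hz : Int.fract z < u
      · have : ¬ (Int.fract (z + ξ) < u) := fun h' => h ⟨fun _ => h', fun _ => hz⟩
        rw [if_pos hz, if_neg this]
        simp [norm_e]
      · have : Int.fract (z + ξ) < u := by
          by_contra h'
          exact h ⟨fun h'' => absurd h'' hz, fun h'' => absurd h'' h'⟩
        rw [if_neg hz, if_pos this]
        simp [norm_e]
    rcases thr_change u z ξ h with ⟨k, hk⟩ | ⟨k, hk⟩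
    · have : XX δ z = 1 := by
        unfold XX
        rw [if_pos ⟨k, hk.trans hξ⟩]
      linarith
    · have : XX δ (z - u) = 1 := by
        unfold XX
        rw [if_pos ⟨k, hk.trans hξ⟩]
      linarith

theorem sum_XX_le (q : ℕ) (hq : 0 < q) (p : ℤ) (hcop : IsCoprime p (q : ℤ)) (γ : ℝ) :
    ∑ j ∈ range q, XX (1 / q) (j * (p / q) + γ) ≤ 3 := by
  classical
  have hq' : (0 : ℝ) < q := by exact_mod_cast hq
  set P : ℕ → Prop := fun j => ∃ k : ℤ, |(j * ((p : ℝ) / q) + γ) - k| ≤ 1 / q with hP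
  have h1 : ∑ j ∈ range q, XX (1 / q) (j * (p / q) + γ) = ((range q).filter P).card := by
    rw [card_filter]
    push_cast
    apply sum_congr rfl
    intro j _
    unfold XX
    rfl
  rw [h1]
  have hex : ∀ j ∈ (range q).filter P, ∃ k : ℤ, |(j * ((p : ℝ) / q) + γ) - k| ≤ 1 / q := by
    intro j hj
    exact (mem_filter.1 hj).2
  choose! k hk using hex
  set f : ℕ → ℤ := fun j => j * p - q * k j with hf
  have hmap : Set.MapsTo f ((range q).filter P) (Icc ⌈-(q * γ) - 1⌉ ⌊-(q * γ) + 1⌋ : Finset ℤ) := by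
    intro j hj
    have hj' := hk j hj
    rw [Finset.coe_Icc, Set.mem_Icc]
    have hid : (j * ((p : ℝ) / q) + γ) - k j = (((f j : ℤ) : ℝ) + q * γ) / q := by
      simp only [hf]
      push_cast
      field_simp
      ring
    rw [hid, abs_div, abs_of_pos hq', div_le_div_iff_of_pos_right hq', abs_le] at hj'
    constructor
    · rw [Int.ceil_le]; linarith
    · rw [Int.le_floor]; linarith
  have hinj : Set.InjOn f ((range q).filter P) := by
    intro a ha b hb hab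
    have ha' := (mem_range.1 (mem_filter.1 ha).1)
    have hb' := (mem_range.1 (mem_filter.1 hb).1)
    simp only [hf] at hab
    have hdvd : (q : ℤ) ∣ ((a : ℤ) - b) * p := ⟨k a - k b, by linear_combination hab⟩
    have hdvd2 : (q : ℤ) ∣ ((a : ℤ) - b) := hcop.symm.dvd_of_dvd_mul_right hdvd
    have hlt : |(a : ℤ) - b| < q := by rw [abs_lt]; constructor <;> omega
    have := Int.eq_zero_of_abs_lt_dvd hdvd2 hlt
    omega
  have hcard := Finset.card_le_card_of_injOn f hmap hinj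
  have hcard2 : (Icc ⌈-(q * γ) - 1⌉ ⌊-(q * γ) + 1⌋ : Finset ℤ).card ≤ 3 := by
    rw [Int.card_Icc]
    have a1 := Int.le_ceil (-((q : ℝ) * γ) - 1)
    have a2 := Int.floor_le (-((q : ℝ) * γ) + 1)
    have : ((⌊-((q : ℝ) * γ) + 1⌋ : ℝ)) - ⌈-((q : ℝ) * γ) - 1⌉ ≤ 2 := by linarith
    have : ⌊-((q : ℝ) * γ) + 1⌋ - ⌈-((q : ℝ) * γ) - 1⌉ ≤ 2 := by exact_mod_cast this
    omega
  exact_mod_cast hcard.trans hcard2

theorem block_compare (α : ℝ) (q : ℕ) (hq : 0 < q) (p : ℤ) (hcop : IsCoprime p (q : ℤ)) (Q : ℕ)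
    (hqQ : q ≤ Q) (hα : |α - p / q| ≤ 1 / ((Q + 1) * q)) (g : ℤ) (u γ : ℝ) :
    ‖∑ j ∈ range q, Ph g u (j * α + γ) - ∑ j ∈ range q, Ph g u (j * (p / q) + γ)‖
      ≤ 2 * Real.pi * |(g : ℝ)| + 6 := by
  have hq' : (0 : ℝ) < q := by exact_mod_cast hq
  have hQ' : (q : ℝ) ≤ Q := by exact_mod_cast hqQ
  rw [← sum_sub_distrib]
  have hterm : ∀ j ∈ range q, ‖Ph g u (j * α + γ) - Ph g u (j * (p / q) + γ)‖
      ≤ 2 * Real.pi * |(g : ℝ)| * (1 / q) + XX (1 / q) (j * (p / q) + γ)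
        + XX (1 / q) (j * (p / q) + (γ - u)) := by
    intro j hj
    have hj' : (j : ℝ) ≤ q := by exact_mod_cast (mem_range.1 hj).le
    have hj0 : (0 : ℝ) ≤ j := Nat.cast_nonneg j
    have hξ : |(j : ℝ) * (α - p / q)| ≤ 1 / q := by
      rw [abs_mul, abs_of_nonneg hj0]
      calc (j : ℝ) * |α - p / q| ≤ q * (1 / ((Q + 1) * q)) := by
            apply mul_le_mul hj' hα (abs_nonneg _) hq'.le
        _ = 1 / (Q + 1) := by field_simp
        _ ≤ 1 / q := by
            apply one_div_le_one_div_of_le hq'; linarith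
    have := Ph_compare g u (j * (p / q) + γ) (j * (α - p / q)) (1 / q) hξ
    have e1 : (j : ℝ) * (p / q) + γ + j * (α - p / q) = j * α + γ := by ring
    have e2 : (j : ℝ) * (p / q) + γ - u = j * (p / q) + (γ - u) := by ring
    rw [e1, e2] at this
    have h3 : 2 * Real.pi * |(g : ℝ)| * |(j : ℝ) * (α - p / q)|
        ≤ 2 * Real.pi * |(g : ℝ)| * (1 / q) :=
      mul_le_mul_of_nonneg_left hξ (by positivity)
    linarith
  refine (norm_sum_le _ _).trans ((sum_le_sum hterm).trans ?_)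
  rw [sum_add_distrib, sum_add_distrib]
  have h1 := sum_XX_le q hq p hcop γ
  have h2 := sum_XX_le q hq p hcop (γ - u)
  have h3 : ∑ _j ∈ range q, 2 * Real.pi * |(g : ℝ)| * (1 / q) = 2 * Real.pi * |(g : ℝ)| := by
    rw [sum_const, card_range, nsmul_eq_mul]
    field_simp
  linarith

/-- reindexing of a full period -/
theorem sum_reindex (q : ℕ) (hq : 0 < q) (p : ℤ) (hcop : IsCoprime p (q : ℤ)) (a : ℤ)
    (f : ℕ → ℂ) :
    ∑ j ∈ range q, f (((j * p + a) % q).toNat) = ∑ i ∈ range q, f i := by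
  have hq' : (0 : ℤ) < q := by exact_mod_cast hq
  have hmap : Set.MapsTo (fun j : ℕ => ((j * p + a) % q).toNat) (range q) (range q : Finset ℕ) := by
    intro j _
    have h1 := Int.emod_nonneg ((j : ℤ) * p + a) hq'.ne'
    have h2 := Int.emod_lt_of_pos ((j : ℤ) * p + a) hq'
    simp only [coe_range, Set.mem_Iio]
    omega
  have hinj : Set.InjOn (fun j : ℕ => ((j * p + a) % q).toNat) (range q) := by
    intro x hx y hy hxy
    simp only [coe_range, Set.mem_Iio] at hx hy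
    simp only at hxy
    have h1 := Int.emod_nonneg ((x : ℤ) * p + a) hq'.ne'
    have h3 := Int.emod_nonneg ((y : ℤ) * p + a) hq'.ne'
    have h4 : ((x : ℤ) * p + a) % q = ((y : ℤ) * p + a) % q := by omega
    have h5 : (q : ℤ) ∣ ((x : ℤ) * p + a) - ((y : ℤ) * p + a) :=
      Int.ModEq.dvd (show ((y : ℤ) * p + a) % q = ((x : ℤ) * p + a) % q from h4.symm)
    have hdvd : (q : ℤ) ∣ ((x : ℤ) - y) * p := by
      obtain ⟨w, hw⟩ := h5
      exact ⟨w, by linear_combination hw⟩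
    have hdvd2 : (q : ℤ) ∣ ((x : ℤ) - y) := hcop.symm.dvd_of_dvd_mul_right hdvd
    have hlt : |(x : ℤ) - y| < q := by rw [abs_lt]; constructor <;> omega
    have := Int.eq_zero_of_abs_lt_dvd hdvd2 hlt
    omega
  have hsurj : Set.SurjOn (fun j : ℕ => ((j * p + a) % q).toNat) (range q) (range q : Finset ℕ) :=
    Finset.surjOn_of_injOn_of_card_le _ hmap hinj le_rfl
  exact Finset.sum_nbij (fun j : ℕ => ((j * p + a) % q).toNat) hmap hinj hsurj (fun _ _ => rfl)

theorem block_exact (q : ℕ) (hq : 0 < q) (p : ℤ) (hcop : IsCoprime p (q : ℤ)) (g : ℤ)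
    (u γ : ℝ) (hu1 : u ≤ 1) :
    ∑ j ∈ range q, Ph g u (j * (p / q) + γ)
      = ∑ i ∈ range ⌈q * u - Int.fract (q * γ)⌉₊, e (g * ((i + Int.fract (q * γ)) / q)) := by
  have hq' : (0 : ℝ) < q := by exact_mod_cast hq
  have hqz : (0 : ℤ) < q := by exact_mod_cast hq
  set γ0 := Int.fract (q * γ) with hγ0
  have hγ00 : 0 ≤ γ0 := Int.fract_nonneg _
  have hγ01 : γ0 < 1 := Int.fract_lt_one _
  have h1 : ∀ j ∈ range q, Ph g u (j * (p / q) + γ)
      = (fun i : ℕ => Ph g u ((i + γ0) / q)) (((j * p + ⌊q * γ⌋) % q).toNat) := by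
    intro j _
    simp only
    set a : ℤ := (j : ℤ) * p + ⌊q * γ⌋ with ha
    have hmod := Int.emod_nonneg a hqz.ne'
    have hc : (((a % q).toNat : ℕ) : ℝ) = ((a % q : ℤ) : ℝ) := by
      have : (((a % q).toNat : ℕ) : ℤ) = a % q := Int.toNat_of_nonneg hmod
      exact_mod_cast this
    rw [hc]
    have hdecomp : (a : ℝ) = ((a % q : ℤ) : ℝ) + q * ((a / q : ℤ) : ℝ) := by
      exact_mod_cast (Int.emod_add_mul_ediv a q).symm
    have : (j : ℝ) * (p / q) + γ = (((a % q : ℤ) : ℝ) + γ0) / q + ((a / q : ℤ) : ℝ) := by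
      have hfl : (q : ℝ) * γ = ⌊(q : ℝ) * γ⌋ + γ0 := (Int.floor_add_fract _).symm
      have ha' : (a : ℝ) = j * p + ⌊(q : ℝ) * γ⌋ := by rw [ha]; push_cast; ring
      field_simp
      linarith
    rw [this, Ph_add_int]
  rw [sum_congr rfl h1, sum_reindex q hq p hcop ⌊q * γ⌋ (fun i : ℕ => Ph g u ((i + γ0) / q))]
  have hsub : range ⌈q * u - γ0⌉₊ ⊆ range q := by
    apply range_subset_range.2
    rw [Nat.ceil_le]
    have : (q : ℝ) * u ≤ q := by nlinarith
    linarith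
  rw [← sum_subset hsub]
  · apply sum_congr rfl
    intro i hi
    rw [mem_range, Nat.lt_ceil] at hi
    have hi0 : (0 : ℝ) ≤ i := Nat.cast_nonneg i
    have hval : ((i : ℝ) + γ0) / q < u := by
      rw [div_lt_iff₀ hq']; linarith
    have hfr : Int.fract (((i : ℝ) + γ0) / q) = ((i : ℝ) + γ0) / q := by
      rw [Int.fract_eq_self]
      refine ⟨by positivity, by linarith⟩
    unfold Ph
    rw [hfr, if_pos hval]
  · intro i hi hni
    rw [mem_range] at hi
    rw [mem_range, Nat.lt_ceil, not_lt] at hni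
    have hi0 : (0 : ℝ) ≤ i := Nat.cast_nonneg i
    have hi1 : (i : ℝ) + 1 ≤ q := by exact_mod_cast hi
    have hval : ¬ (((i : ℝ) + γ0) / q < u) := by
      rw [not_lt, le_div_iff₀ hq']; linarith
    have hfr : Int.fract (((i : ℝ) + γ0) / q) = ((i : ℝ) + γ0) / q := by
      rw [Int.fract_eq_self]
      refine ⟨by positivity, ?_⟩
      rw [div_lt_one hq']; linarith
    unfold Ph
    rw [hfr, if_neg hval]

theorem geom_bound (q : ℕ) (hq : 0 < q) (g : ℤ) (hg : g ≠ 0) (hg2 : 2 * |g| ≤ q) (N : ℕ)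
    (γ0 : ℝ) :
    ‖∑ i ∈ range N, e (g * ((i + γ0) / q))‖ ≤ q / (2 * |(g : ℝ)|) := by
  have hq' : (0 : ℝ) < q := by exact_mod_cast hq
  have hgpos : (0 : ℝ) < |(g : ℝ)| := by
    rw [abs_pos]; exact_mod_cast hg
  set w := e ((g : ℝ) / q) with hw
  have h1 : ∀ i ∈ range N, e (g * ((i + γ0) / q)) = e (g * γ0 / q) * w ^ i := by
    intro i _
    rw [hw, e_pow, ← e_add]
    congr 1
    field_simp
    ring
  rw [sum_congr rfl h1, ← mul_sum, norm_mul, norm_e, one_mul]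
  have hsin : 2 * |(g : ℝ) / q| ≤ |Real.sin (Real.pi * (g / q))| := by
    apply two_mul_le_sin
    rw [abs_div, abs_of_pos hq', div_le_div_iff₀ hq' two_pos]
    have : (2 : ℝ) * |(g : ℝ)| ≤ q := by exact_mod_cast hg2
    linarith
  have habs : |(g : ℝ) / q| = |(g : ℝ)| / q := by rw [abs_div, abs_of_pos hq']
  have hw1 : ‖1 - w‖ ≥ 4 * (|(g : ℝ)| / q) := by
    rw [hw, norm_one_sub_e]
    rw [habs] at hsin
    linarith
  have hpos : 0 < 4 * (|(g : ℝ)| / q) := by positivity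
  have hne : w ≠ 1 := by
    intro h
    rw [h] at hw1
    simp at hw1
    linarith
  rw [geom_sum_eq hne, norm_div]
  have hnum : ‖w ^ N - 1‖ ≤ 2 := by
    refine (norm_sub_le _ _).trans ?_
    rw [norm_pow, hw, norm_e]
    norm_num
  have hden : ‖w - 1‖ ≥ 4 * (|(g : ℝ)| / q) := by rw [norm_sub_rev]; exact hw1
  calc ‖w ^ N - 1‖ / ‖w - 1‖ ≤ 2 / (4 * (|(g : ℝ)| / q)) := by
        apply div_le_div₀ (by norm_num) hnum hpos hden
    _ = q / (2 * |(g : ℝ)|) := by field_simp; ring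

/-- general summation over blocks -/
theorem sum_blocks (f : ℝ → ℂ) (α : ℝ) (q : ℕ) (hq : 0 < q) (P : ℝ) (hP : 0 ≤ P)
    (hf : ∀ z, ‖f z‖ ≤ 1) (hblock : ∀ γ : ℝ, ‖∑ j ∈ range q, f (j * α + γ)‖ ≤ P) (N : ℕ) :
    ∀ γ : ℝ, ‖∑ r ∈ range N, f (r * α + γ)‖ ≤ (N / q) * P + q := by
  have hq' : (0 : ℝ) < q := by exact_mod_cast hq
  induction N using Nat.strong_induction_on with
  | _ N ih =>
    intro γ
    by_cases hN : N < q
    · have h1 : ‖∑ r ∈ range N, f (r * α + γ)‖ ≤ N := by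
        refine (norm_sum_le _ _).trans ?_
        refine (sum_le_sum (fun r _ => hf _)).trans ?_
        simp
      have h2 : (N : ℝ) ≤ q := by exact_mod_cast hN.le
      have h3 : 0 ≤ (N / q : ℝ) * P := by positivity
      linarith
    · push Not at hN
      have h1 : ∑ r ∈ range N, f (r * α + γ)
          = ∑ r ∈ range q, f (r * α + γ) + ∑ r ∈ range (N - q), f (r * α + (q * α + γ)) := by
        have : N = q + (N - q) := by omega
        conv_lhs => rw [this, sum_range_add]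
        congr 1
        apply sum_congr rfl
        intro r _
        congr 1
        push_cast; ring
      rw [h1]
      refine (norm_add_le _ _).trans ?_
      have h2 := ih (N - q) (by omega) (q * α + γ)
      have h3 := hblock γ
      have h4 : (((N - q : ℕ) : ℝ)) = N - q := by
        push_cast [Nat.cast_sub hN]; ring
      rw [h4] at h2
      have h5 : ((N : ℝ) - q) / q * P = (N / q) * P - P := by field_simp
      rw [h5] at h2
      linarith

theorem thr_sum (α : ℝ) (q : ℕ) (hq : 0 < q) (p : ℤ) (hcop : IsCoprime p (q : ℤ)) (Q : ℕ)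
    (hqQ : q ≤ Q) (hα : |α - p / q| ≤ 1 / ((Q + 1) * q)) (u : ℝ) (hu1 : u ≤ 1)
    (g : ℤ) (hg : g ≠ 0) (hg2 : 2 * |g| ≤ q) (N : ℕ) (γ : ℝ) :
    ‖∑ r ∈ range N, Ph g u (r * α + γ)‖
      ≤ (N / q) * (q / (2 * |(g : ℝ)|) + (2 * Real.pi * |(g : ℝ)| + 6)) + q := by
  apply sum_blocks (Ph g u) α q hq _ (by positivity) (norm_Ph_le g u)
  intro γ
  have h1 := block_compare α q hq p hcop Q hqQ hα g u γ
  have h2 := geom_bound q hq g hg hg2 ⌈q * u - Int.fract (q * γ)⌉₊ (Int.fract (q * γ))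
  rw [← block_exact q hq p hcop g u γ hu1] at h2
  have h3 : ∑ j ∈ range q, Ph g u (j * α + γ)
      = (∑ j ∈ range q, Ph g u (j * α + γ) - ∑ j ∈ range q, Ph g u (j * (p / q) + γ))
        + ∑ j ∈ range q, Ph g u (j * (p / q) + γ) := by ring
  rw [h3]
  refine (norm_add_le _ _).trans ?_
  linarith

theorem thr_count (α : ℝ) (q : ℕ) (hq : 0 < q) (p : ℤ) (hcop : IsCoprime p (q : ℤ)) (Q : ℕ)
    (hqQ : q ≤ Q) (hα : |α - p / q| ≤ 1 / ((Q + 1) * q)) (u : ℝ) (hu0 : 0 ≤ u) (hu1 : u ≤ 1)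
    (N : ℕ) (γ : ℝ) :
    ‖∑ r ∈ range N, (Ph 0 u (r * α + γ) - (u : ℂ))‖ ≤ (N / q) * 7 + q := by
  have hq' : (0 : ℝ) < q := by exact_mod_cast hq
  have hf : ∀ z, ‖Ph 0 u z - (u : ℂ)‖ ≤ 1 := by
    intro z
    unfold Ph
    split_ifs
    · simp only [Int.cast_zero, zero_mul, e_zero]
      rw [show (1 - (u : ℂ)) = ((1 - u : ℝ) : ℂ) by push_cast; ring, Complex.norm_real,
        Real.norm_eq_abs, abs_of_nonneg (by linarith)]
      linarith
    · rw [zero_sub, norm_neg, Complex.norm_real, Real.norm_eq_abs, abs_of_nonneg hu0]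
      exact hu1
  apply sum_blocks (fun z => Ph 0 u z - (u : ℂ)) α q hq 7 (by norm_num) hf
  intro γ
  have h1 := block_compare α q hq p hcop Q hqQ hα 0 u γ
  have h2 := block_exact q hq p hcop 0 u γ hu1
  simp only [Int.cast_zero, zero_mul, e_zero, sum_const, card_range, nsmul_eq_mul, mul_one,
    abs_zero, mul_zero, zero_add] at h1 h2
  simp only [sum_sub_distrib, sum_const, card_range, nsmul_eq_mul]
  have h3 : ∑ j ∈ range q, Ph 0 u (j * α + γ) - (q : ℂ) * (u : ℂ)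
      = (∑ j ∈ range q, Ph 0 u (j * α + γ) - ∑ j ∈ range q, Ph 0 u (j * (p / q) + γ))
        + ((((⌈q * u - Int.fract (q * γ)⌉₊ : ℝ) - q * u : ℝ)) : ℂ) := by
    rw [h2]; push_cast; ring
  rw [h3]
  refine (norm_add_le _ _).trans ?_
  rw [Complex.norm_real, Real.norm_eq_abs]
  have hfr0 := Int.fract_nonneg ((q : ℝ) * γ)
  have hfr1 := Int.fract_lt_one ((q : ℝ) * γ)
  have : |(⌈q * u - Int.fract (q * γ)⌉₊ : ℝ) - q * u| ≤ 1 := by
    rw [abs_le]
    constructor
    · have := Nat.le_ceil ((q : ℝ) * u - Int.fract (q * γ))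
      linarith
    · by_cases hpos : 0 ≤ (q : ℝ) * u - Int.fract (q * γ)
      · have := Nat.ceil_lt_add_one hpos
        linarith
      · push Not at hpos
        rw [Nat.ceil_eq_zero.2 hpos.le]
        have : 0 ≤ (q : ℝ) * u := by positivity
        push_cast
        linarith
  linarith

end Pool.Agent.Helper74.RR
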