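import Mathlib
import Pool.Agent.Helper74.RR.R3

set_option autoImplicit false

namespace Pool.Agent.Helper74.RR

open Finset

/-- extension by zero with offset -/
noncomputable def ex (F : ℕ → ℂ) (n H i : ℕ) : ℂ := if H ≤ i ∧ i < H + n then F (i - H) else 0

/-- correlation -/
noncomputable def DD (F : ℕ → ℂ) (n δ : ℕ) : ℂ :=
  ∑ r ∈ range (n - δ), F (r + δ) * (starRingEnd ℂ) (F r)

theorem ex_sum (F : ℕ → ℂ) (n H a : ℕ) (ha : a ≤ H) :
    ∑ k ∈ range (n + H), ex F n H (k + a) = ∑ r ∈ range n, F r := by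
  have hsub : Ico (H - a) (H - a + n) ⊆ range (n + H) := by
    intro x hx
    rw [mem_Ico] at hx
    rw [mem_range]; omega
  rw [← sum_subset hsub]
  · rw [sum_Ico_eq_sum_range]
    have : H - a + n - (H - a) = n := by omega
    rw [this]
    apply sum_congr rfl
    intro r hr
    rw [mem_range] at hr
    unfold ex
    rw [if_pos (by omega)]
    congr 1
    omega
  · intro x _ hx
    unfold ex
    rw [if_neg]
    intro h
    apply hx
    rw [mem_Ico]
    omega

theorem ex_corr (F : ℕ → ℂ) (n H a b : ℕ) (ha : a ≤ H) (hb : b ≤ a) :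
    ∑ k ∈ range (n + H), ex F n H (k + a) * (starRingEnd ℂ) (ex F n H (k + b))
      = DD F n (a - b) := by
  have hsub : Ico (H - b) (H - b + (n - (a - b))) ⊆ range (n + H) := by
    intro x hx
    rw [mem_Ico] at hx
    rw [mem_range]; omega
  rw [← sum_subset hsub]
  · rw [sum_Ico_eq_sum_range]
    have : H - b + (n - (a - b)) - (H - b) = n - (a - b) := by omega
    rw [this]
    unfold DD
    apply sum_congr rfl
    intro r hr
    rw [mem_range] at hr
    unfold ex
    rw [if_pos (by omega), if_pos (by omega)]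
    congr 2
    · omega
    · congr 1
      omega
  · intro x _ hx
    rw [mem_Ico] at hx
    unfold ex
    by_cases h1 : H ≤ x + a ∧ x + a < H + n
    · by_cases h2 : H ≤ x + b ∧ x + b < H + n
      · exfalso; omega
      · rw [if_neg h2]; simp
    · rw [if_neg h1]; simp

theorem vdc (F : ℕ → ℂ) (n H : ℕ) (hH : 0 < H) :
    (H : ℝ) * ‖∑ r ∈ range n, F r‖ ^ 2
      ≤ (n + H) * (‖DD F n 0‖ + 2 * ∑ δ ∈ Ico 1 H, ‖DD F n δ‖) := by
  have hH' : (0 : ℝ) < H := by exact_mod_cast hH
  set S := ∑ r ∈ range n, F r with hS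
  set T := ‖DD F n 0‖ + 2 * ∑ δ ∈ Ico 1 H, ‖DD F n δ‖ with hT
  have h1 : (H : ℂ) * S = ∑ k ∈ range (n + H), ∑ a ∈ range H, ex F n H (k + a) := by
    rw [sum_comm]
    rw [sum_congr rfl (fun a ha => ex_sum F n H a (mem_range.1 ha).le)]
    rw [sum_const, card_range, nsmul_eq_mul]
  have h2 : ((H : ℝ) * ‖S‖) ^ 2 ≤ (n + H) * ∑ k ∈ range (n + H), ‖∑ a ∈ range H, ex F n H (k + a)‖ ^ 2 := by
    have e1 : (H : ℝ) * ‖S‖ = ‖(H : ℂ) * S‖ := by
      rw [norm_mul]; simp
    rw [e1, h1]
    have e2 : ‖∑ k ∈ range (n + H), ∑ a ∈ range H, ex F n H (k + a)‖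
        ≤ ∑ k ∈ range (n + H), ‖∑ a ∈ range H, ex F n H (k + a)‖ := norm_sum_le _ _
    have e3 := sq_sum_le_card_mul_sum_sq (s := range (n + H))
      (f := fun k => ‖∑ a ∈ range H, ex F n H (k + a)‖)
    rw [card_range] at e3
    push_cast at e3
    calc _ ≤ (∑ k ∈ range (n + H), ‖∑ a ∈ range H, ex F n H (k + a)‖) ^ 2 :=
          pow_le_pow_left₀ (norm_nonneg _) e2 2
      _ ≤ _ := e3
  have h3 : ∑ k ∈ range (n + H), ‖∑ a ∈ range H, ex F n H (k + a)‖ ^ 2 ≤ H * T := by
    set c : ℕ → ℕ → ℂ := fun a b =>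
      ∑ k ∈ range (n + H), ex F n H (k + a) * (starRingEnd ℂ) (ex F n H (k + b)) with hc
    have hsymm : ∀ a b, ‖c b a‖ = ‖c a b‖ := by
      intro a b
      have : c b a = (starRingEnd ℂ) (c a b) := by
        simp only [hc, map_sum, map_mul, Complex.conj_conj]
        apply sum_congr rfl
        intro k _
        ring
      rw [this, Complex.norm_conj]
    have hval : ∀ a b, a < H → b ≤ a → ‖c a b‖ = ‖DD F n (a - b)‖ := by
      intro a b ha hb
      simp only [hc]
      rw [ex_corr F n H a b ha.le hb]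
    have e1 : ((∑ k ∈ range (n + H), ‖∑ a ∈ range H, ex F n H (k + a)‖ ^ 2 : ℝ) : ℂ)
        = ∑ a ∈ range H, ∑ b ∈ range H, c a b := by
      push_cast
      have : ∀ k ∈ range (n + H), ((‖∑ a ∈ range H, ex F n H (k + a)‖ : ℂ)) ^ 2
          = ∑ a ∈ range H, ∑ b ∈ range H, ex F n H (k + a) * (starRingEnd ℂ) (ex F n H (k + b)) := by
        intro k _
        rw [← Complex.mul_conj', map_sum, sum_mul_sum]
      rw [sum_congr rfl this]
      simp only [hc]
      rw [sum_comm]
      apply sum_congr rfl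
      intro a _
      rw [sum_comm]
    have e2 : ∑ k ∈ range (n + H), ‖∑ a ∈ range H, ex F n H (k + a)‖ ^ 2
        = ‖∑ a ∈ range H, ∑ b ∈ range H, c a b‖ := by
      rw [← e1, Complex.norm_real, Real.norm_eq_abs, abs_of_nonneg]
      exact sum_nonneg (fun k _ => by positivity)
    rw [e2]
    refine (norm_sum_le _ _).trans ?_
    have hrow : ∀ a ∈ range H, ‖∑ b ∈ range H, c a b‖ ≤ T := by
      intro a ha
      rw [mem_range] at ha
      refine (norm_sum_le _ _).trans ?_
      have hsplit : ∑ b ∈ range H, ‖c a b‖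
          = ∑ b ∈ range (a + 1), ‖c a b‖ + ∑ b ∈ Ico (a + 1) H, ‖c a b‖ := by
        rw [← sum_range_add_sum_Ico _ (by omega : a + 1 ≤ H)]
      rw [hsplit]
      have p1 : ∑ b ∈ range (a + 1), ‖c a b‖ ≤ ‖DD F n 0‖ + ∑ δ ∈ Ico 1 H, ‖DD F n δ‖ := by
        have q1 : ∑ b ∈ range (a + 1), ‖c a b‖ = ∑ δ ∈ range (a + 1), ‖DD F n δ‖ := by
          rw [← sum_range_reflect]
          apply sum_congr rfl
          intro b hb
          rw [mem_range] at hb
          rw [hval a _ ha (by omega)]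
          congr 2
          omega
        rw [q1, range_eq_Ico, ← sum_Ioo_add_eq_sum_Ico]
        · rw [add_comm]
          have : ∑ x ∈ Ioo 0 (a + 1), ‖DD F n x‖ ≤ ∑ δ ∈ Ico 1 H, ‖DD F n δ‖ := by
            apply sum_le_sum_of_subset_of_nonneg
            · intro x hx
              rw [mem_Ioo] at hx
              rw [mem_Ico]; omega
            · intro x _ _; exact norm_nonneg _
          linarith
        · omega
      have p2 : ∑ b ∈ Ico (a + 1) H, ‖c a b‖ ≤ ∑ δ ∈ Ico 1 H, ‖DD F n δ‖ := by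
        have q1 : ∑ b ∈ Ico (a + 1) H, ‖c a b‖ = ∑ δ ∈ Ico 1 (H - a), ‖DD F n δ‖ := by
          have : Ico (a + 1) H = Ico (1 + a) (H - a + a) := by
            congr 1
            · omega
            · omega
          rw [this, ← sum_Ico_add']
          apply sum_congr rfl
          intro δ hδ
          rw [mem_Ico] at hδ
          rw [hsymm, hval _ _ (by omega) (by omega)]
          congr 2
          omega
        rw [q1]
        apply sum_le_sum_of_subset_of_nonneg
        · intro x hx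
          rw [mem_Ico] at hx ⊢
          omega
        · intro x _ _; exact norm_nonneg _
      rw [hT]
      linarith
    refine (sum_le_sum hrow).trans ?_
    rw [sum_const, card_range, nsmul_eq_mul]
  have h4 : ((H : ℝ) * ‖S‖) ^ 2 ≤ (n + H) * (H * T) :=
    h2.trans (mul_le_mul_of_nonneg_left h3 (by positivity))
  have h5 : (H : ℝ) * (H * ‖S‖ ^ 2) ≤ H * ((n + H) * T) := by nlinarith
  exact le_of_mul_le_mul_left h5 hH'

/-- indicator identity -/
theorem thr_mul (u w z : ℝ) (_hu0 : 0 ≤ u) (hu1 : u ≤ 1) (hw0 : 0 ≤ w) (hw1 : w < 1) (x : ℂ) :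
    (if Int.fract z < u ∧ Int.fract (z - w) < u then x else 0)
      = (if Int.fract z < u then x else 0) - (if Int.fract z < min w u then x else 0)
        + (if Int.fract z < max (w + u - 1) 0 then x else 0) := by
  set y := Int.fract z with hy
  have hy0 : 0 ≤ y := Int.fract_nonneg z
  have hy1 : y < 1 := Int.fract_lt_one z
  by_cases hyw : w ≤ y
  · have hf : Int.fract (z - w) = y - w := by
      have : z - w = (y - w) + ⌊z⌋ := by
        have := Int.floor_add_fract z
        rw [← hy] at this; linarith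
      rw [this, Int.fract_add_intCast, Int.fract_eq_self]
      constructor <;> linarith
    rw [hf]
    have c2 : ¬ (y < min w u) := by
      rw [not_lt]; exact (min_le_left _ _).trans hyw
    have c3 : ¬ (y < max (w + u - 1) 0) := by
      rw [not_lt]; apply max_le <;> linarith
    rw [if_neg c2, if_neg c3]
    by_cases hyu : y < u
    · rw [if_pos ⟨hyu, by linarith⟩, if_pos hyu]; ring
    · rw [if_neg (fun h => hyu h.1), if_neg hyu]; ring
  · push Not at hyw
    have hf : Int.fract (z - w) = y - w + 1 := by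
      have : z - w = (y - w + 1) + ((⌊z⌋ - 1 : ℤ) : ℝ) := by
        have := Int.floor_add_fract z
        rw [← hy] at this; push_cast; linarith
      rw [this, Int.fract_add_intCast, Int.fract_eq_self]
      constructor <;> linarith
    rw [hf]
    by_cases hyu : y < u
    · have c2 : y < min w u := lt_min hyw hyu
      rw [if_pos hyu, if_pos c2]
      by_cases h3 : y < max (w + u - 1) 0
      · have h4 : y < w + u - 1 := by
          rcases lt_max_iff.1 h3 with h | h
          · exact h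
          · linarith
        rw [if_pos h3, if_pos ⟨hyu, by linarith⟩]; ring
      · have h4 : ¬ (y < w + u - 1) := fun h => h3 (lt_max_of_lt_left h)
        rw [if_neg h3, if_neg]
        · ring
        · intro h; apply h4; linarith [h.2]
    · have c2 : ¬ (y < min w u) := fun h => hyu (lt_of_lt_of_le h (min_le_right _ _))
      have c3 : ¬ (y < max (w + u - 1) 0) := by
        intro h
        rcases lt_max_iff.1 h with h | h
        · linarith
        · linarith
      rw [if_neg (fun h => hyu h.1), if_neg hyu, if_neg c2, if_neg c3]; ring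

/-- quadratic character restricted to a threshold set -/
noncomputable def WW (α γ φ u : ℝ) (r : ℕ) : ℂ :=
  if Int.fract (r * α + γ) < u then e (-10 * α * r ^ 2 + φ * r) else 0

theorem WW_corr (α γ φ u : ℝ) (hu0 : 0 ≤ u) (hu1 : u ≤ 1) (r h : ℕ) :
    WW α γ φ u (r + h) * (starRingEnd ℂ) (WW α γ φ u r)
      = e (-10 * α * h ^ 2 + φ * h + 20 * h * γ)
        * (Ph (-20 * h) u (r * α + γ) - Ph (-20 * h) (min (Int.fract (-(h * α))) u) (r * α + γ)
          + Ph (-20 * h) (max (Int.fract (-(h * α)) + u - 1) 0) (r * α + γ)) := by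
  set z := (r : ℝ) * α + γ with hz
  set w := Int.fract (-((h : ℝ) * α)) with hw
  have hfr : Int.fract (((r + h : ℕ) : ℝ) * α + γ) = Int.fract (z - w) := by
    have h1 : ((r + h : ℕ) : ℝ) * α + γ = (z - w) + ((-⌊-((h : ℝ) * α)⌋ : ℤ) : ℝ) := by
      have := Int.floor_add_fract (-((h : ℝ) * α))
      rw [← hw] at this
      rw [hz]
      push_cast
      linarith
    rw [h1, Int.fract_add_intCast]
  have key := thr_mul u w z hu0 hu1 (Int.fract_nonneg _) (Int.fract_lt_one _)
    (e (((-20 * h : ℤ) : ℝ) * z))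
  unfold Ph
  rw [← key]
  unfold WW
  rw [hfr, ← hz]
  by_cases c1 : Int.fract z < u
  · by_cases c2 : Int.fract (z - w) < u
    · rw [if_pos c2, if_pos c1, if_pos ⟨c1, c2⟩, ← e_neg, ← e_add, ← e_add]
      congr 1
      rw [hz]
      push_cast
      ring
    · have c3 : ¬ (Int.fract z < u ∧ Int.fract (z - w) < u) := fun h => c2 h.2
      rw [if_neg c3, if_neg c2]; simp
  · have c3 : ¬ (Int.fract z < u ∧ Int.fract (z - w) < u) := fun h => c1 h.1
    rw [if_neg c3, if_neg c1]; simp

theorem sum_inv_le (H : ℕ) : ∑ h ∈ Ico 1 (H + 1), (1 : ℝ) / h ≤ 2 * Real.sqrt H := by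
  induction H with
  | zero => simp
  | succ H ih =>
    rw [sum_Ico_succ_top (by omega)]
    have hH : (0 : ℝ) ≤ H := Nat.cast_nonneg H
    have hs1 : Real.sqrt ((H + 1 : ℕ) : ℝ) ^ 2 = H + 1 := by
      rw [Real.sq_sqrt (by positivity)]; push_cast; ring
    have hs0 : Real.sqrt (H : ℝ) ^ 2 = H := Real.sq_sqrt hH
    have hp1 : 1 ≤ Real.sqrt ((H + 1 : ℕ) : ℝ) := by
      rw [Real.one_le_sqrt]; push_cast; linarith
    have hp0 : 0 ≤ Real.sqrt (H : ℝ) := Real.sqrt_nonneg _
    set s1 := Real.sqrt ((H + 1 : ℕ) : ℝ)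
    set s0 := Real.sqrt (H : ℝ)
    have hcast : ((H + 1 : ℕ) : ℝ) = s1 ^ 2 := by rw [hs1]; push_cast; ring
    rw [hcast]
    have hs01 : s0 ≤ s1 := by nlinarith
    have : 1 / s1 ^ 2 ≤ 2 * (s1 - s0) := by
      rw [div_le_iff₀ (by positivity)]
      have h1 : (s1 - s0) * (s1 + s0) = 1 := by nlinarith
      have h2 : s1 - s0 ≥ 0 := by linarith
      nlinarith [mul_nonneg h2 (by linarith : 0 ≤ s1 - 1)]
    linarith

theorem Wbound (α K : ℝ) (hK : 1 ≤ K) (D0 : ℕ)
    (H2 : ∀ q : ℕ, 0 < q → q < D0 → ∀ p : ℤ, 1 / (K * q) ≤ |q * α - p|)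
    (n : ℕ) (hn0 : 0 < n) (hn : n < D0) (y : ℝ) (hy0 : 0 ≤ y) (hy : y ^ 16 = n)
    (γ φ u : ℝ) (hu0 : 0 ≤ u) (hu1 : u ≤ 1) :
    ‖∑ r ∈ range n, WW α γ φ u r‖ ≤ 1600 * K * y ^ 15 := by
  have hnR : (1 : ℝ) ≤ n := by exact_mod_cast hn0
  have hy1 : 1 ≤ y := by
    by_contra hlt
    push Not at hlt
    have : y ^ 16 < 1 := pow_lt_one₀ hy0 hlt (by norm_num)
    linarith
  have hWn : ∀ r, ‖WW α γ φ u r‖ ≤ 1 := by
    intro r
    unfold WW
    split_ifs
    · rw [norm_e]
    · simp
  have htriv : ‖∑ r ∈ range n, WW α γ φ u r‖ ≤ n := by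
    refine (norm_sum_le _ _).trans ((sum_le_sum (fun r _ => hWn r)).trans ?_)
    simp
  -- choose the denominator
  set Q := Nat.sqrt n with hQ
  have hQpos : 0 < Q := Nat.sqrt_pos.2 hn0
  have hQn : Q ≤ n := Nat.sqrt_le_self n
  have hQ2 : Q * Q ≤ n := Nat.sqrt_le n
  have hQ3 : n < (Q + 1) * (Q + 1) := Nat.lt_succ_sqrt n
  obtain ⟨x, hx1, hx2⟩ := Real.exists_rat_abs_sub_le_and_den_le α hQpos
  set q := x.den with hq
  set p := x.num with hp
  have hq0 : 0 < q := x.den_pos
  have hqR : (0 : ℝ) < q := by exact_mod_cast hq0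
  have hcop : IsCoprime p (q : ℤ) := by
    rw [Int.isCoprime_iff_gcd_eq_one]
    exact x.reduced
  have hxr : (x : ℝ) = p / q := by
    rw [hp, hq]; exact_mod_cast (Rat.num_div_den x).symm
  rw [hxr] at hx1
  have hqα : |q * α - p| ≤ 1 / (Q + 1) := by
    have : (q : ℝ) * α - p = q * (α - p / q) := by field_simp
    rw [this, abs_mul, abs_of_pos hqR]
    calc (q : ℝ) * |α - p / q| ≤ q * (1 / ((Q + 1) * q)) := mul_le_mul_of_nonneg_left hx1 hqR.le
      _ = 1 / (Q + 1) := by field_simp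
  have hlow := H2 q hq0 (by omega) p
  have hKq : (Q : ℝ) + 1 ≤ K * q := by
    have h1 : 1 / (K * q) ≤ 1 / ((Q : ℝ) + 1) := hlow.trans hqα
    rwa [one_div_le_one_div (by positivity) (by positivity)] at h1
  have hy8 : y ^ 8 < Q + 1 := by
    have h1 : (n : ℝ) < (Q + 1) * (Q + 1) := by exact_mod_cast hQ3
    rw [← hy] at h1
    have h2 : (y ^ 8) ^ 2 < ((Q : ℝ) + 1) ^ 2 := by nlinarith
    exact lt_of_pow_lt_pow_left₀ 2 (by positivity) h2
  have hyKq : y ^ 8 ≤ K * q := by linarith
  have hq2n : (q : ℝ) ^ 2 ≤ n := by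
    have : q * q ≤ n := (Nat.mul_le_mul hx2 hx2).trans hQ2
    have : ((q * q : ℕ) : ℝ) ≤ n := by exact_mod_cast this
    push_cast at this
    nlinarith
  by_cases hbig : q < 1600
  · have hbigR : (q : ℝ) ≤ 1600 := by exact_mod_cast hbig.le
    have h1 : y ≤ y ^ 8 := le_self_pow₀ hy1 (by norm_num)
    have h2 : y ≤ 1600 * K := by nlinarith
    calc _ ≤ (n : ℝ) := htriv
      _ = y * y ^ 15 := by rw [← hy]; ring
      _ ≤ 1600 * K * y ^ 15 := mul_le_mul_of_nonneg_right h2 (by positivity)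
  · push Not at hbig
    set H := Nat.sqrt q with hH
    have hH40 : 40 ≤ H := by
      rw [hH, Nat.le_sqrt]
      omega
    have hHq : H * H ≤ q := Nat.sqrt_le q
    have hHq2 : q < (H + 1) * (H + 1) := Nat.lt_succ_sqrt q
    have hHR : (40 : ℝ) ≤ H := by exact_mod_cast hH40
    have hHqR : (H : ℝ) ^ 2 ≤ q := by
      have : ((H * H : ℕ) : ℝ) ≤ q := by exact_mod_cast hHq
      push_cast at this; nlinarith
    have h40 : 40 * H ≤ q := (Nat.mul_le_mul_right H hH40).trans hHq
    have hv := vdc (WW α γ φ u) n H (by omega)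
    set v := Real.sqrt H with hvdef
    have hv2 : v ^ 2 = H := Real.sq_sqrt (by positivity)
    have hv1 : 1 ≤ v := by rw [hvdef, Real.one_le_sqrt]; linarith
    -- D0
    have hD0 : ‖DD (WW α γ φ u) n 0‖ ≤ n := by
      unfold DD
      refine (norm_sum_le _ _).trans ?_
      have : ∀ r ∈ range (n - 0), ‖WW α γ φ u (r + 0) * (starRingEnd ℂ) (WW α γ φ u r)‖ ≤ 1 := by
        intro r _
        rw [norm_mul, Complex.norm_conj]
        exact mul_le_one₀ (hWn _) (norm_nonneg _) (hWn _)
      refine (sum_le_sum this).trans ?_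
      simp
    have hDδ : ∀ h ∈ Ico 1 H, ‖DD (WW α γ φ u) n h‖
        ≤ 3 * ((n / 40) * (1 / h) + (n / q) * (126 * H + 6) + q) := by
      intro h hh
      rw [mem_Ico] at hh
      have hhR : (1 : ℝ) ≤ h := by exact_mod_cast hh.1
      have hhH : (h : ℝ) ≤ H := by exact_mod_cast hh.2.le
      have hgne : (-20 * (h : ℤ)) ≠ 0 := by omega
      have hgabs : |(-20 * (h : ℤ))| = 20 * h := by
        rw [abs_mul]; simp
      have hgabsR : |((-20 * (h : ℤ) : ℤ) : ℝ)| = 20 * h := by
        have : ((|(-20 * (h : ℤ))| : ℤ) : ℝ) = ((20 * h : ℤ) : ℝ) := by rw [hgabs]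
        push_cast at this ⊢
        exact this
      have hg2 : 2 * |(-20 * (h : ℤ))| ≤ q := by
        rw [hgabs]; push_cast; omega
      have hB : ∀ u' : ℝ, u' ≤ 1 → ‖∑ r ∈ range (n - h), Ph (-20 * h) u' (r * α + γ)‖
          ≤ (n / 40) * (1 / h) + (n / q) * (126 * H + 6) + q := by
        intro u' hu'
        have h1 := thr_sum α q hq0 p hcop Q hx2 hx1 u' hu' (-20 * h) hgne hg2 (n - h) γ
        rw [hgabsR] at h1
        have hnh : ((n - h : ℕ) : ℝ) ≤ n := by exact_mod_cast Nat.sub_le n h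
        have hpi := Real.pi_lt_d2
        have h2 : (q : ℝ) / (2 * (20 * h)) + (2 * Real.pi * (20 * h) + 6)
            ≤ q / (40 * h) + (126 * H + 6) := by
          have : (q : ℝ) / (2 * (20 * h)) = q / (40 * h) := by ring_nf
          rw [this]
          have : 2 * Real.pi * (20 * h) ≤ 126 * (H : ℝ) := by nlinarith
          linarith
        have h3 : ((n - h : ℕ) : ℝ) / q * (q / (2 * (20 * h)) + (2 * Real.pi * (20 * h) + 6))
            ≤ (n : ℝ) / q * (q / (40 * h) + (126 * H + 6)) := by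
          apply mul_le_mul _ h2 (by positivity) (by positivity)
          exact div_le_div_of_nonneg_right hnh hqR.le
        have h4 : (n : ℝ) / q * (q / (40 * h) + (126 * H + 6))
            = (n / 40) * (1 / h) + (n / q) * (126 * H + 6) := by
          field_simp
        linarith
      have hD : DD (WW α γ φ u) n h = e (-10 * α * h ^ 2 + φ * h + 20 * h * γ)
          * (∑ r ∈ range (n - h), Ph (-20 * h) u (r * α + γ)
            - ∑ r ∈ range (n - h), Ph (-20 * h) (min (Int.fract (-(h * α))) u) (r * α + γ)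
            + ∑ r ∈ range (n - h), Ph (-20 * h) (max (Int.fract (-(h * α)) + u - 1) 0) (r * α + γ)) := by
        unfold DD
        rw [← sum_sub_distrib, ← sum_add_distrib, mul_sum]
        apply sum_congr rfl
        intro r _
        exact WW_corr α γ φ u hu0 hu1 r h
      rw [hD, norm_mul, norm_e, one_mul]
      have b1 := hB u hu1
      have b2 := hB (min (Int.fract (-(h * α))) u) ((min_le_right _ _).trans hu1)
      have b3 := hB (max (Int.fract (-(h * α)) + u - 1) 0) (by
        apply max_le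
        · have := Int.fract_lt_one (-((h : ℝ) * α)); linarith
        · norm_num)
      refine (norm_add_le _ _).trans ?_
      have := norm_sub_le (∑ r ∈ range (n - h), Ph (-20 * h) u (r * α + γ))
        (∑ r ∈ range (n - h), Ph (-20 * h) (min (Int.fract (-(h * α))) u) (r * α + γ))
      linarith
    have hsum : ∑ h ∈ Ico 1 H, ‖DD (WW α γ φ u) n h‖ ≤ 3 * (n * v / 20 + 133 * n) := by
      refine (sum_le_sum hDδ).trans ?_
      rw [← mul_sum]
      apply mul_le_mul_of_nonneg_left _ (by norm_num)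
      rw [sum_add_distrib, sum_add_distrib, ← mul_sum, sum_const, sum_const, Nat.card_Ico,
        nsmul_eq_mul, nsmul_eq_mul]
      have s1 : ∑ h ∈ Ico 1 H, (1 : ℝ) / h ≤ 2 * v := by
        have h1 := sum_inv_le H
        refine le_trans ?_ h1
        apply sum_le_sum_of_subset_of_nonneg
        · intro x hx; rw [mem_Ico] at hx ⊢; omega
        · intro x _ _; positivity
      have s2 : (((H - 1 : ℕ) : ℝ)) ≤ H := by exact_mod_cast Nat.sub_le H 1
      have s3 : (((H - 1 : ℕ) : ℝ)) * ((n / q) * (126 * H + 6)) ≤ 132 * n := by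
        have : (((H - 1 : ℕ) : ℝ)) * ((n / q) * (126 * H + 6)) ≤ H * ((n / q) * (126 * H + 6)) :=
          mul_le_mul_of_nonneg_right s2 (by positivity)
        refine this.trans ?_
        have e1 : (H : ℝ) * ((n / q) * (126 * H + 6)) = (n / q) * (126 * H ^ 2 + 6 * H) := by ring
        rw [e1]
        have e2 : 126 * (H : ℝ) ^ 2 + 6 * H ≤ 132 * q := by nlinarith
        calc (n / q : ℝ) * (126 * H ^ 2 + 6 * H) ≤ (n / q) * (132 * q) :=
              mul_le_mul_of_nonneg_left e2 (by positivity)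
          _ = 132 * n := by field_simp
      have s4 : (((H - 1 : ℕ) : ℝ)) * q ≤ n := by
        have hHleq : (H : ℝ) ≤ q := by nlinarith
        calc (((H - 1 : ℕ) : ℝ)) * q ≤ q * q := mul_le_mul_of_nonneg_right (s2.trans hHleq) hqR.le
          _ ≤ n := by nlinarith
      have s5 : (n : ℝ) / 40 * ∑ h ∈ Ico 1 H, (1 : ℝ) / h ≤ n * v / 20 := by
        calc (n : ℝ) / 40 * ∑ h ∈ Ico 1 H, (1 : ℝ) / h ≤ n / 40 * (2 * v) :=
              mul_le_mul_of_nonneg_left s1 (by positivity)
          _ = n * v / 20 := by ring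
      linarith
    have hT : ‖DD (WW α γ φ u) n 0‖ + 2 * ∑ δ ∈ Ico 1 H, ‖DD (WW α γ φ u) n δ‖ ≤ 800 * n * v := by
      have h1 : 0 ≤ (n : ℝ) * (v - 1) := mul_nonneg (by linarith) (by linarith)
      have : (n : ℝ) + 2 * (3 * (n * v / 20 + 133 * n)) ≤ 800 * n * v := by linarith
      linarith
    have hnH : (n : ℝ) + H ≤ 2 * n := by
      have h1 : H ≤ n := (Nat.sqrt_le_self q).trans (hx2.trans hQn)
      have : (H : ℝ) ≤ n := by exact_mod_cast h1
      linarith
    have hfin : (H : ℝ) * ‖∑ r ∈ range n, WW α γ φ u r‖ ^ 2 ≤ 2 * n * (800 * n * v) := by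
      refine hv.trans ?_
      apply mul_le_mul hnH hT (by positivity) (by positivity)
    set S := ‖∑ r ∈ range n, WW α γ φ u r‖ with hS
    have hS0 : 0 ≤ S := norm_nonneg _
    have hSv : v * S ^ 2 ≤ 1600 * n ^ 2 := by
      rw [← hv2] at hfin
      have : v * (v * S ^ 2) ≤ v * (1600 * n ^ 2) := by nlinarith
      exact le_of_mul_le_mul_left this (by linarith)
    -- lower bound for v
    have hvlow : y ^ 2 ≤ 2 * K * v := by
      have h1 : (q : ℝ) < (H + 1) ^ 2 := by
        have : ((q : ℕ) : ℝ) < (((H + 1) * (H + 1) : ℕ) : ℝ) := by exact_mod_cast hHq2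
        push_cast at this; nlinarith
      have h2 : (q : ℝ) ≤ 4 * H ^ 2 := by nlinarith
      have h3 : y ^ 8 ≤ K * (4 * (v ^ 2) ^ 2) := by
        rw [hv2]
        refine hyKq.trans ?_
        exact mul_le_mul_of_nonneg_left h2 (by linarith)
      have h4 : (y ^ 2) ^ 4 ≤ (2 * K * v) ^ 4 := by
        have h5 : K * 4 ≤ 16 * K ^ 4 := by
          have : K ≤ K ^ 4 := le_self_pow₀ hK (by norm_num)
          nlinarith
        have h6 : 0 ≤ v ^ 4 := by positivity
        calc (y ^ 2) ^ 4 = y ^ 8 := by ring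
          _ ≤ K * (4 * (v ^ 2) ^ 2) := h3
          _ = K * 4 * v ^ 4 := by ring
          _ ≤ 16 * K ^ 4 * v ^ 4 := mul_le_mul_of_nonneg_right h5 h6
          _ = (2 * K * v) ^ 4 := by ring
      exact le_of_pow_le_pow_left₀ (by norm_num) (by positivity) h4
    have hfinal : S ^ 2 ≤ (1600 * K * y ^ 15) ^ 2 := by
      have h1 : y ^ 2 * S ^ 2 ≤ 2 * K * (1600 * n ^ 2) := by
        calc y ^ 2 * S ^ 2 ≤ (2 * K * v) * S ^ 2 := mul_le_mul_of_nonneg_right hvlow (by positivity)
          _ = 2 * K * (v * S ^ 2) := by ring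
          _ ≤ 2 * K * (1600 * n ^ 2) := mul_le_mul_of_nonneg_left hSv (by positivity)
      rw [← hy] at h1
      have h2 : y ^ 2 * S ^ 2 ≤ y ^ 2 * (3200 * K * (y ^ 15) ^ 2) := by
        calc y ^ 2 * S ^ 2 ≤ 2 * K * (1600 * (y ^ 16) ^ 2) := h1
          _ = y ^ 2 * (3200 * K * (y ^ 15) ^ 2) := by ring
      have h3 := le_of_mul_le_mul_left h2 (by positivity)
      refine h3.trans ?_
      have h4 : 0 ≤ (y ^ 15) ^ 2 := by positivity
      have h5 : 3200 * K ≤ (1600 * K) ^ 2 := by nlinarith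
      calc 3200 * K * (y ^ 15) ^ 2 ≤ (1600 * K) ^ 2 * (y ^ 15) ^ 2 :=
            mul_le_mul_of_nonneg_right h5 h4
        _ = _ := by ring
    exact le_of_pow_le_pow_left₀ two_ne_zero (by positivity) hfinal

end Pool.Agent.Helper74.RR
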