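import Mathlib
import Pool.Agent.Helper74.RR.R4

set_option autoImplicit false

namespace Pool.Agent.Helper74.RR

open Finset

/-- Abel summation with power-type bounds -/
theorem abel_pow (k : ℕ) (hk : 2 ≤ k) (S h : ℕ) (x : ℕ → ℂ) (b : ℕ → ℝ) (y : ℕ → ℝ)
    (hy0 : ∀ n, 0 ≤ y n) (hy : ∀ n, y n ^ k = n) (Λ D : ℝ) (hΛ : 0 ≤ Λ) (hD : 0 ≤ D)
    (hX : ∀ n, S < n → n < h → ‖∑ s ∈ Ico (S + 1) (n + 1), x s‖ ≤ Λ * y n ^ (k - 1))
    (hb0 : ∀ s, S < s → s < h → 0 ≤ b s) (hbm : ∀ s, S < s → s + 1 < h → b (s + 1) ≤ b s)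
    (hbD : ∀ s, S < s → s < h → b s * s ≤ D) :
    ‖∑ s ∈ Ico (S + 1) h, (b s : ℂ) * x s‖ * y (S + 1) ≤ Λ * D * k := by
  have hymono : ∀ n, y n ≤ y (n + 1) := by
    intro n
    have : y n ^ k ≤ y (n + 1) ^ k := by rw [hy, hy]; push_cast; linarith
    exact le_of_pow_le_pow_left₀ (by omega) (hy0 _) this
  have hypos : ∀ n, 0 < n → 1 ≤ y n := by
    intro n hn
    by_contra hlt
    push Not at hlt
    have h1 : y n ^ k < 1 := pow_lt_one₀ (hy0 n) hlt (by omega)
    rw [hy] at h1
    have : (1 : ℝ) ≤ n := by exact_mod_cast hn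
    linarith
  -- trivial case
  by_cases hSh : h ≤ S + 1
  · rw [Ico_eq_empty (by omega)]
    simp; positivity
  push Not at hSh
  have hkR : (2 : ℝ) ≤ k := by exact_mod_cast hk
  -- the key inequality, by induction
  set w : ℕ → ℝ := fun n => y n ^ (k - 1) with hw
  set X : ℕ → ℂ := fun n => ∑ s ∈ Ico (S + 1) (n + 1), x s with hXdef
  have step1 : ∀ n, S + 1 ≤ n → n < h →
      ‖(∑ s ∈ Ico (S + 1) (n + 1), (b s : ℂ) * x s) - b n * X n‖
        ≤ Λ * (∑ s ∈ Ico (S + 2) (n + 1), b s * (w s - w (s - 1)) + b (S + 1) * w (S + 1) - b n * w n) := by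
    intro n hn
    induction n, hn using Nat.le_induction with
    | base =>
      intro _
      simp [hXdef]
    | succ n hn ih =>
      intro hlt
      have ihn := ih (by omega)
      have hXs : X (n + 1) = X n + x (n + 1) := by
        simp only [hXdef]
        rw [sum_Ico_succ_top (by omega)]
      have e1 : (∑ s ∈ Ico (S + 1) (n + 1 + 1), (b s : ℂ) * x s) - b (n + 1) * X (n + 1)
          = ((∑ s ∈ Ico (S + 1) (n + 1), (b s : ℂ) * x s) - b n * X n)
            + ((b n - b (n + 1) : ℝ) : ℂ) * X n := by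
        rw [sum_Ico_succ_top (by omega), hXs]
        push_cast; ring
      rw [e1]
      refine (norm_add_le _ _).trans ?_
      rw [norm_mul, Complex.norm_real, Real.norm_eq_abs,
        abs_of_nonneg (by linarith [hbm n (by omega) hlt])]
      have h2 := hX n (by omega) (by omega)
      have h3 : (b n - b (n + 1)) * ‖X n‖ ≤ (b n - b (n + 1)) * (Λ * w n) :=
        mul_le_mul_of_nonneg_left h2 (by linarith [hbm n (by omega) hlt])
      have e2 : ∑ s ∈ Ico (S + 2) (n + 1 + 1), b s * (w s - w (s - 1))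
          = ∑ s ∈ Ico (S + 2) (n + 1), b s * (w s - w (s - 1)) + b (n + 1) * (w (n + 1) - w n) := by
        rw [sum_Ico_succ_top (by omega)]
        simp
      rw [e2]
      set TT1 := ∑ s ∈ Ico (S + 2) (n + 1), b s * (w s - w (s - 1))
      have e3 : Λ * (TT1 + b (n + 1) * (w (n + 1) - w n) + b (S + 1) * w (S + 1) - b (n + 1) * w (n + 1))
          = Λ * (TT1 + b (S + 1) * w (S + 1) - b n * w n) + (b n - b (n + 1)) * (Λ * w n) := by ring
      rw [e3]
      linarith
  have hn := step1 (h - 1) (by omega) (by omega)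
  have hh : h - 1 + 1 = h := by omega
  rw [hh] at hn
  have hfin : ‖∑ s ∈ Ico (S + 1) h, (b s : ℂ) * x s‖
      ≤ Λ * (∑ s ∈ Ico (S + 2) h, b s * (w s - w (s - 1)) + b (S + 1) * w (S + 1)) := by
    have h1 : ‖(b (h - 1) : ℂ) * X (h - 1)‖ ≤ b (h - 1) * (Λ * w (h - 1)) := by
      rw [norm_mul, Complex.norm_real, Real.norm_eq_abs, abs_of_nonneg (hb0 _ (by omega) (by omega))]
      exact mul_le_mul_of_nonneg_left (hX _ (by omega) (by omega)) (hb0 _ (by omega) (by omega))
    have h2 : ∑ s ∈ Ico (S + 1) h, (b s : ℂ) * x s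
        = ((∑ s ∈ Ico (S + 1) h, (b s : ℂ) * x s) - b (h - 1) * X (h - 1)) + b (h - 1) * X (h - 1) := by
      ring
    rw [h2]
    refine (norm_add_le _ _).trans ?_
    nlinarith
  -- compare with the telescoping sum
  have hratio : ∀ s, 2 ≤ s → (w s - w (s - 1)) * y (s - 1) * y s ≤ (k - 1) * s * (y s - y (s - 1)) := by
    intro s hs
    have ha := hy0 (s - 1)
    have hb := hy0 s
    have hab : y (s - 1) ≤ y s := by
      have := hymono (s - 1)
      rwa [Nat.sub_add_cancel (by omega)] at this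
    set A := y (s - 1)
    set B := y s
    have hgeom : w s - w (s - 1) = (B - A) * ∑ i ∈ range (k - 1), B ^ i * A ^ (k - 1 - 1 - i) := by
      simp only [hw]
      rw [mul_comm]
      exact (Commute.geom_sum₂_mul (Commute.all B A) (k - 1)).symm
    have hsum : (∑ i ∈ range (k - 1), B ^ i * A ^ (k - 1 - 1 - i)) * A * B ≤ (k - 1) * s := by
      rw [sum_mul, sum_mul]
      have : ∀ i ∈ range (k - 1), B ^ i * A ^ (k - 1 - 1 - i) * A * B ≤ s := by
        intro i hi
        rw [mem_range] at hi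
        have h1 : B ^ i * A ^ (k - 1 - 1 - i) * A * B = B ^ (i + 1) * A ^ (k - 1 - i) := by
          have : k - 1 - i = (k - 1 - 1 - i) + 1 := by omega
          rw [this]; ring
        rw [h1]
        have h2 : A ^ (k - 1 - i) ≤ B ^ (k - 1 - i) := pow_le_pow_left₀ ha hab _
        calc B ^ (i + 1) * A ^ (k - 1 - i) ≤ B ^ (i + 1) * B ^ (k - 1 - i) :=
              mul_le_mul_of_nonneg_left h2 (by positivity)
          _ = B ^ k := by rw [← pow_add]; congr 1; omega
          _ = s := hy s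
      refine (sum_le_sum this).trans ?_
      rw [sum_const, card_range, nsmul_eq_mul]
      apply le_of_eq
      push_cast [Nat.cast_sub (by omega : 1 ≤ k)]
      ring
    rw [hgeom]
    have hBA : 0 ≤ B - A := by linarith
    calc (B - A) * (∑ i ∈ range (k - 1), B ^ i * A ^ (k - 1 - 1 - i)) * A * B
        = (B - A) * ((∑ i ∈ range (k - 1), B ^ i * A ^ (k - 1 - 1 - i)) * A * B) := by ring
      _ ≤ (B - A) * ((k - 1) * s) := mul_le_mul_of_nonneg_left hsum hBA
      _ = _ := by ring
  have htel : ∀ n, S + 2 ≤ n → n ≤ h →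
      ∑ s ∈ Ico (S + 2) n, b s * (w s - w (s - 1)) ≤ D * (k - 1) * (1 / y (S + 1) - 1 / y (n - 1)) := by
    intro n hn
    induction n, hn using Nat.le_induction with
    | base => intro _; simp
    | succ n hn ih =>
      intro hlt
      rw [sum_Ico_succ_top (by omega)]
      have ihn := ih (by omega)
      have hbn0 := hb0 n (by omega) (by omega)
      have hbn := hbD n (by omega) (by omega)
      have hr := hratio n (by omega)
      have hyn := hypos n (by omega)
      have hyn1 := hypos (n - 1) (by omega)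
      have hnR : (0 : ℝ) < n := by exact_mod_cast (by omega : 0 < n)
      have : n + 1 - 1 = n := by omega
      rw [this]
      have hmn : y (n - 1) ≤ y n := by
        have := hymono (n - 1)
        rwa [Nat.sub_add_cancel (by omega)] at this
      have key : b n * (w n - w (n - 1)) ≤ D * (k - 1) * (1 / y (n - 1) - 1 / y n) := by
        have e1 : 1 / y (n - 1) - 1 / y n = (y n - y (n - 1)) / (y (n - 1) * y n) := by
          field_simp
        rw [e1, mul_div_assoc', le_div_iff₀ (by positivity)]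
        have h1 : b n * (w n - w (n - 1)) * (y (n - 1) * y n)
            = b n * ((w n - w (n - 1)) * y (n - 1) * y n) := by ring
        rw [h1]
        have h2 : b n * ((w n - w (n - 1)) * y (n - 1) * y n)
            ≤ b n * ((k - 1) * n * (y n - y (n - 1))) := mul_le_mul_of_nonneg_left hr hbn0
        refine h2.trans ?_
        have h3 : b n * ((k - 1) * n * (y n - y (n - 1))) = (b n * n) * ((k - 1) * (y n - y (n - 1))) := by
          ring
        rw [h3]
        have h4 : 0 ≤ ((k : ℝ) - 1) * (y n - y (n - 1)) := by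
          apply mul_nonneg <;> linarith
        calc (b n * n) * ((k - 1) * (y n - y (n - 1))) ≤ D * ((k - 1) * (y n - y (n - 1))) :=
              mul_le_mul_of_nonneg_right hbn h4
          _ = _ := by ring
      have h5 : D * (k - 1) * (1 / y (S + 1) - 1 / y (n - 1)) + D * (k - 1) * (1 / y (n - 1) - 1 / y n)
          = D * (k - 1) * (1 / y (S + 1) - 1 / y n) := by ring
      linarith
  have ht := htel h (by omega) le_rfl
  have hyS := hypos (S + 1) (by omega)
  have hyh : 0 ≤ 1 / y (h - 1) := by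
    have := hy0 (h - 1); positivity
  have hfirst : b (S + 1) * w (S + 1) * y (S + 1) ≤ D := by
    have h1 : w (S + 1) * y (S + 1) = (S + 1 : ℕ) := by
      rw [← hy (S + 1)]
      simp only [hw]
      rw [← pow_succ]
      congr 1; omega
    rw [mul_assoc, h1]
    exact hbD _ (by omega) (by omega)
  have hk1 : (0 : ℝ) ≤ k - 1 := by linarith
  have hsumy : (∑ s ∈ Ico (S + 2) h, b s * (w s - w (s - 1))) * y (S + 1) ≤ D * (k - 1) := by
    have h1 : ∑ s ∈ Ico (S + 2) h, b s * (w s - w (s - 1)) ≤ D * (k - 1) * (1 / y (S + 1)) := by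
      have : 0 ≤ D * (k - 1) * (1 / y (h - 1)) := by positivity
      linarith
    calc (∑ s ∈ Ico (S + 2) h, b s * (w s - w (s - 1))) * y (S + 1)
        ≤ D * (k - 1) * (1 / y (S + 1)) * y (S + 1) := mul_le_mul_of_nonneg_right h1 (by linarith)
      _ = D * (k - 1) := by field_simp
  calc ‖∑ s ∈ Ico (S + 1) h, (b s : ℂ) * x s‖ * y (S + 1)
      ≤ (Λ * (∑ s ∈ Ico (S + 2) h, b s * (w s - w (s - 1)) + b (S + 1) * w (S + 1))) * y (S + 1) :=
        mul_le_mul_of_nonneg_right hfin (by linarith)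
    _ = Λ * ((∑ s ∈ Ico (S + 2) h, b s * (w s - w (s - 1))) * y (S + 1)
          + b (S + 1) * w (S + 1) * y (S + 1)) := by ring
    _ ≤ Λ * (D * (k - 1) + D) := by
        apply mul_le_mul_of_nonneg_left _ hΛ
        linarith
    _ = Λ * D * k := by ring

/-- product close to one -/
theorem prod_close {ι : Type} (s : Finset ι) (a : ι → ℝ) (A B : ℝ)
    (ha : ∀ i ∈ s, |a i| ≤ 1 / 2) (hA : |∑ i ∈ s, a i| ≤ A) (hB : ∑ i ∈ s, a i ^ 2 ≤ B)
    (hAB : A + 2 * B ≤ 1) : |∏ i ∈ s, (1 + a i) - 1| ≤ 2 * (A + 2 * B) := by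
  have hpos : ∀ i ∈ s, 0 < 1 + a i := by
    intro i hi
    have := (abs_le.1 (ha i hi)).1
    linarith
  have h1 : ∏ i ∈ s, (1 + a i) = Real.exp (∑ i ∈ s, Real.log (1 + a i)) := by
    rw [Real.exp_sum]
    apply prod_congr rfl
    intro i hi
    rw [Real.exp_log (hpos i hi)]
  have hlog : ∀ i ∈ s, |Real.log (1 + a i) - a i| ≤ 2 * a i ^ 2 := by
    intro i hi
    have hx : |-(a i)| < 1 := by
      rw [abs_neg]; linarith [ha i hi]
    have := Real.abs_log_sub_add_sum_range_le hx 1
    simp only [sum_range_one, zero_add, pow_one, Nat.cast_zero, div_one, sub_neg_eq_add, abs_neg] at this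
    have h2 : -(a i) + Real.log (1 + a i) = Real.log (1 + a i) - a i := by ring
    rw [h2] at this
    refine this.trans ?_
    rw [div_le_iff₀ (by linarith [ha i hi])]
    have h3 : |a i| ^ (1 + 1) = a i ^ 2 := by norm_num
    rw [h3]
    have h4 : 0 ≤ a i ^ 2 := sq_nonneg _
    nlinarith [ha i hi]
  have hsum : |∑ i ∈ s, Real.log (1 + a i)| ≤ A + 2 * B := by
    have e1 : ∑ i ∈ s, Real.log (1 + a i) = ∑ i ∈ s, (Real.log (1 + a i) - a i) + ∑ i ∈ s, a i := by
      rw [← sum_add_distrib]; apply sum_congr rfl; intro i _; ring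
    rw [e1]
    refine (abs_add_le _ _).trans ?_
    have e2 : |∑ i ∈ s, (Real.log (1 + a i) - a i)| ≤ 2 * B := by
      refine (abs_sum_le_sum_abs _ _).trans ((sum_le_sum hlog).trans ?_)
      rw [← mul_sum]; linarith
    linarith
  rw [h1]
  have := Real.abs_exp_sub_one_le (x := ∑ i ∈ s, Real.log (1 + a i)) (by linarith)
  linarith

end Pool.Agent.Helper74.RR
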