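import Mathlib
import Pool.Agent.Helper74.RR.R5

set_option autoImplicit false

namespace Pool.Agent.Helper74.RR

open Finset

/-- Arithmetic data at a good denominator. -/
structure Dat (M : ℝ) where
  d : ℕ
  c : ℤ
  cb : ℤ
  l0 : ℤ
  t : ℝ
  K : ℝ
  hd : 2 ≤ d
  hM : 1 ≤ M
  hK : 1 ≤ K
  hc : c * cb = 1 + d * l0
  h1 : |d * t - c| ≤ M / (K * d)
  h2 : ∀ q : ℕ, 0 < q → q < d → ∀ p : ℤ, 1 / (K * q) ≤ |q * ((cb : ℝ) / d) - p|
  h3 : ∀ m : ℕ, 0 < m → m < d →
    |Real.sin (Real.pi * (d * t - c))| ≤ M * |Real.sin (Real.pi * (m * t))|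
  h4 : ∀ m : ℕ, 0 < m → m < d → Real.sin (Real.pi * (m * t)) ≠ 0

/-- existence of a denominator of size about `√n` -/
theorem exists_q (α K : ℝ) (hK : 1 ≤ K) (D0 : ℕ)
    (H2 : ∀ q : ℕ, 0 < q → q < D0 → ∀ p : ℤ, 1 / (K * q) ≤ |q * α - p|)
    (n : ℕ) (hn0 : 0 < n) (hn : n < D0) :
    ∃ (q Q : ℕ) (p : ℤ), 0 < q ∧ IsCoprime p (q : ℤ) ∧ q ≤ Q ∧ |α - p / q| ≤ 1 / ((Q + 1) * q)
      ∧ (q : ℝ) ≤ Real.sqrt n ∧ Real.sqrt n ≤ K * q := by
  set Q := Nat.sqrt n with hQ
  have hQpos : 0 < Q := Nat.sqrt_pos.2 hn0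
  have hQn : Q ≤ n := Nat.sqrt_le_self n
  have hQ2 : Q * Q ≤ n := Nat.sqrt_le n
  have hQ3 : n < (Q + 1) * (Q + 1) := Nat.lt_succ_sqrt n
  obtain ⟨x, hx1, hx2⟩ := Real.exists_rat_abs_sub_le_and_den_le α hQpos
  set q := x.den with hq
  set p := x.num with hp
  have hq0 : 0 < q := x.den_pos
  have hqR : (0 : ℝ) < q := by exact_mod_cast hq0
  have hcop : IsCoprime p (q : ℤ) := by
    rw [Int.isCoprime_iff_gcd_eq_one]
    exact x.reduced
  have hxr : (x : ℝ) = p / q := by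
    rw [hp, hq]; exact_mod_cast (Rat.num_div_den x).symm
  rw [hxr] at hx1
  have hqα : |q * α - p| ≤ 1 / (Q + 1) := by
    have : (q : ℝ) * α - p = q * (α - p / q) := by field_simp
    rw [this, abs_mul, abs_of_pos hqR]
    calc (q : ℝ) * |α - p / q| ≤ q * (1 / ((Q + 1) * q)) := mul_le_mul_of_nonneg_left hx1 hqR.le
      _ = 1 / (Q + 1) := by field_simp
  have hlow := H2 q hq0 (by omega) p
  have hKq : (Q : ℝ) + 1 ≤ K * q := by
    have h1 : 1 / (K * q) ≤ 1 / ((Q : ℝ) + 1) := hlow.trans hqα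
    rwa [one_div_le_one_div (by positivity) (by positivity)] at h1
  refine ⟨q, Q, p, hq0, hcop, hx2, hx1, ?_, ?_⟩
  · apply Real.le_sqrt_of_sq_le
    have : q * q ≤ n := (Nat.mul_le_mul hx2 hx2).trans hQ2
    have : ((q * q : ℕ) : ℝ) ≤ n := by exact_mod_cast this
    push_cast at this
    nlinarith
  · have h1 : (n : ℝ) ≤ ((Q : ℝ) + 1) ^ 2 := by
      have : ((n : ℕ) : ℝ) ≤ (((Q + 1) * (Q + 1) : ℕ) : ℝ) := by exact_mod_cast hQ3.le
      push_cast at this; nlinarith
    have h2 : Real.sqrt n ≤ (Q : ℝ) + 1 := by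
      rw [Real.sqrt_le_left (by positivity)]
      exact h1
    linarith

/-- cotangent -/
noncomputable def ct (x : ℝ) : ℝ := Real.cos x / Real.sin x

theorem sin_lower (v : ℝ) (h0 : 0 ≤ v) (h1 : v ≤ 1) (w : ℝ) (hw1 : w ≤ v) (hw2 : w ≤ 1 - v) :
    2 * w ≤ Real.sin (Real.pi * v) := by
  have hs0 : 0 ≤ Real.sin (Real.pi * v) := by
    apply Real.sin_nonneg_of_nonneg_of_le_pi
    · positivity
    · nlinarith [Real.pi_pos]
  by_cases hv : v ≤ 1 / 2
  · have := two_mul_le_sin v (by rw [abs_of_nonneg h0]; exact hv)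
    rw [abs_of_nonneg h0, abs_of_nonneg hs0] at this
    linarith
  · push Not at hv
    have := two_mul_le_sin (1 - v) (by rw [abs_of_nonneg (by linarith)]; linarith)
    rw [abs_of_nonneg (by linarith : 0 ≤ 1 - v)] at this
    have e1 : Real.pi * (1 - v) = Real.pi - Real.pi * v := by ring
    rw [e1, Real.sin_pi_sub, abs_of_nonneg hs0] at this
    linarith

theorem sum_inv_sq_le (S N : ℕ) (hS : 0 < S) :
    ∑ s ∈ Ico (S + 1) N, (1 : ℝ) / (s : ℝ) ^ 2 ≤ 1 / (S : ℝ) := by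
  by_cases hN : N ≤ S + 1
  · rw [Ico_eq_empty (by omega)]; simp
  push Not at hN
  have h1 := sum_Ioc_inv_sq_le_sub (α := ℝ) (k := S) (n := N - 1) (by omega) (by omega)
  have h2 : Ioc S (N - 1) = Ico (S + 1) N := by
    ext x; simp only [mem_Ioc, mem_Ico]; omega
  rw [h2] at h1
  have h3 : (0 : ℝ) ≤ ((N - 1 : ℕ) : ℝ)⁻¹ := by positivity
  simp only [one_div]
  linarith

namespace Dat

variable {M : ℝ} (X : Dat M)

noncomputable def eps : ℝ := X.d * X.t - X.c
noncomputable def al : ℝ := (X.cb : ℝ) / X.d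
def mm (s : ℕ) : ℕ := ((X.cb * s) % X.d).toNat
def kq (s : ℕ) : ℤ := (X.cb * s) / X.d
def lv (s : ℕ) : ℤ := X.l0 * s - X.c * X.kq s

theorem dpos : (0 : ℝ) < X.d := by
  have := X.hd
  exact_mod_cast (by omega : 0 < X.d)

theorem dzpos : (0 : ℤ) < X.d := by
  have := X.hd
  exact_mod_cast (by omega : 0 < X.d)

theorem mm_cast (s : ℕ) : ((X.mm s : ℕ) : ℤ) = (X.cb * s) % X.d :=
  Int.toNat_of_nonneg (Int.emod_nonneg _ X.dzpos.ne')

theorem mm_spec (s : ℕ) : X.cb * s = X.d * X.kq s + X.mm s := by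
  rw [mm_cast, kq]
  have := Int.emod_add_mul_ediv (X.cb * s) X.d
  linarith

theorem mm_lt (s : ℕ) : X.mm s < X.d := by
  have h := Int.emod_lt_of_pos (X.cb * s) X.dzpos
  rw [← mm_cast] at h
  exact_mod_cast h

theorem cop : IsCoprime X.cb (X.d : ℤ) :=
  ⟨X.c, -X.l0, by have := X.hc; linarith⟩

theorem cmm (s : ℕ) : X.c * X.mm s = s + X.d * X.lv s := by
  have h1 := X.mm_spec s
  have h2 := X.hc
  unfold lv
  have : (X.mm s : ℤ) = X.cb * s - X.d * X.kq s := by linarith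
  rw [this]
  linear_combination (s : ℤ) * h2

theorem mm_pos (s : ℕ) (h0 : 0 < s) (h1 : s < X.d) : 0 < X.mm s := by
  rcases Nat.eq_zero_or_pos (X.mm s) with h | h
  · exfalso
    have := X.cmm s
    rw [h] at this
    have hdvd : (X.d : ℤ) ∣ (s : ℤ) := ⟨-X.lv s, by push_cast at this; linarith⟩
    have := Int.le_of_dvd (by exact_mod_cast h0) hdvd
    omega
  · exact h

theorem mm_inj : Set.InjOn X.mm (Ico 1 X.d) := by
  intro a ha b hb hab
  simp only [coe_Ico, Set.mem_Ico] at ha hb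
  have h1 := X.cmm a
  have h2 := X.cmm b
  rw [hab] at h1
  have hdvd : (X.d : ℤ) ∣ ((a : ℤ) - b) := ⟨X.lv b - X.lv a, by linear_combination h2 - h1⟩
  have hlt : |(a : ℤ) - b| < X.d := by rw [abs_lt]; constructor <;> omega
  have := Int.eq_zero_of_abs_lt_dvd hdvd hlt
  omega

theorem mm_maps : Set.MapsTo X.mm (Ico 1 X.d) (Ico 1 X.d : Finset ℕ) := by
  intro s hs
  simp only [coe_Ico, Set.mem_Ico] at hs ⊢
  exact ⟨X.mm_pos s hs.1 hs.2, X.mm_lt s⟩

theorem mm_surj : Set.SurjOn X.mm (Ico 1 X.d) (Ico 1 X.d : Finset ℕ) :=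
  Finset.surjOn_of_injOn_of_card_le _ X.mm_maps X.mm_inj le_rfl

theorem mm_reflect (s : ℕ) (h0 : 0 < s) (h1 : s < X.d) : X.mm (X.d - s) = X.d - X.mm s := by
  have hp := X.mm_pos s h0 h1
  have hl := X.mm_lt s
  have h2 := X.mm_spec s
  have e1 : ((X.mm (X.d - s) : ℕ) : ℤ) = (X.d : ℤ) - X.mm s := by
    rw [mm_cast]
    have : X.cb * ((X.d - s : ℕ) : ℤ) = ((X.d : ℤ) - X.mm s) + X.d * (X.cb - X.kq s - 1) := by
      rw [Nat.cast_sub h1.le]
      linear_combination -h2
    rw [this, Int.add_mul_emod_self_left]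
    apply Int.emod_eq_of_lt <;> omega
  omega

theorem mt (s : ℕ) : (X.mm s : ℝ) * X.t = (s + X.mm s * X.eps) / X.d + X.lv s := by
  have h := X.cmm s
  have h' : (X.c : ℝ) * X.mm s = s + X.d * X.lv s := by exact_mod_cast h
  have hd := X.dpos
  unfold eps
  field_simp
  linear_combination h'

theorem fract_al (s : ℕ) : Int.fract (s * X.al) = X.mm s / X.d := by
  have h := X.mm_spec s
  have h' : (X.cb : ℝ) * s = X.d * X.kq s + X.mm s := by exact_mod_cast h
  have hd := X.dpos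
  have e1 : (s : ℝ) * X.al = X.mm s / X.d + X.kq s := by
    unfold al
    field_simp
    linear_combination h'
  rw [e1, Int.fract_add_intCast, Int.fract_eq_self]
  constructor
  · positivity
  · rw [div_lt_one hd]; exact_mod_cast X.mm_lt s

theorem fract_neg_al (s : ℕ) (h0 : 0 < s) (h1 : s < X.d) :
    Int.fract (-(s * X.al)) = ((X.d - X.mm s : ℕ) : ℝ) / X.d := by
  have hp := X.mm_pos s h0 h1
  have hl := X.mm_lt s
  have hd := X.dpos
  have hf := X.fract_al s
  have hne : Int.fract ((s : ℝ) * X.al) ≠ 0 := by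
    rw [hf]
    have : (0 : ℝ) < X.mm s := by exact_mod_cast hp
    positivity
  rw [Int.fract_neg hne, hf, Nat.cast_sub hl.le]
  field_simp

theorem al_low (q : ℕ) (h0 : 0 < q) (h1 : q < X.d) (p : ℤ) : 1 / (X.K * q) ≤ |q * X.al - p| :=
  X.h2 q h0 h1 p

/-- symmetric counting difference -/
noncomputable def xs (m0 s : ℕ) : ℂ :=
  (if X.mm s < m0 then 1 else 0) - (if X.d - X.mm s < m0 then 1 else 0)

theorem count (m0 : ℕ) (hm0 : m0 ≤ X.d) (n : ℕ) (hn0 : 0 < n) (hn : n < X.d) :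
    ‖∑ s ∈ Ico 1 (n + 1), X.xs m0 s‖ ≤ 16 * X.K * Real.sqrt n := by
  obtain ⟨q, Q, p, hq0, hcop, hqQ, hα, hqn, hnq⟩ :=
    exists_q X.al X.K X.hK X.d X.al_low n hn0 hn
  have hd := X.dpos
  have hqR : (0 : ℝ) < q := by exact_mod_cast hq0
  set u : ℝ := m0 / X.d with hu
  have hu0 : 0 ≤ u := by positivity
  have hu1 : u ≤ 1 := by
    rw [hu, div_le_one hd]; exact_mod_cast hm0
  have c1 := thr_count X.al q hq0 p hcop Q hqQ hα u hu0 hu1 n X.al
  have hα' : |(-X.al) - ((-p : ℤ) : ℝ) / q| ≤ 1 / ((Q + 1) * q) := by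
    have : (-X.al) - ((-p : ℤ) : ℝ) / q = -(X.al - p / q) := by push_cast; ring
    rw [this, abs_neg]; exact hα
  have c2 := thr_count (-X.al) q hq0 (-p) hcop.neg_left Q hqQ hα' u hu0 hu1 n (-X.al)
  have e1 : ∀ r ∈ range n, Ph 0 u (r * X.al + X.al) = if X.mm (r + 1) < m0 then 1 else 0 := by
    intro r _
    have : (r : ℝ) * X.al + X.al = ((r + 1 : ℕ) : ℝ) * X.al := by push_cast; ring
    unfold Ph
    rw [this, X.fract_al, hu]
    simp only [div_lt_div_iff_of_pos_right hd, Nat.cast_lt, Int.cast_zero, zero_mul, e_zero]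
  have e2 : ∀ r ∈ range n, Ph 0 u (r * (-X.al) + (-X.al)) = if X.d - X.mm (r + 1) < m0 then 1 else 0 := by
    intro r hr
    rw [mem_range] at hr
    have : (r : ℝ) * (-X.al) + (-X.al) = -(((r + 1 : ℕ) : ℝ) * X.al) := by push_cast; ring
    unfold Ph
    rw [this, X.fract_neg_al _ (by omega) (by omega), hu]
    simp only [div_lt_div_iff_of_pos_right hd, Nat.cast_lt, Int.cast_zero, zero_mul, e_zero]
  have e3 : ∑ s ∈ Ico 1 (n + 1), X.xs m0 s
      = ∑ r ∈ range n, (Ph 0 u (r * X.al + X.al) - (u : ℂ))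
        - ∑ r ∈ range n, (Ph 0 u (r * (-X.al) + (-X.al)) - (u : ℂ)) := by
    rw [sum_Ico_eq_sum_range, ← sum_sub_distrib]
    have : n + 1 - 1 = n := by omega
    rw [this]
    apply sum_congr rfl
    intro r hr
    rw [e1 r hr, e2 r hr]
    unfold xs
    rw [add_comm 1 r]
    ring
  rw [e3]
  refine (norm_sub_le _ _).trans ?_
  have hs0 := Real.sqrt_nonneg (n : ℝ)
  have hsq : Real.sqrt n * Real.sqrt n = n := Real.mul_self_sqrt (by positivity)
  have hnq2 : (n : ℝ) / q ≤ X.K * Real.sqrt n := by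
    rw [div_le_iff₀ hqR]
    calc (n : ℝ) = Real.sqrt n * Real.sqrt n := hsq.symm
      _ ≤ Real.sqrt n * (X.K * q) := mul_le_mul_of_nonneg_left hnq hs0
      _ = _ := by ring
  have hK := X.hK
  have : (q : ℝ) ≤ X.K * Real.sqrt n := by nlinarith
  linarith

theorem count' (m0 : ℕ) (hm0 : m0 ≤ X.d) (S n : ℕ) (hSn : S < n) (hn : n < X.d) :
    ‖∑ s ∈ Ico (S + 1) (n + 1), X.xs m0 s‖ ≤ 32 * X.K * Real.sqrt n := by
  have h1 := X.count m0 hm0 n (by omega) hn
  have hK := X.hK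
  have hs : Real.sqrt S ≤ Real.sqrt n := Real.sqrt_le_sqrt (by exact_mod_cast hSn.le)
  have h2 : ‖∑ s ∈ Ico 1 (S + 1), X.xs m0 s‖ ≤ 16 * X.K * Real.sqrt n := by
    rcases Nat.eq_zero_or_pos S with h | h
    · subst h; simp; positivity
    · refine (X.count m0 hm0 S h (by omega)).trans ?_
      apply mul_le_mul_of_nonneg_left hs; positivity
  have h3 : ∑ s ∈ Ico (S + 1) (n + 1), X.xs m0 s
      = ∑ s ∈ Ico 1 (n + 1), X.xs m0 s - ∑ s ∈ Ico 1 (S + 1), X.xs m0 s := by
    rw [← sum_Ico_consecutive (fun s => X.xs m0 s) (by omega : 1 ≤ S + 1) (by omega : S + 1 ≤ n + 1)]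
    ring
  rw [h3]
  refine (norm_sub_le _ _).trans ?_
  linarith

theorem ct_anti (a b : ℝ) (ha : 0 < a) (hab : a ≤ b) (hb : b < Real.pi) : ct b ≤ ct a := by
  unfold ct
  have s1 : 0 < Real.sin a := Real.sin_pos_of_pos_of_lt_pi ha (by linarith)
  have s2 : 0 < Real.sin b := Real.sin_pos_of_pos_of_lt_pi (by linarith) hb
  rw [div_le_div_iff₀ s2 s1]
  have h := Real.sin_nonneg_of_nonneg_of_le_pi (by linarith : 0 ≤ b - a) (by linarith)
  rw [Real.sin_sub] at h
  linarith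

theorem main_sum (m0 : ℕ) (hm0 : m0 ≤ X.d) (S : ℕ) (hS : 0 < S) :
    |∑ s ∈ Ico (S + 1) (X.d - S), (if X.mm s < m0 then ct (Real.pi * (s / X.d)) else 0)|
      * Real.sqrt (S + 1) ≤ 32 * X.K * X.d := by
  have hd := X.dpos
  have hK := X.hK
  set h := (X.d + 1) / 2 with hh
  set f : ℕ → ℝ := fun s => if X.mm s < m0 then ct (Real.pi * (s / X.d)) else 0 with hf
  by_cases hSh : X.d - S ≤ S + 1
  · rw [Ico_eq_empty (by omega)]
    simp; positivity
  push Not at hSh
  have hidx : S + 1 ≤ h := by omega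
  -- reflection
  have hsplit : ∑ s ∈ Ico (S + 1) (X.d - S), f s
      = ∑ s ∈ Ico (S + 1) h, f s + ∑ s ∈ Ico h (X.d - S), f s :=
    (sum_Ico_consecutive f hidx (by omega)).symm
  have hrefl := sum_Ico_reflect f (S + 1) (n := X.d) (m := X.d - h + 1) (by omega)
  have hi1 : X.d + 1 - (X.d - h + 1) = h := by omega
  have hi2 : X.d + 1 - (S + 1) = X.d - S := by omega
  rw [hi1, hi2] at hrefl
  have hctneg : ∀ s, 0 < s → s < X.d → ct (Real.pi * (((X.d - s : ℕ) : ℝ) / X.d)) = - ct (Real.pi * (s / X.d)) := by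
    intro s h0 h1
    have : Real.pi * (((X.d - s : ℕ) : ℝ) / X.d) = Real.pi - Real.pi * (s / X.d) := by
      rw [Nat.cast_sub h1.le]; field_simp
    rw [this]
    unfold ct
    rw [Real.cos_pi_sub, Real.sin_pi_sub, neg_div]
  have hmid : ∑ j ∈ Ico (S + 1) (X.d - h + 1), f (X.d - j) = ∑ j ∈ Ico (S + 1) h, f (X.d - j) := by
    rcases Nat.even_or_odd' X.d with ⟨w, hw | hw⟩
    · have e1 : h = w := by omega
      have e2 : X.d - h + 1 = h + 1 := by omega
      rw [e2, sum_Ico_succ_top hidx]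
      have e3 : X.d - h = h := by omega
      have e4 : f (X.d - h) = 0 := by
        rw [e3]
        simp only [hf]
        have : Real.pi * ((h : ℝ) / X.d) = Real.pi / 2 := by
          rw [e1, hw]
          have : (w : ℝ) ≠ 0 := by
            have : 0 < w := by have := X.hd; omega
            positivity
          push_cast
          field_simp
        rw [this]
        unfold ct
        rw [Real.cos_pi_div_two]
        simp
      rw [e4, add_zero]
    · have e2 : X.d - h + 1 = h := by omega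
      rw [e2]
  rw [hmid] at hrefl
  have hcomb : ((∑ s ∈ Ico (S + 1) (X.d - S), f s : ℝ) : ℂ)
      = ∑ s ∈ Ico (S + 1) h, ((ct (Real.pi * (s / X.d)) : ℝ) : ℂ) * X.xs m0 s := by
    rw [hsplit, ← hrefl, ← sum_add_distrib]
    push_cast
    apply sum_congr rfl
    intro s hs
    rw [mem_Ico] at hs
    have h0 : 0 < s := by omega
    have h1 : s < X.d := by omega
    simp only [hf]
    rw [X.mm_reflect s h0 h1, hctneg s h0 h1]
    unfold xs
    split_ifs <;> push_cast <;> ring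
  have habel := abel_pow 2 le_rfl S h (X.xs m0) (fun s => ct (Real.pi * (s / X.d)))
    (fun n => Real.sqrt n) (fun n => Real.sqrt_nonneg _) (fun n => Real.sq_sqrt (by positivity))
    (32 * X.K) (X.d / 2) (by positivity) (by positivity)
    (by
      intro n h1 h2
      have := X.count' m0 hm0 S n h1 (by omega)
      simpa using this)
    (by
      intro s h1 h2
      unfold ct
      have hs : Real.pi * ((s : ℝ) / X.d) ≤ Real.pi / 2 := by
        have : (2 * (s : ℝ)) ≤ X.d := by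
          have : 2 * s ≤ X.d := by omega
          exact_mod_cast this
        have : (s : ℝ) / X.d ≤ 1 / 2 := by
          rw [div_le_div_iff₀ hd two_pos]; linarith
        nlinarith [Real.pi_pos]
      apply div_nonneg
      · apply Real.cos_nonneg_of_neg_pi_div_two_le_of_le _ hs
        have : 0 ≤ Real.pi * ((s : ℝ) / X.d) := by positivity
        linarith [Real.pi_pos]
      · apply Real.sin_nonneg_of_nonneg_of_le_pi (by positivity)
        linarith [Real.pi_pos])
    (by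
      intro s h1 h2
      have hs0 : (0 : ℝ) < s := by exact_mod_cast (by omega : 0 < s)
      apply ct_anti
      · positivity
      · apply mul_le_mul_of_nonneg_left _ Real.pi_pos.le
        apply div_le_div_of_nonneg_right _ hd.le
        push_cast; linarith
      · have : ((s + 1 : ℕ) : ℝ) < X.d := by exact_mod_cast (by omega : s + 1 < X.d)
        have : ((s + 1 : ℕ) : ℝ) / X.d < 1 := by rw [div_lt_one hd]; exact this
        nlinarith [Real.pi_pos])
    (by
      intro s h1 h2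
      have hs0 : (0 : ℝ) < s := by exact_mod_cast (by omega : 0 < s)
      have h2s : (2 * (s : ℝ)) ≤ X.d := by
        have : 2 * s ≤ X.d := by omega
        exact_mod_cast this
      have hv : (s : ℝ) / X.d ≤ 1 / 2 := by
        rw [div_le_div_iff₀ hd two_pos]; linarith
      have hv0 : 0 < (s : ℝ) / X.d := by positivity
      have hsin := sin_lower ((s : ℝ) / X.d) hv0.le (by linarith) (s / X.d) le_rfl (by linarith)
      have hpos : 0 < 2 * ((s : ℝ) / X.d) := by positivity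
      unfold ct
      have : Real.cos (Real.pi * (s / X.d)) / Real.sin (Real.pi * (s / X.d))
          ≤ 1 / (2 * ((s : ℝ) / X.d)) :=
        div_le_div₀ zero_le_one (Real.cos_le_one _) hpos hsin
      calc Real.cos (Real.pi * (s / X.d)) / Real.sin (Real.pi * (s / X.d)) * s
          ≤ 1 / (2 * ((s : ℝ) / X.d)) * s := mul_le_mul_of_nonneg_right this hs0.le
        _ = X.d / 2 := by field_simp)
  rw [← hcomb, Complex.norm_real, Real.norm_eq_abs] at habel
  have hcast : Real.sqrt (((S + 1 : ℕ)) : ℝ) = Real.sqrt ((S : ℝ) + 1) := by push_cast; rfl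
  rw [hcast] at habel
  calc _ ≤ 32 * X.K * (X.d / 2) * ((2 : ℕ) : ℝ) := habel
    _ = 32 * X.K * X.d := by push_cast; ring

end Dat

end Pool.Agent.Helper74.RR
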