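import Mathlib
import Pool.Agent.Helper74.RR.R6

set_option autoImplicit false

namespace Pool.Agent.Helper74.RR

open Finset

theorem ct_diff (x y : ℝ) (hx : Real.sin x ≠ 0) (hy : Real.sin y ≠ 0) :
    ct x - ct y = Real.sin (y - x) / (Real.sin x * Real.sin y) := by
  unfold ct
  rw [Real.sin_sub]
  field_simp

namespace Dat

variable {M : ℝ} (X : Dat M)

noncomputable def th (s : ℕ) : ℝ := (s + X.mm s * X.eps) / X.d

theorem eps_le : |X.eps| ≤ M / (X.K * X.d) := X.h1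

theorem eps_le' : |X.eps| ≤ M / X.d := by
  have hd := X.dpos
  have hK := X.hK
  have hM := X.hM
  refine X.eps_le.trans ?_
  apply div_le_div_of_nonneg_left (by linarith) hd
  nlinarith

theorem mmeps_le (s : ℕ) : |X.mm s * X.eps| ≤ M / X.K := by
  have hd := X.dpos
  have hK := X.hK
  have hM := X.hM
  rw [abs_mul, abs_of_nonneg (by positivity : (0 : ℝ) ≤ X.mm s)]
  have h1 : (X.mm s : ℝ) ≤ X.d := by exact_mod_cast (X.mm_lt s).le
  calc (X.mm s : ℝ) * |X.eps| ≤ X.d * (M / (X.K * X.d)) :=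
        mul_le_mul h1 X.eps_le (abs_nonneg _) hd.le
    _ = M / X.K := by field_simp

theorem mmeps_le' (s : ℕ) : |X.mm s * X.eps| ≤ M := by
  have hK := X.hK
  have hM := X.hM
  refine (X.mmeps_le s).trans ?_
  exact div_le_self (by linarith) hK

theorem sin_eps_le : |Real.sin (Real.pi * X.eps)| ≤ Real.pi * (M / (X.K * X.d)) := by
  refine (Real.abs_sin_le_abs).trans ?_
  rw [abs_mul, abs_of_pos Real.pi_pos]
  exact mul_le_mul_of_nonneg_left X.eps_le Real.pi_pos.le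

theorem cos_eps : |Real.cos (Real.pi * X.eps) - 1| ≤ 5 * M ^ 2 / X.d ^ 2 := by
  have h1 := Real.one_sub_sq_div_two_le_cos (x := Real.pi * X.eps)
  have h2 := Real.cos_le_one (Real.pi * X.eps)
  have hd := X.dpos
  have hM := X.hM
  rw [abs_of_nonpos (by linarith)]
  have h3 : (Real.pi * X.eps) ^ 2 / 2 ≤ 5 * M ^ 2 / X.d ^ 2 := by
    have h4 : X.eps ^ 2 ≤ (M / X.d) ^ 2 := by
      rw [← sq_abs X.eps]
      exact pow_le_pow_left₀ (abs_nonneg _) X.eps_le' 2
    have h5 : Real.pi ^ 2 ≤ 10 := by nlinarith [Real.pi_lt_d2, Real.pi_pos]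
    have h6 : (M / X.d) ^ 2 = M ^ 2 / X.d ^ 2 := by rw [div_pow]
    rw [mul_pow]
    have h7 : 0 ≤ M ^ 2 / (X.d : ℝ) ^ 2 := by positivity
    rw [h6] at h4
    have h8 : Real.pi ^ 2 * X.eps ^ 2 ≤ 10 * (M ^ 2 / X.d ^ 2) :=
      mul_le_mul h5 h4 (sq_nonneg _) (by norm_num)
    have h9 : 5 * M ^ 2 / (X.d : ℝ) ^ 2 = 10 * (M ^ 2 / X.d ^ 2) / 2 := by ring
    rw [h9]
    linarith
  linarith

/-- trigonometric data at index `s` -/
theorem sin_mt (s : ℕ) : Real.sin (Real.pi * (X.mm s * X.t))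
    = Real.cos (Real.pi * X.lv s) * Real.sin (Real.pi * X.th s) := by
  have h : X.mm s * X.t = X.th s + X.lv s := X.mt s
  have hs : Real.sin (Real.pi * X.lv s) = 0 := by rw [mul_comm, Real.sin_int_mul_pi]
  rw [h, mul_add, Real.sin_add, hs]
  ring

theorem cos_mt (s : ℕ) : Real.cos (Real.pi * (X.mm s * X.t))
    = Real.cos (Real.pi * X.lv s) * Real.cos (Real.pi * X.th s) := by
  have h : X.mm s * X.t = X.th s + X.lv s := X.mt s
  have hs : Real.sin (Real.pi * X.lv s) = 0 := by rw [mul_comm, Real.sin_int_mul_pi]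
  rw [h, mul_add, Real.cos_add, hs]
  ring

/-- the ratio -/
noncomputable def rr (m : ℕ) : ℝ :=
  Real.sin (Real.pi * (m * X.t - X.eps)) / Real.sin (Real.pi * (m * X.t))

theorem rr_eq (s : ℕ) (h0 : 0 < s) (h1 : s < X.d) :
    X.rr (X.mm s) = 1 + (Real.cos (Real.pi * X.eps) - 1
      - Real.sin (Real.pi * X.eps) * ct (Real.pi * X.th s)) := by
  have hne := X.h4 (X.mm s) (X.mm_pos s h0 h1) (X.mm_lt s)
  have hs := X.sin_mt s
  have hc := X.cos_mt s
  have hl : Real.cos (Real.pi * X.lv s) ≠ 0 := by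
    intro h
    rw [h] at hs
    apply hne
    rw [hs]; ring
  have ht : Real.sin (Real.pi * X.th s) ≠ 0 := by
    intro h
    rw [h] at hs
    apply hne
    rw [hs]; ring
  unfold rr ct
  rw [mul_sub, Real.sin_sub, hs, hc]
  field_simp
  ring

theorem rr_le (m : ℕ) (h0 : 0 < m) (h1 : m < X.d) : |X.rr m| ≤ 1 + M := by
  have hne := X.h4 m h0 h1
  have hb := X.h3 m h0 h1
  have hpos : 0 < |Real.sin (Real.pi * (m * X.t))| := abs_pos.2 hne
  unfold rr
  rw [abs_div, div_le_iff₀ hpos, mul_sub, Real.sin_sub]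
  have hc1 := Real.abs_cos_le_one (Real.pi * X.eps)
  have hc2 := Real.abs_cos_le_one (Real.pi * (m * X.t))
  have e1 : |Real.sin (Real.pi * (m * X.t)) * Real.cos (Real.pi * X.eps)|
      ≤ |Real.sin (Real.pi * (m * X.t))| := by
    rw [abs_mul]
    exact mul_le_of_le_one_right (abs_nonneg _) hc1
  have e2 : |Real.cos (Real.pi * (m * X.t)) * Real.sin (Real.pi * X.eps)|
      ≤ M * |Real.sin (Real.pi * (m * X.t))| := by
    rw [abs_mul]
    exact (mul_le_of_le_one_left (abs_nonneg _) hc2).trans hb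
  refine (abs_sub _ _).trans ?_
  linarith

/-- distance data for a middle index -/
theorem mid (S : ℕ) (hS : 2 * M ≤ S) (s : ℕ) (h1 : S + 1 ≤ s) (h2 : s < X.d - S) :
    ∃ σ : ℝ, 0 < σ ∧ S ≤ σ ∧ 2 * (σ / X.d) ≤ Real.sin (Real.pi * (s / X.d))
      ∧ σ / X.d ≤ Real.sin (Real.pi * X.th s)
      ∧ 1 / σ ^ 2 ≤ 1 / (s : ℝ) ^ 2 + 1 / ((X.d - s : ℕ) : ℝ) ^ 2 := by
  have hd := X.dpos
  have hM := X.hM
  have hsR : (S : ℝ) + 1 ≤ s := by exact_mod_cast h1
  have hsd : s < X.d := by omega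
  have hds : (S : ℝ) + 1 ≤ ((X.d - s : ℕ) : ℝ) := by exact_mod_cast (by omega : S + 1 ≤ X.d - s)
  have hcast : ((X.d - s : ℕ) : ℝ) = X.d - s := by rw [Nat.cast_sub hsd.le]
  set σ : ℝ := min s ((X.d - s : ℕ) : ℝ) with hσ
  have hσS : (S : ℝ) + 1 ≤ σ := le_min hsR hds
  have hσ1 : σ ≤ s := min_le_left _ _
  have hσ2 : σ ≤ X.d - s := by rw [← hcast]; exact min_le_right _ _
  have hσpos : 0 < σ := by linarith [Nat.cast_nonneg (α := ℝ) S]
  have hme := abs_le.1 (X.mmeps_le' s)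
  refine ⟨σ, hσpos, by linarith, ?_, ?_, ?_⟩
  · apply sin_lower
    · positivity
    · rw [div_le_one hd]; linarith
    · exact div_le_div_of_nonneg_right hσ1 hd.le
    · rw [le_sub_iff_add_le, ← add_div, div_le_one hd]; linarith
  · have hth0 : σ / 2 / X.d ≤ X.th s := by
      unfold th
      apply div_le_div_of_nonneg_right _ hd.le
      linarith
    have hth1 : σ / 2 / X.d ≤ 1 - X.th s := by
      unfold th
      rw [le_sub_iff_add_le, ← add_div, div_le_one hd]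
      linarith
    have hp : 0 < σ / 2 / X.d := by positivity
    have := sin_lower (X.th s) (by linarith) (by linarith) (σ / 2 / X.d) hth0 hth1
    calc σ / X.d = 2 * (σ / 2 / X.d) := by ring
      _ ≤ _ := this
  · have p1 : 0 ≤ 1 / (s : ℝ) ^ 2 := by positivity
    have p2 : 0 ≤ 1 / ((X.d - s : ℕ) : ℝ) ^ 2 := by positivity
    rcases min_choice (s : ℝ) ((X.d - s : ℕ) : ℝ) with h | h
    · rw [hσ, h]; linarith
    · rw [hσ, h]; linarith

theorem sum_sq (S : ℕ) (hS : 0 < S) :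
    ∑ s ∈ Ico (S + 1) (X.d - S), ((1 : ℝ) / (s : ℝ) ^ 2 + 1 / ((X.d - s : ℕ) : ℝ) ^ 2) ≤ 2 / (S : ℝ) := by
  by_cases hSd : X.d - S ≤ S + 1
  · rw [Ico_eq_empty (by omega)]; simp; positivity
  push Not at hSd
  rw [sum_add_distrib]
  have h1 := sum_inv_sq_le S (X.d - S) hS
  have h2 := sum_Ico_reflect (fun s : ℕ => (1 : ℝ) / (s : ℝ) ^ 2) (S + 1) (n := X.d) (m := X.d - S) (by omega)
  have hi1 : X.d + 1 - (X.d - S) = S + 1 := by omega
  have hi2 : X.d + 1 - (S + 1) = X.d - S := by omega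
  rw [hi1, hi2] at h2
  rw [h2]
  have : (2 : ℝ) / S = 1 / S + 1 / S := by ring
  linarith

theorem cot_sum (m0 : ℕ) (hm0 : m0 ≤ X.d) (S : ℕ) (hS : 2 * M ≤ S) :
    |∑ s ∈ Ico (S + 1) (X.d - S), (if X.mm s < m0 then ct (Real.pi * X.th s) else 0)|
      * Real.sqrt (S + 1) ≤ 40 * X.K * M * X.d := by
  have hd := X.dpos
  have hM := X.hM
  have hK := X.hK
  have hS1 : (1 : ℝ) ≤ S := by linarith
  have hSpos : 0 < S := by exact_mod_cast (by linarith : (0 : ℝ) < S)
  have h1 := X.main_sum m0 hm0 S hSpos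
  set A1 := ∑ s ∈ Ico (S + 1) (X.d - S), (if X.mm s < m0 then ct (Real.pi * (s / X.d)) else 0)
  set A2 := ∑ s ∈ Ico (S + 1) (X.d - S), (if X.mm s < m0 then ct (Real.pi * X.th s) else 0) with hA2
  have hdiff : |A2 - A1| ≤ 4 * M * X.d / S := by
    rw [hA2, ← sum_sub_distrib]
    refine (abs_sum_le_sum_abs _ _).trans ?_
    have hterm : ∀ s ∈ Ico (S + 1) (X.d - S),
        |(if X.mm s < m0 then ct (Real.pi * X.th s) else 0)
          - (if X.mm s < m0 then ct (Real.pi * (s / X.d)) else 0)|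
        ≤ 2 * M * X.d * ((1 : ℝ) / (s : ℝ) ^ 2 + 1 / ((X.d - s : ℕ) : ℝ) ^ 2) := by
      intro s hs
      rw [mem_Ico] at hs
      obtain ⟨σ, hσ0, hσS, hs1, hs2, hs3⟩ := X.mid S hS s hs.1 hs.2
      have hp1 : 0 < σ / X.d := by positivity
      split_ifs
      · have n1 : Real.sin (Real.pi * X.th s) ≠ 0 := by
          intro h; rw [h] at hs2; linarith
        have n2 : Real.sin (Real.pi * (s / X.d)) ≠ 0 := by
          intro h; rw [h] at hs1; linarith
        rw [ct_diff _ _ n1 n2]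
        rw [abs_div, abs_mul, abs_of_pos (lt_of_lt_of_le hp1 hs2),
          abs_of_pos (lt_of_lt_of_le (by positivity) hs1)]
        have hnum : |Real.sin (Real.pi * (s / X.d) - Real.pi * X.th s)| ≤ Real.pi * (M / X.d) := by
          refine (Real.abs_sin_le_abs).trans ?_
          have : Real.pi * ((s : ℝ) / X.d) - Real.pi * X.th s = -(Real.pi * ((X.mm s * X.eps) / X.d)) := by
            unfold th; ring
          rw [this, abs_neg, abs_mul, abs_of_pos Real.pi_pos, abs_div, abs_of_pos hd]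
          apply mul_le_mul_of_nonneg_left _ Real.pi_pos.le
          exact div_le_div_of_nonneg_right (X.mmeps_le' s) hd.le
        have hden : (σ / X.d) * (2 * (σ / X.d)) ≤ Real.sin (Real.pi * X.th s) * Real.sin (Real.pi * (s / X.d)) :=
          mul_le_mul hs2 hs1 (by positivity) (by linarith)
        have hnum0 : 0 ≤ Real.pi * (M / X.d) := by positivity
        calc |Real.sin (Real.pi * (s / X.d) - Real.pi * X.th s)|
              / (Real.sin (Real.pi * X.th s) * Real.sin (Real.pi * (s / X.d)))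
            ≤ (Real.pi * (M / X.d)) / ((σ / X.d) * (2 * (σ / X.d))) :=
              div_le_div₀ hnum0 hnum (by positivity) hden
          _ = (Real.pi / 2) * M * X.d * (1 / σ ^ 2) := by field_simp
          _ ≤ 2 * M * X.d * (1 / σ ^ 2) := by
              have : Real.pi / 2 ≤ 2 := by linarith [Real.pi_lt_d2]
              have h9 : 0 ≤ M * X.d * (1 / σ ^ 2) := by positivity
              nlinarith
          _ ≤ _ := mul_le_mul_of_nonneg_left hs3 (by positivity)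
      · simp only [sub_zero, abs_zero]
        positivity
    refine (sum_le_sum hterm).trans ?_
    rw [← mul_sum]
    calc 2 * M * X.d * ∑ s ∈ Ico (S + 1) (X.d - S), ((1 : ℝ) / (s : ℝ) ^ 2 + 1 / ((X.d - s : ℕ) : ℝ) ^ 2)
        ≤ 2 * M * X.d * (2 / S) := mul_le_mul_of_nonneg_left (X.sum_sq S hSpos) (by positivity)
      _ = 4 * M * X.d / S := by ring
  have hsq : Real.sqrt ((S : ℝ) + 1) ≤ 2 * S := by
    rw [Real.sqrt_le_left (by positivity)]
    nlinarith
  have hsq0 := Real.sqrt_nonneg ((S : ℝ) + 1)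
  have h2 : |A2 - A1| * Real.sqrt ((S : ℝ) + 1) ≤ 8 * M * X.d := by
    calc |A2 - A1| * Real.sqrt ((S : ℝ) + 1) ≤ (4 * M * X.d / S) * (2 * S) :=
          mul_le_mul hdiff hsq hsq0 (by positivity)
      _ = 8 * M * X.d := by field_simp; ring
  have h3 : |A2| ≤ |A1| + |A2 - A1| := by
    have : A2 = A1 + (A2 - A1) := by ring
    conv_lhs => rw [this]
    exact abs_add_le _ _
  have h4 : |A2| * Real.sqrt ((S : ℝ) + 1) ≤ 32 * X.K * X.d + 8 * M * X.d := by nlinarith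
  refine h4.trans ?_
  have : 32 * X.K + 8 * M ≤ 40 * X.K * M := by nlinarith
  nlinarith

/-- correction factor -/
noncomputable def aa (m0 s : ℕ) : ℝ :=
  if X.mm s < m0 then (Real.cos (Real.pi * X.eps) - 1
      - Real.sin (Real.pi * X.eps) * ct (Real.pi * X.th s)) else 0

theorem QQ_close (m0 : ℕ) (hm0 : m0 ≤ X.d) (S : ℕ) (hS : 10 ^ 6 * M ^ 4 ≤ S) :
    |∏ s ∈ Ico (S + 1) (X.d - S), (1 + X.aa m0 s) - 1| ≤ 263 * M ^ 2 / Real.sqrt S := by
  have hd := X.dpos
  have hM := X.hM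
  have hK := X.hK
  have hM2 : 1 ≤ M ^ 2 := one_le_pow₀ hM
  have hM4 : M ≤ M ^ 4 := le_self_pow₀ hM (by norm_num)
  have hSR : (10 ^ 6 : ℝ) * M ≤ S := by nlinarith
  have hS2 : 2 * M ≤ S := by nlinarith
  have hS0 : (0 : ℝ) < S := by linarith
  have hSpos : 0 < S := by exact_mod_cast hS0
  set q := Real.sqrt S with hq
  have hq2 : q ^ 2 = S := Real.sq_sqrt hS0.le
  have hq0 : 0 < q := Real.sqrt_pos.2 hS0
  have hqM : 1000 * M ^ 2 ≤ q := by
    apply le_of_pow_le_pow_left₀ two_ne_zero hq0.le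
    rw [hq2]
    calc (1000 * M ^ 2) ^ 2 = 10 ^ 6 * M ^ 4 := by ring
      _ ≤ (S : ℝ) := hS
  by_cases hSd : X.d - S ≤ S + 1
  · rw [Ico_eq_empty (by omega)]
    simp; positivity
  push Not at hSd
  have hdS : (S : ℝ) + 1 ≤ X.d := by exact_mod_cast (by omega : S + 1 ≤ X.d)
  have hcos := X.cos_eps
  have hsin := X.sin_eps_le
  have hsin' : |Real.sin (Real.pi * X.eps)| ≤ 3.15 * (M / (X.K * X.d)) := by
    refine hsin.trans ?_
    apply mul_le_mul_of_nonneg_right Real.pi_lt_d2.le; positivity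
  -- pointwise bound of ct
  have hct : ∀ s ∈ Ico (S + 1) (X.d - S), |ct (Real.pi * X.th s)| ≤ X.d / S ∧
      ct (Real.pi * X.th s) ^ 2 ≤ X.d ^ 2 * ((1 : ℝ) / (s : ℝ) ^ 2 + 1 / ((X.d - s : ℕ) : ℝ) ^ 2) := by
    intro s hs
    rw [mem_Ico] at hs
    obtain ⟨σ, hσ0, hσS, hs1, hs2, hs3⟩ := X.mid S hS2 s hs.1 hs.2
    have hp1 : 0 < σ / X.d := by positivity
    have hb : |ct (Real.pi * X.th s)| ≤ X.d / σ := by
      unfold ct
      rw [abs_div, abs_of_pos (lt_of_lt_of_le hp1 hs2)]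
      calc |Real.cos (Real.pi * X.th s)| / Real.sin (Real.pi * X.th s) ≤ 1 / (σ / X.d) :=
            div_le_div₀ zero_le_one (Real.abs_cos_le_one _) hp1 hs2
        _ = X.d / σ := by field_simp
    constructor
    · refine hb.trans ?_
      exact div_le_div_of_nonneg_left hd.le hS0 hσS
    · rw [← sq_abs]
      calc |ct (Real.pi * X.th s)| ^ 2 ≤ (X.d / σ) ^ 2 := pow_le_pow_left₀ (abs_nonneg _) hb 2
        _ = X.d ^ 2 * (1 / σ ^ 2) := by rw [div_pow]; ring
        _ ≤ _ := mul_le_mul_of_nonneg_left hs3 (by positivity)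
  have hd2 : 5 * M ^ 2 / (X.d : ℝ) ^ 2 ≤ 5 * M ^ 2 / S := by
    apply div_le_div_of_nonneg_left (by positivity) hS0
    nlinarith
  have hMq : 5 * M ^ 2 / S ≤ 1 / 100 := by
    rw [div_le_iff₀ hS0, ← hq2]
    nlinarith
  -- sup bound
  have hsup : ∀ s ∈ Ico (S + 1) (X.d - S), |X.aa m0 s| ≤ 1 / 2 := by
    intro s hs
    obtain ⟨hc1, _⟩ := hct s hs
    unfold aa
    split_ifs
    · have e1 : |Real.sin (Real.pi * X.eps) * ct (Real.pi * X.th s)| ≤ 3.15 * (M / S) := by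
        rw [abs_mul]
        calc |Real.sin (Real.pi * X.eps)| * |ct (Real.pi * X.th s)|
            ≤ (3.15 * (M / (X.K * X.d))) * (X.d / S) :=
              mul_le_mul hsin' hc1 (abs_nonneg _) (by positivity)
          _ = 3.15 * (M / S) / X.K := by field_simp
          _ ≤ 3.15 * (M / S) := div_le_self (by positivity) hK
      have e2 : M / S ≤ 1 / 10 ^ 6 := by
        rw [div_le_div_iff₀ hS0 (by norm_num)]; linarith
      refine (abs_sub _ _).trans ?_
      have e3 : 3.15 * (M / S) ≤ 3.15 * (1 / 10 ^ 6) := by linarith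
      have e4 : (3.15 : ℝ) * (1 / 10 ^ 6) ≤ 1 / 100 := by norm_num
      linarith
    · simp
  -- sum bound
  have hsum : |∑ s ∈ Ico (S + 1) (X.d - S), X.aa m0 s| ≤ 131 * M ^ 2 / q := by
    have e0 : ∑ s ∈ Ico (S + 1) (X.d - S), X.aa m0 s
        = ∑ s ∈ Ico (S + 1) (X.d - S), (if X.mm s < m0 then (Real.cos (Real.pi * X.eps) - 1) else 0)
          - Real.sin (Real.pi * X.eps)
            * ∑ s ∈ Ico (S + 1) (X.d - S), (if X.mm s < m0 then ct (Real.pi * X.th s) else 0) := by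
      rw [mul_sum, ← sum_sub_distrib]
      apply sum_congr rfl
      intro s _
      unfold aa
      split_ifs <;> ring
    rw [e0]
    refine (abs_sub _ _).trans ?_
    have e1 : |∑ s ∈ Ico (S + 1) (X.d - S), (if X.mm s < m0 then (Real.cos (Real.pi * X.eps) - 1) else 0)|
        ≤ 5 * M ^ 2 / X.d := by
      refine (abs_sum_le_sum_abs _ _).trans ?_
      have : ∀ s ∈ Ico (S + 1) (X.d - S),
          |(if X.mm s < m0 then (Real.cos (Real.pi * X.eps) - 1) else 0)| ≤ 5 * M ^ 2 / X.d ^ 2 := by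
        intro s _
        split_ifs
        · exact hcos
        · simp; positivity
      refine (sum_le_sum this).trans ?_
      rw [sum_const, Nat.card_Ico, nsmul_eq_mul]
      have hcard : ((X.d - S - (S + 1) : ℕ) : ℝ) ≤ X.d := by
        exact_mod_cast (by omega : X.d - S - (S + 1) ≤ X.d)
      calc ((X.d - S - (S + 1) : ℕ) : ℝ) * (5 * M ^ 2 / X.d ^ 2) ≤ X.d * (5 * M ^ 2 / X.d ^ 2) :=
            mul_le_mul_of_nonneg_right hcard (by positivity)
        _ = 5 * M ^ 2 / X.d := by field_simp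
    have e2 : 5 * M ^ 2 / X.d ≤ 5 * M ^ 2 / q := by
      apply div_le_div_of_nonneg_left (by positivity) hq0
      nlinarith
    have hcs := X.cot_sum m0 hm0 S hS2
    set CS := ∑ s ∈ Ico (S + 1) (X.d - S), (if X.mm s < m0 then ct (Real.pi * X.th s) else 0)
    have hqS : q ≤ Real.sqrt ((S : ℝ) + 1) := Real.sqrt_le_sqrt (by linarith)
    have hCS : |CS| ≤ 40 * X.K * M * X.d / q := by
      rw [le_div_iff₀ hq0]
      exact (mul_le_mul_of_nonneg_left hqS (abs_nonneg _)).trans hcs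
    have e3 : |Real.sin (Real.pi * X.eps) * CS| ≤ 126 * M ^ 2 / q := by
      rw [abs_mul]
      calc |Real.sin (Real.pi * X.eps)| * |CS|
          ≤ (3.15 * (M / (X.K * X.d))) * (40 * X.K * M * X.d / q) :=
            mul_le_mul hsin' hCS (abs_nonneg _) (by positivity)
        _ = 126 * M ^ 2 / q := by field_simp; ring
    have e4 : 131 * M ^ 2 / q = 5 * M ^ 2 / q + 126 * M ^ 2 / q := by ring
    linarith
  have hsq : ∑ s ∈ Ico (S + 1) (X.d - S), X.aa m0 s ^ 2 ≤ 90 * M ^ 4 / S := by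
    have hterm : ∀ s ∈ Ico (S + 1) (X.d - S), X.aa m0 s ^ 2
        ≤ 2 * (5 * M ^ 2 / X.d ^ 2) ^ 2
          + 2 * (3.15 * (M / (X.K * X.d))) ^ 2 * (X.d ^ 2 * ((1 : ℝ) / (s : ℝ) ^ 2 + 1 / ((X.d - s : ℕ) : ℝ) ^ 2)) := by
      intro s hs
      obtain ⟨_, hc2⟩ := hct s hs
      unfold aa
      split_ifs
      · have e1 : (Real.cos (Real.pi * X.eps) - 1) ^ 2 ≤ (5 * M ^ 2 / X.d ^ 2) ^ 2 := by
          rw [← sq_abs]
          exact pow_le_pow_left₀ (abs_nonneg _) hcos 2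
        have e2 : (Real.sin (Real.pi * X.eps)) ^ 2 ≤ (3.15 * (M / (X.K * X.d))) ^ 2 := by
          rw [← sq_abs]
          exact pow_le_pow_left₀ (abs_nonneg _) hsin' 2
        have e3 : (Real.sin (Real.pi * X.eps)) ^ 2 * ct (Real.pi * X.th s) ^ 2
            ≤ (3.15 * (M / (X.K * X.d))) ^ 2 * (X.d ^ 2 * ((1 : ℝ) / (s : ℝ) ^ 2 + 1 / ((X.d - s : ℕ) : ℝ) ^ 2)) :=
          mul_le_mul e2 hc2 (sq_nonneg _) (sq_nonneg _)
        have e4 : (Real.cos (Real.pi * X.eps) - 1 - Real.sin (Real.pi * X.eps) * ct (Real.pi * X.th s)) ^ 2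
            ≤ 2 * (Real.cos (Real.pi * X.eps) - 1) ^ 2
              + 2 * ((Real.sin (Real.pi * X.eps)) ^ 2 * ct (Real.pi * X.th s) ^ 2) := by
          nlinarith [sq_nonneg (Real.cos (Real.pi * X.eps) - 1 + Real.sin (Real.pi * X.eps) * ct (Real.pi * X.th s))]
        linarith
      · rw [zero_pow two_ne_zero]
        positivity
    refine (sum_le_sum hterm).trans ?_
    rw [sum_add_distrib, sum_const, Nat.card_Ico, nsmul_eq_mul, ← mul_sum, ← mul_sum]
    have hcard : ((X.d - S - (S + 1) : ℕ) : ℝ) ≤ X.d := by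
      exact_mod_cast (by omega : X.d - S - (S + 1) ≤ X.d)
    have f1 : ((X.d - S - (S + 1) : ℕ) : ℝ) * (2 * (5 * M ^ 2 / X.d ^ 2) ^ 2) ≤ 50 * M ^ 4 / S := by
      calc ((X.d - S - (S + 1) : ℕ) : ℝ) * (2 * (5 * M ^ 2 / X.d ^ 2) ^ 2)
          ≤ X.d * (2 * (5 * M ^ 2 / X.d ^ 2) ^ 2) := mul_le_mul_of_nonneg_right hcard (by positivity)
        _ = 50 * M ^ 4 / X.d ^ 3 := by field_simp; ring
        _ ≤ 50 * M ^ 4 / S := by
            apply div_le_div_of_nonneg_left (by positivity) hS0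
            have : (X.d : ℝ) ≤ X.d ^ 3 := le_self_pow₀ (by linarith) (by norm_num)
            linarith
    have f2 : 2 * (3.15 * (M / (X.K * X.d))) ^ 2 * (X.d ^ 2 * ∑ s ∈ Ico (S + 1) (X.d - S),
          ((1 : ℝ) / (s : ℝ) ^ 2 + 1 / ((X.d - s : ℕ) : ℝ) ^ 2)) ≤ 40 * M ^ 4 / S := by
      have g1 := X.sum_sq S hSpos
      calc 2 * (3.15 * (M / (X.K * X.d))) ^ 2 * (X.d ^ 2 * ∑ s ∈ Ico (S + 1) (X.d - S),
            ((1 : ℝ) / (s : ℝ) ^ 2 + 1 / ((X.d - s : ℕ) : ℝ) ^ 2))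
          ≤ 2 * (3.15 * (M / (X.K * X.d))) ^ 2 * (X.d ^ 2 * (2 / S)) := by
            apply mul_le_mul_of_nonneg_left _ (by positivity)
            exact mul_le_mul_of_nonneg_left g1 (by positivity)
        _ = 39.69 * M ^ 2 / S / X.K ^ 2 := by field_simp; norm_num
        _ ≤ 39.69 * M ^ 2 / S := div_le_self (by positivity) (one_le_pow₀ hK)
        _ ≤ 40 * M ^ 4 / S := by
            apply div_le_div_of_nonneg_right _ hS0.le
            nlinarith
    have f3 : 90 * M ^ 4 / (S : ℝ) = 50 * M ^ 4 / S + 40 * M ^ 4 / S := by ring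
    linarith
  have hB : 180 * M ^ 4 / (S : ℝ) ≤ M ^ 2 / (5 * q) := by
    rw [← hq2, div_le_div_iff₀ (by positivity) (by positivity)]
    have : 900 * M ^ 2 ≤ q := by nlinarith
    nlinarith [mul_le_mul_of_nonneg_left this (by positivity : 0 ≤ M ^ 2 * q)]
  have hAB : 131 * M ^ 2 / q + 2 * (90 * M ^ 4 / S) ≤ 131.5 * M ^ 2 / q := by
    have e1 : 2 * (90 * M ^ 4 / (S : ℝ)) = 180 * M ^ 4 / S := by ring
    have e2 : M ^ 2 / (5 * q) = 0.2 * M ^ 2 / q := by field_simp; norm_num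
    have e3 : 131.5 * M ^ 2 / q = 131 * M ^ 2 / q + 0.5 * M ^ 2 / q := by ring
    have e4 : 0.2 * M ^ 2 / q ≤ 0.5 * M ^ 2 / q := by
      apply div_le_div_of_nonneg_right _ hq0.le
      nlinarith
    linarith
  have hone : 131.5 * M ^ 2 / q ≤ 1 := by
    rw [div_le_one hq0]; nlinarith
  have := prod_close (Ico (S + 1) (X.d - S)) (X.aa m0) (131 * M ^ 2 / q) (90 * M ^ 4 / S) hsup hsum hsq
    (by linarith)
  refine this.trans ?_
  calc 2 * (131 * M ^ 2 / q + 2 * (90 * M ^ 4 / S)) ≤ 2 * (131.5 * M ^ 2 / q) := by linarith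
    _ = 263 * M ^ 2 / q := by ring

end Dat

end Pool.Agent.Helper74.RR
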