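import Mathlib
import Pool.Agent.Helper74.RR.R7

set_option autoImplicit false

namespace Pool.Agent.Helper74.RR

open Finset

namespace Dat

variable {M : ℝ} (X : Dat M)

noncomputable def ff (m0 s : ℕ) : ℝ := if X.mm s < m0 then X.rr (X.mm s) else 1

noncomputable def PP (S m0 : ℕ) : ℝ :=
  ∏ s ∈ (Ico 1 X.d).filter (fun s => ¬ (S + 1 ≤ s ∧ s < X.d - S)), X.ff m0 s

theorem GG_eq (m0 : ℕ) (hm0 : m0 ≤ X.d) :
    GG X.t X.eps m0 = ∏ s ∈ Ico 1 X.d, X.ff m0 s := by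
  have h1 : GG X.t X.eps m0 = ∏ i ∈ Ico 1 X.d, (if i < m0 then X.rr i else 1) := by
    rw [← prod_filter]
    have : (Ico 1 X.d).filter (fun i => i < m0) = Ico 1 m0 := by
      ext i; simp only [mem_filter, mem_Ico]; omega
    rw [this]
    rfl
  rw [h1]
  symm
  exact Finset.prod_nbij X.mm X.mm_maps X.mm_inj X.mm_surj (fun s _ => rfl)

theorem GG_split (S m0 : ℕ) (hm0 : m0 ≤ X.d) :
    GG X.t X.eps m0 = (∏ s ∈ Ico (S + 1) (X.d - S), (1 + X.aa m0 s)) * X.PP S m0 := by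
  rw [X.GG_eq m0 hm0, ← prod_filter_mul_prod_filter_not (Ico 1 X.d) (fun s => S + 1 ≤ s ∧ s < X.d - S)]
  have h1 : (Ico 1 X.d).filter (fun s => S + 1 ≤ s ∧ s < X.d - S) = Ico (S + 1) (X.d - S) := by
    ext s; simp only [mem_filter, mem_Ico]; omega
  rw [h1]
  congr 1
  apply prod_congr rfl
  intro s hs
  rw [mem_Ico] at hs
  unfold ff aa
  split_ifs
  · rw [X.rr_eq s (by omega) (by omega)]
  · simp

theorem ff_le (m0 s : ℕ) (h0 : 0 < s) (h1 : s < X.d) : |X.ff m0 s| ≤ 1 + M := by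
  have hM := X.hM
  unfold ff
  split_ifs
  · exact X.rr_le _ (X.mm_pos s h0 h1) (X.mm_lt s)
  · simp; linarith

theorem small_card (S : ℕ) :
    ((Ico 1 X.d).filter (fun s => ¬ (S + 1 ≤ s ∧ s < X.d - S))).card ≤ 2 * S := by
  have hsub : (Ico 1 X.d).filter (fun s => ¬ (S + 1 ≤ s ∧ s < X.d - S))
      ⊆ Ico 1 (S + 1) ∪ Ico (X.d - S) X.d := by
    intro s hs
    rw [mem_filter, mem_Ico] at hs
    rw [mem_union, mem_Ico, mem_Ico]
    omega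
  refine (card_le_card hsub).trans ((card_union_le _ _).trans ?_)
  rw [Nat.card_Ico, Nat.card_Ico]
  omega

theorem PP_le (S m0 : ℕ) : |X.PP S m0| ≤ (1 + M) ^ (2 * S) := by
  have hM := X.hM
  unfold PP
  rw [abs_prod]
  have h1 : ∏ s ∈ (Ico 1 X.d).filter (fun s => ¬ (S + 1 ≤ s ∧ s < X.d - S)), |X.ff m0 s|
      ≤ ∏ _s ∈ (Ico 1 X.d).filter (fun s => ¬ (S + 1 ≤ s ∧ s < X.d - S)), (1 + M) := by
    apply prod_le_prod
    · intro s _; exact abs_nonneg _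
    · intro s hs
      rw [mem_filter, mem_Ico] at hs
      exact X.ff_le m0 s (by omega) hs.1.2
  refine h1.trans ?_
  rw [prod_const]
  exact pow_le_pow_right₀ (by linarith) (X.small_card S)

end Dat

theorem GG_approx (M : ℝ) (hM : 1 ≤ M) : ∃ (C : ℝ) (S0 : ℕ), 1 ≤ C ∧ 1 ≤ S0 ∧
    ∀ X : Dat M, ∀ m0 ≤ X.d, |GG X.t X.eps m0| ≤ C ∧
      ∀ S : ℕ, S0 ≤ S → |X.PP S m0| ≤ C ∧ |GG X.t X.eps m0 - X.PP S m0| ≤ C / Real.sqrt S := by
  set S0 : ℕ := ⌈10 ^ 6 * M ^ 4⌉₊ with hS0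
  have hM4 : 1 ≤ M ^ 4 := one_le_pow₀ hM
  have hM2 : 1 ≤ M ^ 2 := one_le_pow₀ hM
  have hS0R : 10 ^ 6 * M ^ 4 ≤ (S0 : ℝ) := Nat.le_ceil _
  have hS0pos : 1 ≤ S0 := by
    have : (1 : ℝ) ≤ S0 := by linarith
    exact_mod_cast this
  set C1 : ℝ := (1 + M) ^ (2 * S0) with hC1
  have hC1pos : 1 ≤ C1 := one_le_pow₀ (by linarith)
  have hq : ∀ S : ℕ, S0 ≤ S → 1000 * M ^ 2 ≤ Real.sqrt S := by
    intro S hS
    have hSR : 10 ^ 6 * M ^ 4 ≤ (S : ℝ) := hS0R.trans (by exact_mod_cast hS)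
    apply Real.le_sqrt_of_sq_le
    calc (1000 * M ^ 2) ^ 2 = 10 ^ 6 * M ^ 4 := by ring
      _ ≤ (S : ℝ) := hSR
  have hQ : ∀ X : Dat M, ∀ m0 ≤ X.d, ∀ S : ℕ, S0 ≤ S →
      |∏ s ∈ Ico (S + 1) (X.d - S), (1 + X.aa m0 s) - 1| ≤ 263 * M ^ 2 / Real.sqrt S ∧
      |∏ s ∈ Ico (S + 1) (X.d - S), (1 + X.aa m0 s) - 1| ≤ 1 / 2 := by
    intro X m0 hm0 S hS
    have hSR : 10 ^ 6 * M ^ 4 ≤ (S : ℝ) := hS0R.trans (by exact_mod_cast hS)
    have h1 := X.QQ_close m0 hm0 S hSR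
    refine ⟨h1, h1.trans ?_⟩
    have := hq S hS
    rw [div_le_div_iff₀ (by linarith) two_pos]
    linarith
  have hGG : ∀ X : Dat M, ∀ m0 ≤ X.d, |GG X.t X.eps m0| ≤ 2 * C1 := by
    intro X m0 hm0
    obtain ⟨_, h2⟩ := hQ X m0 hm0 S0 le_rfl
    rw [X.GG_split S0 m0 hm0, abs_mul]
    have h3 : |∏ s ∈ Ico (S0 + 1) (X.d - S0), (1 + X.aa m0 s)| ≤ 2 := by
      have := abs_le.1 h2
      rw [abs_le]; constructor <;> linarith
    exact mul_le_mul h3 (X.PP_le S0 m0) (abs_nonneg _) (by norm_num)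
  refine ⟨4 * C1 * (263 * M ^ 2), S0, by nlinarith, hS0pos, ?_⟩
  intro X m0 hm0
  have hg := hGG X m0 hm0
  refine ⟨by nlinarith, ?_⟩
  intro S hS
  obtain ⟨h1, h2⟩ := hQ X m0 hm0 S hS
  have hsplit := X.GG_split S m0 hm0
  set QQ := ∏ s ∈ Ico (S + 1) (X.d - S), (1 + X.aa m0 s)
  have hQQ : 1 / 2 ≤ |QQ| := by
    have := abs_le.1 h2
    rw [abs_of_pos (by linarith)]; linarith
  have hPP : |X.PP S m0| ≤ 4 * C1 := by
    rw [hsplit, abs_mul] at hg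
    have h0 := abs_nonneg (X.PP S m0)
    nlinarith
  have hqpos : 0 < Real.sqrt S := by have := hq S hS; linarith
  refine ⟨by nlinarith, ?_⟩
  have : GG X.t X.eps m0 - X.PP S m0 = (QQ - 1) * X.PP S m0 := by rw [hsplit]; ring
  rw [this, abs_mul]
  calc |QQ - 1| * |X.PP S m0| ≤ (263 * M ^ 2 / Real.sqrt S) * (4 * C1) :=
        mul_le_mul h1 hPP (abs_nonneg _) (by positivity)
    _ = 4 * C1 * (263 * M ^ 2) / Real.sqrt S := by ring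

end Pool.Agent.Helper74.RR
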