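import Mathlib
import Pool.Agent.Helper74.RR.R8

set_option autoImplicit false

namespace Pool.Agent.Helper74.RR

open Finset

/-- summation against a step function -/
theorem step_fn (SS : Finset ℕ) (m : ℕ → ℕ) (d : ℕ) (Z χ : ℕ → ℂ) (C B : ℝ) (hC : 0 ≤ C)
    (hB : 0 ≤ B) (hd : 2 ≤ d) (hZ : ∀ v, 1 ≤ v → v < d → ‖Z v‖ ≤ C)
    (hm : ∀ s ∈ SS, 1 ≤ m s ∧ m s < d) (J : Finset ℕ)
    (hJ : ∀ v, 2 ≤ v → v < d → Z (v - 1) ≠ Z v → v ∈ J)
    (hχ : ∀ v ≤ d, ‖∑ s ∈ SS.filter (fun s => m s < v), χ s‖ ≤ B) :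
    ‖∑ s ∈ SS, χ s * Z (m s)‖ ≤ C * B * (1 + 2 * J.card) := by
  have htel : ∀ a, 1 ≤ a → a < d → Z a = Z (d - 1) + ∑ v ∈ Ico (a + 1) d, (Z (v - 1) - Z v) := by
    intro a ha had
    have h1 : ∀ N, a + 1 ≤ N → ∑ v ∈ Ico (a + 1) N, (Z (v - 1) - Z v) = Z a - Z (N - 1) := by
      intro N hN
      induction N, hN using Nat.le_induction with
      | base => simp
      | succ N hN ih =>
        rw [sum_Ico_succ_top hN, ih]
        have : N + 1 - 1 = N := by omega
        rw [this]; ring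
    rw [h1 d (by omega)]; ring
  set J' := J.filter (fun v => 2 ≤ v ∧ v < d) with hJ'
  have hsum : ∀ s ∈ SS, Z (m s) = Z (d - 1) + ∑ v ∈ J', (if m s < v then (Z (v - 1) - Z v) else 0) := by
    intro s hs
    obtain ⟨h1, h2⟩ := hm s hs
    rw [htel (m s) h1 h2]
    congr 1
    rw [← sum_filter]
    symm
    apply sum_subset
    · intro v hv
      rw [mem_filter, hJ', mem_filter] at hv
      rw [mem_Ico]; omega
    · intro v hv hv2
      rw [mem_Ico] at hv
      by_contra hne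
      apply hv2
      rw [mem_filter, hJ', mem_filter]
      refine ⟨⟨hJ v (by omega) hv.2 ?_, by omega, hv.2⟩, by omega⟩
      intro h
      apply hne
      rw [h]; ring
  have e1 : ∑ s ∈ SS, χ s * Z (m s) = Z (d - 1) * ∑ s ∈ SS.filter (fun s => m s < d), χ s
      + ∑ v ∈ J', (Z (v - 1) - Z v) * ∑ s ∈ SS.filter (fun s => m s < v), χ s := by
    have hfil : SS.filter (fun s => m s < d) = SS := by
      apply filter_true_of_mem
      intro s hs; exact (hm s hs).2
    rw [hfil]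
    have : ∀ s ∈ SS, χ s * Z (m s) = Z (d - 1) * χ s
        + ∑ v ∈ J', (if m s < v then (Z (v - 1) - Z v) * χ s else 0) := by
      intro s hs
      rw [hsum s hs, mul_add, mul_sum]
      congr 1
      · ring
      · apply sum_congr rfl
        intro v _
        split_ifs <;> ring
    rw [sum_congr rfl this, sum_add_distrib, ← mul_sum]
    congr 1
    rw [sum_comm]
    apply sum_congr rfl
    intro v _
    rw [← sum_filter, mul_sum]
  rw [e1]
  refine (norm_add_le _ _).trans ?_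
  have b1 : ‖Z (d - 1) * ∑ s ∈ SS.filter (fun s => m s < d), χ s‖ ≤ C * B := by
    rw [norm_mul]
    exact mul_le_mul (hZ _ (by omega) (by omega)) (hχ d le_rfl) (norm_nonneg _) hC
  have b2 : ‖∑ v ∈ J', (Z (v - 1) - Z v) * ∑ s ∈ SS.filter (fun s => m s < v), χ s‖
      ≤ J.card * (2 * C * B) := by
    refine (norm_sum_le _ _).trans ?_
    have : ∀ v ∈ J', ‖(Z (v - 1) - Z v) * ∑ s ∈ SS.filter (fun s => m s < v), χ s‖ ≤ 2 * C * B := by
      intro v hv
      rw [hJ', mem_filter] at hv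
      rw [norm_mul]
      apply mul_le_mul _ (hχ v (by omega)) (norm_nonneg _) (by positivity)
      refine (norm_sub_le _ _).trans ?_
      have := hZ (v - 1) (by omega) (by omega)
      have := hZ v (by omega) hv.2.2
      linarith
    refine (sum_le_sum this).trans ?_
    rw [sum_const, nsmul_eq_mul]
    apply mul_le_mul_of_nonneg_right _ (by positivity)
    exact_mod_cast card_filter_le _ _
  nlinarith

namespace Dat

variable {M : ℝ} (X : Dat M)

/-- the chirp -/
noncomputable def chi (b : ℤ) (s : ℕ) : ℂ := e (-X.al * s ^ 2 / 10 + b * X.al * s)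

/-- integer polynomial in the class function -/
def PZ (s k : ℤ) : ℤ := k * s - (X.l0 * s - X.c * k) * (X.cb * s - X.d * k) + 5 * (X.l0 * s - X.c * k)

/-- class function -/
noncomputable def Psi (a : ℤ) (s k : ℤ) : ℂ :=
  if (X.cb * s - X.d * k - a) % 10 = 0 then e ((X.PZ s k : ℝ) / 10) else 0

theorem Psi_congr (a s s' k k' : ℤ) (hs : s ≡ s' [ZMOD 10]) (hk : k ≡ k' [ZMOD 10]) :
    X.Psi a s k = X.Psi a s' k' := by
  unfold Psi
  have h1 : X.cb * s - X.d * k - a ≡ X.cb * s' - X.d * k' - a [ZMOD 10] :=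
    ((hs.mul_left _).sub (hk.mul_left _)).sub rfl
  have h2 : X.PZ s k ≡ X.PZ s' k' [ZMOD 10] := by
    unfold PZ
    have u1 : X.l0 * s - X.c * k ≡ X.l0 * s' - X.c * k' [ZMOD 10] :=
      (hs.mul_left _).sub (hk.mul_left _)
    have u2 : X.cb * s - X.d * k ≡ X.cb * s' - X.d * k' [ZMOD 10] :=
      (hs.mul_left _).sub (hk.mul_left _)
    exact ((hk.mul hs).sub (u1.mul u2)).add (u1.mul_left _)
  have h3 : e ((X.PZ s k : ℝ) / 10) = e ((X.PZ s' k' : ℝ) / 10) := by
    obtain ⟨w, hw⟩ := h2.symm.dvd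
    have : (X.PZ s k : ℝ) / 10 = (X.PZ s' k' : ℝ) / 10 + (w : ℤ) := by
      have : (X.PZ s k : ℝ) - X.PZ s' k' = 10 * w := by exact_mod_cast hw
      field_simp
      linarith
    rw [this, e_add_int]
  have h1' : (X.cb * s - X.d * k - a) % 10 = (X.cb * s' - X.d * k' - a) % 10 := h1
  rw [h1', h3]

theorem norm_Psi_le (a s k : ℤ) : ‖X.Psi a s k‖ ≤ 1 := by
  unfold Psi
  split_ifs
  · rw [norm_e]
  · simp

theorem fract10 (s : ℕ) : Int.fract (X.al * s / 10)
    = (((X.kq s % 10 : ℤ) : ℝ)) / 10 + X.mm s / (10 * X.d) := by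
  have hd := X.dpos
  have h := X.mm_spec s
  have h' : (X.cb : ℝ) * s = X.d * X.kq s + X.mm s := by exact_mod_cast h
  have hk : (X.kq s : ℝ) = ((X.kq s % 10 : ℤ) : ℝ) + 10 * ((X.kq s / 10 : ℤ) : ℝ) := by
    exact_mod_cast (Int.emod_add_mul_ediv (X.kq s) 10).symm
  have e1 : X.al * s / 10 = ((((X.kq s % 10 : ℤ) : ℝ)) / 10 + X.mm s / (10 * X.d))
      + ((X.kq s / 10 : ℤ) : ℝ) := by
    unfold al
    field_simp
    rw [hk] at h'
    linear_combination h'
  rw [e1, Int.fract_add_intCast, Int.fract_eq_self]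
  have k0 : (0 : ℝ) ≤ ((X.kq s % 10 : ℤ) : ℝ) := by
    exact_mod_cast Int.emod_nonneg _ (by norm_num)
  have k1 : ((X.kq s % 10 : ℤ) : ℝ) ≤ 9 := by
    exact_mod_cast (by omega : X.kq s % 10 ≤ 9)
  have m1 : (X.mm s : ℝ) / (10 * X.d) < 1 / 10 := by
    rw [div_lt_div_iff₀ (by positivity) (by norm_num)]
    have : (X.mm s : ℝ) < X.d := by exact_mod_cast X.mm_lt s
    linarith
  constructor
  · positivity
  · linarith

theorem ind_eq (s : ℕ) (κ : ℕ) (_hκ : κ < 10) (v : ℕ) (hv : v ≤ X.d) (x : ℂ) :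
    (if (X.kq s % 10 = κ ∧ X.mm s < v) then x else 0)
      = (if Int.fract (X.al * s / 10) < (κ : ℝ) / 10 + v / (10 * X.d) then x else 0)
        - (if Int.fract (X.al * s / 10) < (κ : ℝ) / 10 then x else 0) := by
  have hd := X.dpos
  rw [X.fract10]
  have hml : (X.mm s : ℝ) < X.d := by exact_mod_cast X.mm_lt s
  have hm0 : (0 : ℝ) ≤ X.mm s / (10 * X.d) := by positivity
  have m1 : (X.mm s : ℝ) / (10 * X.d) < 1 / 10 := by
    rw [div_lt_div_iff₀ (by positivity) (by norm_num)]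
    linarith
  have v1 : (v : ℝ) / (10 * X.d) ≤ 1 / 10 := by
    rw [div_le_div_iff₀ (by positivity) (by norm_num)]
    have : (v : ℝ) ≤ X.d := by exact_mod_cast hv
    linarith
  have v0 : (0 : ℝ) ≤ v / (10 * X.d) := by positivity
  rcases lt_trichotomy (X.kq s % 10) (κ : ℤ) with h | h | h
  · have hR : ((X.kq s % 10 : ℤ) : ℝ) + 1 ≤ κ := by exact_mod_cast h
    rw [if_neg (fun h' => by omega), if_pos (by linarith), if_pos (by linarith)]
    ring
  · have hR : ((X.kq s % 10 : ℤ) : ℝ) = κ := by exact_mod_cast h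
    have c2 : ¬ (((X.kq s % 10 : ℤ) : ℝ) / 10 + X.mm s / (10 * X.d) < (κ : ℝ) / 10) := by
      rw [hR]; linarith
    rw [if_neg c2]
    by_cases hlt : X.mm s < v
    · have : (X.mm s : ℝ) / (10 * X.d) < v / (10 * X.d) := by
        apply div_lt_div_of_pos_right _ (by positivity)
        exact_mod_cast hlt
      rw [if_pos ⟨h, hlt⟩, if_pos (by rw [hR]; linarith)]
      ring
    · have : (v : ℝ) / (10 * X.d) ≤ X.mm s / (10 * X.d) := by
        apply div_le_div_of_nonneg_right _ (by positivity)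
        exact_mod_cast (not_lt.1 hlt)
      rw [if_neg (fun h' => hlt h'.2), if_neg (by rw [hR]; linarith)]
      ring
  · have hR : (κ : ℝ) + 1 ≤ ((X.kq s % 10 : ℤ) : ℝ) := by exact_mod_cast h
    rw [if_neg (fun h' => by omega), if_neg (by linarith), if_neg (by linarith)]
    ring

/-- class sum over a threshold set -/
theorem class_bound (b : ℤ) (n : ℕ) (hn0 : 0 < n) (hn : n < X.d) (y : ℝ) (hy0 : 0 ≤ y)
    (hy : y ^ 64 = n) (a0 κ : ℕ) (ha1 : 1 ≤ a0) (ha2 : a0 ≤ 10) (hκ : κ < 10) (v : ℕ)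
    (hv : v ≤ X.d) :
    ‖∑ s ∈ (Ico 1 (n + 1)).filter (fun s => s % 10 = a0 % 10),
      (if (X.kq s % 10 = κ ∧ X.mm s < v) then X.chi b s else 0)‖ ≤ 3200 * X.K * y ^ 60 := by
  have hd := X.dpos
  have hK := X.hK
  set N := (n + 10 - a0) / 10 with hN
  have hre : ∑ s ∈ (Ico 1 (n + 1)).filter (fun s => s % 10 = a0 % 10),
        (if (X.kq s % 10 = κ ∧ X.mm s < v) then X.chi b s else 0)
      = ∑ r ∈ range N, (if (X.kq (10 * r + a0) % 10 = κ ∧ X.mm (10 * r + a0) < v)
          then X.chi b (10 * r + a0) else 0) := by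
    symm
    apply sum_nbij' (fun r => 10 * r + a0) (fun s => (s - a0) / 10)
    · intro r hr
      rw [mem_range] at hr
      rw [mem_filter, mem_Ico]
      omega
    · intro s hs
      rw [mem_filter, mem_Ico] at hs
      rw [mem_range]
      omega
    · intro r _
      simp
    · intro s hs
      rw [mem_filter, mem_Ico] at hs
      omega
    · intro r _; rfl
  rw [hre]
  set γ : ℝ := X.al * a0 / 10 with hγ
  set φ : ℝ := -2 * X.al * a0 + 10 * b * X.al with hφ
  set cst : ℝ := -X.al * a0 ^ 2 / 10 + b * X.al * a0 with hcst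
  have hterm : ∀ r ∈ range N, (if (X.kq (10 * r + a0) % 10 = κ ∧ X.mm (10 * r + a0) < v)
          then X.chi b (10 * r + a0) else 0)
      = e cst * (WW X.al γ φ ((κ : ℝ) / 10 + v / (10 * X.d)) r - WW X.al γ φ ((κ : ℝ) / 10) r) := by
    intro r _
    have h := X.ind_eq (10 * r + a0) κ hκ v hv (X.chi b (10 * r + a0))
    have hz : X.al * ((10 * r + a0 : ℕ) : ℝ) / 10 = r * X.al + γ := by
      rw [hγ]; push_cast; ring
    have hc : X.chi b (10 * r + a0) = e cst * e (-10 * X.al * r ^ 2 + φ * r) := by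
      unfold chi
      rw [← e_add]
      congr 1
      rw [hcst, hφ]
      push_cast
      ring
    rw [h, hz, hc]
    unfold WW
    split_ifs <;> ring
  rw [sum_congr rfl hterm, ← mul_sum, norm_mul, norm_e, one_mul, sum_sub_distrib]
  by_cases hN0 : N = 0
  · rw [hN0, range_zero, sum_empty, sum_empty, sub_zero, norm_zero]
    have := pow_nonneg hy0 60
    nlinarith [mul_nonneg (by linarith : 0 ≤ X.K) this]
  have hNpos : 0 < N := Nat.pos_of_ne_zero hN0
  have hNn : N ≤ n := by omega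
  set z : ℝ := (N : ℝ) ^ ((1 : ℝ) / 16) with hz
  have hz0 : 0 ≤ z := by positivity
  have hz16 : z ^ 16 = N := by
    rw [hz, ← Real.rpow_natCast, ← Real.rpow_mul (by positivity)]
    norm_num
  have hzy : z ≤ y ^ 4 := by
    apply le_of_pow_le_pow_left₀ (by norm_num : 16 ≠ 0) (by positivity)
    rw [hz16, ← pow_mul, hy]
    exact_mod_cast hNn
  have hz15 : z ^ 15 ≤ y ^ 60 := by
    calc z ^ 15 ≤ (y ^ 4) ^ 15 := pow_le_pow_left₀ hz0 hzy 15
      _ = y ^ 60 := by ring
  have hκR : (κ : ℝ) ≤ 9 := by exact_mod_cast (by omega : κ ≤ 9)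
  have v1 : (v : ℝ) / (10 * X.d) ≤ 1 / 10 := by
    rw [div_le_div_iff₀ (by positivity) (by norm_num)]
    have : (v : ℝ) ≤ X.d := by exact_mod_cast hv
    linarith
  have w1 := Wbound X.al X.K X.hK X.d X.al_low N hNpos (by omega) z hz0 hz16 γ φ
    ((κ : ℝ) / 10 + v / (10 * X.d)) (by positivity) (by linarith)
  have w2 := Wbound X.al X.K X.hK X.d X.al_low N hNpos (by omega) z hz0 hz16 γ φ
    ((κ : ℝ) / 10) (by positivity) (by linarith)
  refine (norm_sub_le _ _).trans ?_
  have : 1600 * X.K * z ^ 15 ≤ 1600 * X.K * y ^ 60 := mul_le_mul_of_nonneg_left hz15 (by positivity)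
  linarith

/-- smooth factor -/
noncomputable def EE (β : ℝ) (x : ℝ) : ℂ := e (-X.eps * x ^ 2 / (10 * X.d) + β * x)

noncomputable def ZZ (β : ℝ) (v : ℕ) : ℂ := X.EE β v * ((GG X.t X.eps v : ℝ) : ℂ)

noncomputable def ZS (β : ℝ) (S v : ℕ) : ℂ :=
  X.EE β (((S * v / X.d : ℕ) : ℝ) * X.d / S) * ((X.PP S v : ℝ) : ℂ)

theorem EE_lip (β : ℝ) (hβ : |β| * X.d ≤ 1) (x x' : ℝ) (hx0 : 0 ≤ x) (hx1 : x ≤ X.d)
    (hx0' : 0 ≤ x') (hx1' : x' ≤ X.d) :
    ‖X.EE β x - X.EE β x'‖ ≤ 13 * M * (|x - x'| / X.d) := by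
  have hd := X.dpos
  have hM := X.hM
  unfold EE
  refine (norm_e_sub_e_le _ _).trans ?_
  have e1 : -X.eps * x ^ 2 / (10 * X.d) + β * x - (-X.eps * x' ^ 2 / (10 * X.d) + β * x')
      = (x - x') * (β - X.eps * (x + x') / (10 * X.d)) := by
    field_simp
    ring
  rw [e1, abs_mul]
  have h1 : |β| ≤ 1 / X.d := by rw [le_div_iff₀ hd]; exact hβ
  have h2 : |X.eps * (x + x') / (10 * X.d)| ≤ M / 5 / X.d := by
    rw [abs_div, abs_mul, abs_of_nonneg (by linarith : 0 ≤ x + x'),
      abs_of_pos (by positivity : 0 < 10 * (X.d : ℝ))]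
    calc |X.eps| * (x + x') / (10 * X.d) ≤ (M / X.d) * (2 * X.d) / (10 * X.d) := by
          apply div_le_div_of_nonneg_right _ (by positivity)
          exact mul_le_mul X.eps_le' (by linarith) (by linarith) (by positivity)
      _ = M / 5 / X.d := by field_simp; norm_num
  have h3 : |β - X.eps * (x + x') / (10 * X.d)| ≤ 2 * M / X.d := by
    refine (abs_sub _ _).trans ?_
    have : 1 / (X.d : ℝ) + M / 5 / X.d ≤ 2 * M / X.d := by
      rw [← add_div]
      apply div_le_div_of_nonneg_right _ hd.le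
      linarith
    linarith
  have hpi : 2 * Real.pi ≤ 6.5 := by linarith [Real.pi_lt_d2]
  calc 2 * Real.pi * (|x - x'| * |β - X.eps * (x + x') / (10 * X.d)|)
      ≤ 6.5 * (|x - x'| * (2 * M / X.d)) := by
        apply mul_le_mul hpi _ (by positivity) (by norm_num)
        exact mul_le_mul_of_nonneg_left h3 (abs_nonneg _)
    _ = 13 * M * (|x - x'| / X.d) := by ring

theorem ZS_close (C : ℝ) (β : ℝ) (hβ : |β| * X.d ≤ 1) (S : ℕ) (hS : 0 < S) (v : ℕ) (hv : v ≤ X.d)
    (h1 : |GG X.t X.eps v| ≤ C) (h2 : |GG X.t X.eps v - X.PP S v| ≤ C / Real.sqrt S) :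
    ‖X.ZZ β v - X.ZS β S v‖ ≤ 14 * M * C / Real.sqrt S := by
  have hd := X.dpos
  have hM := X.hM
  have hC : 0 ≤ C := (abs_nonneg _).trans h1
  have hSR : (1 : ℝ) ≤ S := by exact_mod_cast hS
  have hs0 : 0 < Real.sqrt S := Real.sqrt_pos.2 (by linarith)
  set w : ℕ := S * v / X.d with hw
  have hdn : 0 < X.d := by have := X.hd; omega
  have hw1 : w * X.d ≤ S * v := Nat.div_mul_le_self _ _
  have hw2 : S * v < (w + 1) * X.d := by
    rw [hw]
    exact Nat.lt_mul_of_div_lt (Nat.lt_succ_self _) hdn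
  have hw1R : (w : ℝ) * X.d ≤ S * v := by exact_mod_cast hw1
  have hw2R : (S : ℝ) * v < (w + 1) * X.d := by exact_mod_cast hw2
  set x' : ℝ := (w : ℝ) * X.d / S with hx'
  have hx'1 : x' ≤ v := by
    rw [hx', div_le_iff₀ (by linarith)]; linarith
  have hx'2 : (v : ℝ) - x' ≤ X.d / S := by
    rw [hx', sub_le_iff_le_add, ← add_div, le_div_iff₀ (by linarith)]; linarith
  have hx'0 : 0 ≤ x' := by positivity
  have hvd : (v : ℝ) ≤ X.d := by exact_mod_cast hv
  have hE := X.EE_lip β hβ v x' (by positivity) hvd hx'0 (by linarith)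
  rw [abs_of_nonneg (by linarith : 0 ≤ (v : ℝ) - x')] at hE
  have hE2 : ‖X.EE β v - X.EE β x'‖ ≤ 13 * M / Real.sqrt S := by
    refine hE.trans ?_
    have : ((v : ℝ) - x') / X.d ≤ 1 / S := by
      rw [div_le_div_iff₀ hd (by linarith)]
      have := mul_le_mul_of_nonneg_right hx'2 (by linarith : (0 : ℝ) ≤ S)
      rw [div_mul_cancel₀ _ (by linarith : (S : ℝ) ≠ 0)] at this
      linarith
    have h3 : (1 : ℝ) / S ≤ 1 / Real.sqrt S := by
      apply one_div_le_one_div_of_le hs0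
      rw [Real.sqrt_le_left (by positivity)]
      nlinarith
    calc 13 * M * (((v : ℝ) - x') / X.d) ≤ 13 * M * (1 / Real.sqrt S) :=
          mul_le_mul_of_nonneg_left (this.trans h3) (by positivity)
      _ = 13 * M / Real.sqrt S := by ring
  have e1 : X.ZZ β v - X.ZS β S v = (X.EE β v - X.EE β x') * ((GG X.t X.eps v : ℝ) : ℂ)
      + X.EE β x' * (((GG X.t X.eps v - X.PP S v : ℝ)) : ℂ) := by
    unfold ZZ ZS
    rw [← hw, ← hx']
    push_cast
    ring
  rw [e1]
  refine (norm_add_le _ _).trans ?_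
  rw [norm_mul, norm_mul, Complex.norm_real, Complex.norm_real, Real.norm_eq_abs, Real.norm_eq_abs]
  have hn : ‖X.EE β x'‖ = 1 := by unfold EE; rw [norm_e]
  rw [hn, one_mul]
  have b1 : ‖X.EE β v - X.EE β x'‖ * |GG X.t X.eps v| ≤ (13 * M / Real.sqrt S) * C :=
    mul_le_mul hE2 h1 (abs_nonneg _) (by positivity)
  have b2 : C / Real.sqrt S ≤ M * C / Real.sqrt S := by
    apply div_le_div_of_nonneg_right _ hs0.le
    nlinarith
  have b3 : 14 * M * C / Real.sqrt S = (13 * M / Real.sqrt S) * C + M * C / Real.sqrt S := by ring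
  linarith

/-- the jump set -/
def JJ (S : ℕ) : Finset ℕ :=
  ((Ico 2 X.d).filter (fun v => S * (v - 1) / X.d ≠ S * v / X.d))
    ∪ (((Ico 1 X.d).filter (fun s => ¬ (S + 1 ≤ s ∧ s < X.d - S))).image (fun s => X.mm s + 1))

theorem JJ_card (S : ℕ) : (X.JJ S).card ≤ 3 * S := by
  unfold JJ
  refine (card_union_le _ _).trans ?_
  have h2 := (card_image_le (s := (Ico 1 X.d).filter (fun s => ¬ (S + 1 ≤ s ∧ s < X.d - S)))
    (f := fun s => X.mm s + 1)).trans (X.small_card S)
  have hdn : 0 < X.d := by have := X.hd; omega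
  have h1 : ((Ico 2 X.d).filter (fun v => S * (v - 1) / X.d ≠ S * v / X.d)).card ≤ S := by
    have hmap : Set.MapsTo (fun v => S * v / X.d)
        ((Ico 2 X.d).filter (fun v => S * (v - 1) / X.d ≠ S * v / X.d)) (Ico 1 (S + 1) : Finset ℕ) := by
      intro v hv
      simp only [coe_filter, mem_Ico, Set.mem_ofPred_eq] at hv
      simp only [coe_Ico, Set.mem_Ico]
      have hle : S * (v - 1) / X.d ≤ S * v / X.d := Nat.div_le_div_right (Nat.mul_le_mul_left S (by omega))
      have hup : S * v / X.d ≤ S := by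
        rw [Nat.div_le_iff_le_mul_add_pred hdn]
        have : S * v ≤ X.d * S := by rw [mul_comm X.d]; exact Nat.mul_le_mul_left S (by omega)
        omega
      have hne := hv.2
      revert hne hle hup
      generalize S * (v - 1) / X.d = A
      generalize S * v / X.d = B
      intro h1 h2 h3
      constructor <;> omega
    have hinj : Set.InjOn (fun v => S * v / X.d)
        ((Ico 2 X.d).filter (fun v => S * (v - 1) / X.d ≠ S * v / X.d)) := by
      intro v hv w hw hvw
      simp only [coe_filter, mem_Ico, Set.mem_ofPred_eq] at hv hw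
      simp only at hvw
      by_contra hne
      rcases Nat.lt_or_gt_of_ne hne with h | h
      · have h3 : S * v / X.d ≤ S * (w - 1) / X.d :=
          Nat.div_le_div_right (Nat.mul_le_mul_left S (by omega))
        have h4 : S * (w - 1) / X.d ≤ S * w / X.d :=
          Nat.div_le_div_right (Nat.mul_le_mul_left S (by omega))
        exact hw.2 (le_antisymm h4 (hvw ▸ h3))
      · have h3 : S * w / X.d ≤ S * (v - 1) / X.d :=
          Nat.div_le_div_right (Nat.mul_le_mul_left S (by omega))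
        have h4 : S * (v - 1) / X.d ≤ S * v / X.d :=
          Nat.div_le_div_right (Nat.mul_le_mul_left S (by omega))
        exact hv.2 (le_antisymm h4 (hvw ▸ h3))
    have := Finset.card_le_card_of_injOn _ hmap hinj
    rw [Nat.card_Ico] at this
    omega
  omega

theorem JJ_mem (β : ℝ) (S v : ℕ) (hv2 : 2 ≤ v) (hvd : v < X.d) (hne : X.ZS β S (v - 1) ≠ X.ZS β S v) :
    v ∈ X.JJ S := by
  unfold JJ
  rw [mem_union]
  by_contra h
  obtain ⟨ha, hb⟩ := not_or.1 h
  apply hne
  have h1 : S * (v - 1) / X.d = S * v / X.d := by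
    by_contra hne2
    apply ha
    rw [mem_filter, mem_Ico]
    exact ⟨⟨hv2, hvd⟩, hne2⟩
  have h2 : X.PP S (v - 1) = X.PP S v := by
    unfold PP
    apply prod_congr rfl
    intro s hs
    unfold ff
    have hms : X.mm s ≠ v - 1 := by
      intro hc
      apply hb
      rw [mem_image]
      exact ⟨s, hs, by omega⟩
    have hiff : (X.mm s < v - 1) ↔ (X.mm s < v) := by omega
    simp only [hiff]
  unfold ZS
  rw [h1, h2]

/-- summand -/
noncomputable def FF (a b : ℤ) (β : ℝ) (s : ℕ) : ℂ :=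
  X.chi b s * X.Psi a s (X.kq s) * X.ZZ β (X.mm s)

end Dat

end Pool.Agent.Helper74.RR
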