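import Mathlib
import Pool.Agent.Helper74.RR.R9

set_option autoImplicit false

namespace Pool.Agent.Helper74.RR

open Finset

namespace Dat

variable {M : ℝ} (X : Dat M)

theorem norm_chi (b : ℤ) (s : ℕ) : ‖X.chi b s‖ = 1 := by
  unfold chi; rw [norm_e]

theorem norm_EE (β x : ℝ) : ‖X.EE β x‖ = 1 := by
  unfold EE; rw [norm_e]

theorem norm_FF_le (C : ℝ) (hC : ∀ m0 ≤ X.d, |GG X.t X.eps m0| ≤ C) (a b : ℤ) (β : ℝ) (s : ℕ) :
    ‖X.FF a b β s‖ ≤ C := by
  unfold FF
  rw [norm_mul, norm_mul, X.norm_chi, one_mul]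
  unfold ZZ
  rw [norm_mul, X.norm_EE, one_mul, Complex.norm_real, Real.norm_eq_abs]
  have h1 := X.norm_Psi_le a s (X.kq s)
  have h2 := hC (X.mm s) (X.mm_lt s).le
  calc ‖X.Psi a s (X.kq s)‖ * |GG X.t X.eps (X.mm s)| ≤ 1 * C :=
        mul_le_mul h1 h2 (abs_nonneg _) zero_le_one
    _ = C := one_mul C

/-- the step-function part of the sum -/
theorem step_part (C : ℝ) (hC0 : 0 ≤ C) (a b : ℤ) (β : ℝ) (S : ℕ)
    (hC : ∀ m0 ≤ X.d, |X.PP S m0| ≤ C) (n : ℕ) (hn0 : 0 < n) (hn : n < X.d)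
    (y : ℝ) (hy0 : 0 ≤ y) (hy : y ^ 64 = n) :
    ‖∑ s ∈ Ico 1 (n + 1), X.chi b s * X.Psi a s (X.kq s) * X.ZS β S (X.mm s)‖
      ≤ 100 * (C * (3200 * X.K * y ^ 60) * (1 + 2 * (3 * S))) := by
  have hK := X.hK
  set g : ℕ → ℕ × ℕ := fun s => (s % 10, (X.kq s % 10).toNat) with hg
  have hmap : ∀ s ∈ Ico 1 (n + 1), g s ∈ range 10 ×ˢ range 10 := by
    intro s _
    simp only [hg, mem_product, mem_range]
    constructor
    · omega
    · have := Int.emod_lt_of_pos (X.kq s) (by norm_num : (0 : ℤ) < 10)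
      omega
  rw [← sum_fiberwise_of_maps_to hmap]
  refine (norm_sum_le _ _).trans ?_
  have hterm : ∀ w ∈ range 10 ×ˢ range 10,
      ‖∑ s ∈ (Ico 1 (n + 1)).filter (fun s => g s = w), X.chi b s * X.Psi a s (X.kq s) * X.ZS β S (X.mm s)‖
        ≤ C * (3200 * X.K * y ^ 60) * (1 + 2 * (3 * S)) := by
    intro w hw
    obtain ⟨a0, κ⟩ := w
    simp only [mem_product, mem_range] at hw
    obtain ⟨ha0, hκ⟩ := hw
    set SS := (Ico 1 (n + 1)).filter (fun s => g s = (a0, κ)) with hSS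
    have hmem : ∀ s, s ∈ SS ↔ (s ∈ Ico 1 (n + 1) ∧ s % 10 = a0 ∧ X.kq s % 10 = κ) := by
      intro s
      rw [hSS, mem_filter]
      simp only [hg, Prod.mk.injEq]
      have := Int.emod_nonneg (X.kq s) (by norm_num : (10 : ℤ) ≠ 0)
      constructor
      · rintro ⟨h1, h2, h3⟩
        exact ⟨h1, h2, by omega⟩
      · rintro ⟨h1, h2, h3⟩
        exact ⟨h1, h2, by omega⟩
    have hPsi : ∀ s ∈ SS, X.chi b s * X.Psi a s (X.kq s) * X.ZS β S (X.mm s)
        = X.Psi a a0 κ * (X.chi b s * X.ZS β S (X.mm s)) := by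
      intro s hs
      obtain ⟨_, h2, h3⟩ := (hmem s).1 hs
      have : X.Psi a s (X.kq s) = X.Psi a a0 κ := by
        apply X.Psi_congr
        · unfold Int.ModEq; omega
        · unfold Int.ModEq; omega
      rw [this]; ring
    rw [sum_congr rfl hPsi, ← mul_sum, norm_mul]
    have hB0 : 0 ≤ 3200 * X.K * y ^ 60 := by
      have := pow_nonneg hy0 60
      nlinarith [mul_nonneg (by linarith : 0 ≤ X.K) this]
    have hstep := step_fn SS X.mm X.d (X.ZS β S) (X.chi b) C (3200 * X.K * y ^ 60) hC0 hB0 X.hd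
      (by
        intro v _ hv
        unfold ZS
        rw [norm_mul, X.norm_EE, one_mul, Complex.norm_real, Real.norm_eq_abs]
        exact hC v hv.le)
      (by
        intro s hs
        obtain ⟨h1, _⟩ := (hmem s).1 hs
        rw [mem_Ico] at h1
        exact ⟨X.mm_pos s (by omega) (by omega), X.mm_lt s⟩)
      (X.JJ S) (fun v h2 h3 h4 => X.JJ_mem β S v h2 h3 h4)
      (by
        intro v hv
        set a1 : ℕ := if a0 = 0 then 10 else a0 with ha1
        have ha11 : 1 ≤ a1 := by rw [ha1]; split_ifs <;> omega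
        have ha12 : a1 ≤ 10 := by rw [ha1]; split_ifs <;> omega
        have ha13 : a1 % 10 = a0 := by rw [ha1]; split_ifs <;> omega
        have hcb := X.class_bound b n hn0 hn y hy0 hy a1 κ ha11 ha12 hκ v hv
        rw [← sum_filter, filter_filter] at hcb
        have : SS.filter (fun s => X.mm s < v)
            = (Ico 1 (n + 1)).filter (fun s => s % 10 = a1 % 10 ∧ (X.kq s % 10 = κ ∧ X.mm s < v)) := by
          ext s
          rw [mem_filter, hmem, mem_filter, ha13]
          tauto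
        rw [this]
        exact hcb)
    have hcard : ((X.JJ S).card : ℝ) ≤ 3 * S := by exact_mod_cast X.JJ_card S
    calc ‖X.Psi a a0 κ‖ * ‖∑ s ∈ SS, X.chi b s * X.ZS β S (X.mm s)‖
        ≤ 1 * (C * (3200 * X.K * y ^ 60) * (1 + 2 * (X.JJ S).card)) :=
          mul_le_mul (X.norm_Psi_le _ _ _) hstep (norm_nonneg _) zero_le_one
      _ ≤ C * (3200 * X.K * y ^ 60) * (1 + 2 * (3 * S)) := by
          rw [one_mul]
          apply mul_le_mul_of_nonneg_left _ (mul_nonneg hC0 hB0)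
          linarith
  refine (sum_le_sum hterm).trans ?_
  rw [sum_const, card_product, card_range, nsmul_eq_mul]
  norm_num

end Dat

theorem U_bound (M : ℝ) (hM : 1 ≤ M) : ∃ C : ℝ, 1 ≤ C ∧ (∀ X : Dat M, ∀ m0 ≤ X.d, |GG X.t X.eps m0| ≤ C) ∧
    ∀ X : Dat M, ∀ a b : ℤ, ∀ β : ℝ, |β| * X.d ≤ 1 → ∀ n : ℕ, 0 < n → n < X.d →
      ∀ y : ℝ, 0 ≤ y → y ^ 64 = n →
        ‖∑ s ∈ Ico 1 (n + 1), X.FF a b β s‖ ≤ C * X.K * y ^ 63 := by
  obtain ⟨C, S0, hC1, hS01, hCS⟩ := GG_approx M hM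
  refine ⟨2240000 * C + 28 * M * C + C * S0, by nlinarith, ?_, ?_⟩
  · intro X m0 hm0
    have h1 := (hCS X m0 hm0).1
    have : 0 ≤ M * C := by nlinarith
    have : (0 : ℝ) ≤ C * S0 := by positivity
    linarith
  intro X a b β hβ n hn0 hn y hy0 hy
  have hK := X.hK
  have hnR : (1 : ℝ) ≤ n := by exact_mod_cast hn0
  have hy1 : 1 ≤ y := by
    by_contra hlt
    push Not at hlt
    have : y ^ 64 < 1 := pow_lt_one₀ hy0 hlt (by norm_num)
    linarith
  have hGG : ∀ m0 ≤ X.d, |GG X.t X.eps m0| ≤ C := fun m0 hm0 => (hCS X m0 hm0).1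
  have hy63 : 0 < y ^ 63 := pow_pos (by linarith) 63
  have hS0R : (1 : ℝ) ≤ S0 := by exact_mod_cast hS01
  have hMC : 0 ≤ M * C := by nlinarith
  by_cases hsmall : y ^ 2 < S0 + 1
  · -- trivial bound
    have h1 : ‖∑ s ∈ Ico 1 (n + 1), X.FF a b β s‖ ≤ n * C := by
      refine (norm_sum_le _ _).trans ?_
      refine (sum_le_sum (fun s _ => X.norm_FF_le C hGG a b β s)).trans ?_
      rw [sum_const, Nat.card_Ico, nsmul_eq_mul]
      simp
    have h2 : y ≤ S0 + 1 := by nlinarith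
    have h3 : (n : ℝ) * C = y * (C * y ^ 63) := by rw [← hy]; ring
    rw [h3] at h1
    have h4 : 0 ≤ C * y ^ 63 := by positivity
    have h5 : y * (C * y ^ 63) ≤ (S0 + 1) * (C * y ^ 63) := mul_le_mul_of_nonneg_right h2 h4
    have h6 : (S0 + 1) * (C * y ^ 63) ≤ (2240000 * C + 28 * M * C + C * S0) * y ^ 63 := by
      have : (S0 + 1) * C ≤ 2240000 * C + 28 * M * C + C * S0 := by nlinarith
      calc (S0 + 1) * (C * y ^ 63) = ((S0 + 1) * C) * y ^ 63 := by ring
        _ ≤ _ := mul_le_mul_of_nonneg_right this hy63.le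
    have h7 : (2240000 * C + 28 * M * C + C * S0) * y ^ 63
        ≤ (2240000 * C + 28 * M * C + C * S0) * X.K * y ^ 63 := by
      apply mul_le_mul_of_nonneg_right _ hy63.le
      have h8 : 0 ≤ 2240000 * C + 28 * M * C + C * S0 := by nlinarith
      nlinarith
    linarith
  · push Not at hsmall
    set S := ⌊y ^ 2⌋₊ with hS
    have hSle : (S : ℝ) ≤ y ^ 2 := Nat.floor_le (by positivity)
    have hSlt : y ^ 2 < S + 1 := Nat.lt_floor_add_one _
    have hS0S : S0 ≤ S := by
      apply Nat.le_floor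
      linarith
    have hS1 : 1 ≤ S := by omega
    have hSR : (1 : ℝ) ≤ S := by exact_mod_cast hS1
    have hsq : y / 2 ≤ Real.sqrt S := by
      apply Real.le_sqrt_of_sq_le
      nlinarith
    have hsqpos : 0 < Real.sqrt S := Real.sqrt_pos.2 (by linarith)
    have hsplit : ∑ s ∈ Ico 1 (n + 1), X.FF a b β s
        = ∑ s ∈ Ico 1 (n + 1), X.chi b s * X.Psi a s (X.kq s) * X.ZS β S (X.mm s)
          + ∑ s ∈ Ico 1 (n + 1), X.chi b s * X.Psi a s (X.kq s) * (X.ZZ β (X.mm s) - X.ZS β S (X.mm s)) := by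
      rw [← sum_add_distrib]
      apply sum_congr rfl
      intro s _
      unfold Dat.FF
      ring
    have b1 := X.step_part C (by linarith) a b β S (fun m0 hm0 => ((hCS X m0 hm0).2 S hS0S).1) n hn0 hn y hy0 hy
    have b2 : ‖∑ s ∈ Ico 1 (n + 1), X.chi b s * X.Psi a s (X.kq s) * (X.ZZ β (X.mm s) - X.ZS β S (X.mm s))‖
        ≤ n * (14 * M * C / Real.sqrt S) := by
      refine (norm_sum_le _ _).trans ?_
      have : ∀ s ∈ Ico 1 (n + 1), ‖X.chi b s * X.Psi a s (X.kq s) * (X.ZZ β (X.mm s) - X.ZS β S (X.mm s))‖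
          ≤ 14 * M * C / Real.sqrt S := by
        intro s _
        rw [norm_mul, norm_mul, X.norm_chi, one_mul]
        have h1 := X.ZS_close C β hβ S (by omega) (X.mm s) (X.mm_lt s).le
          (hGG _ (X.mm_lt s).le) ((hCS X _ (X.mm_lt s).le).2 S hS0S).2
        calc ‖X.Psi a s (X.kq s)‖ * ‖X.ZZ β (X.mm s) - X.ZS β S (X.mm s)‖
            ≤ 1 * (14 * M * C / Real.sqrt S) := mul_le_mul (X.norm_Psi_le _ _ _) h1 (norm_nonneg _) zero_le_one
          _ = _ := one_mul _
      refine (sum_le_sum this).trans ?_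
      rw [sum_const, Nat.card_Ico, nsmul_eq_mul]
      simp
    rw [hsplit]
    refine (norm_add_le _ _).trans ?_
    have hy60 : 0 < y ^ 60 := pow_pos (by linarith) 60
    have c1 : 100 * (C * (3200 * X.K * y ^ 60) * (1 + 2 * (3 * S))) ≤ 2240000 * C * X.K * y ^ 63 := by
      have h1 : 1 + 2 * (3 * (S : ℝ)) ≤ 7 * y ^ 3 := by
        have : 1 ≤ y ^ 2 := one_le_pow₀ hy1
        have h2 : y ^ 2 ≤ y ^ 3 := pow_le_pow_right₀ hy1 (by norm_num)
        linarith
      calc 100 * (C * (3200 * X.K * y ^ 60) * (1 + 2 * (3 * S)))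
          ≤ 100 * (C * (3200 * X.K * y ^ 60) * (7 * y ^ 3)) := by
            apply mul_le_mul_of_nonneg_left _ (by norm_num)
            apply mul_le_mul_of_nonneg_left h1
            have : 0 ≤ X.K * y ^ 60 := by nlinarith
            nlinarith
        _ = 2240000 * C * X.K * y ^ 63 := by ring
    have c2 : (n : ℝ) * (14 * M * C / Real.sqrt S) ≤ 28 * M * C * X.K * y ^ 63 := by
      have h1 : 14 * M * C / Real.sqrt S ≤ 14 * M * C / (y / 2) := by
        apply div_le_div_of_nonneg_left (by nlinarith) (by linarith) hsq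
      calc (n : ℝ) * (14 * M * C / Real.sqrt S) ≤ n * (14 * M * C / (y / 2)) :=
            mul_le_mul_of_nonneg_left h1 (by linarith)
        _ = 28 * M * C * y ^ 63 := by
            rw [← hy]
            have : y ≠ 0 := by linarith
            field_simp
            ring
        _ ≤ 28 * M * C * X.K * y ^ 63 := by
            apply mul_le_mul_of_nonneg_right _ hy63.le
            have : 0 ≤ 28 * M * C := by nlinarith
            nlinarith
    have c3 : 0 ≤ C * S0 * X.K * y ^ 63 := by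
      have : 0 ≤ X.K := by linarith
      positivity
    have c4 : (2240000 * C + 28 * M * C + C * S0) * X.K * y ^ 63
        = 2240000 * C * X.K * y ^ 63 + 28 * M * C * X.K * y ^ 63 + C * S0 * X.K * y ^ 63 := by ring
    linarith

end Pool.Agent.Helper74.RR
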