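import Mathlib
import Pool.Agent.Helper74.RR.R10

set_option autoImplicit false

namespace Pool.Agent.Helper74.RR

open Finset

/-- summand of the full sum -/
noncomputable def HS (t ε : ℝ) (a : ℤ) (lam : ℝ) (m : ℕ) : ℂ :=
  (if ((m : ℤ) - a) % 10 = 0 then e (-t * m ^ 2 / 10 + lam * m) else 0)
    * ((GG t ε m / Real.sin (Real.pi * (m * t)) : ℝ) : ℂ)

namespace Dat

variable {M : ℝ} (X : Dat M)

theorem t_eq : X.t = (X.c + X.eps) / X.d := by
  have hd := X.dpos
  unfold eps
  field_simp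
  ring

theorem cos_sq_int (l : ℤ) : Real.cos (Real.pi * l) * Real.cos (Real.pi * l) = 1 := by
  have hs : Real.sin (Real.pi * l) = 0 := by rw [mul_comm, Real.sin_int_mul_pi]
  have := Real.sin_sq_add_cos_sq (Real.pi * l)
  rw [hs] at this
  nlinarith

theorem term_eq (a b : ℤ) (β : ℝ) (s : ℕ) :
    HS X.t X.eps a (β + b / X.d) (X.mm s)
      = X.FF a b β s * ((1 / Real.sin (Real.pi * X.th s) : ℝ) : ℂ) := by
  have hd := X.dpos
  have hmm := X.mm_spec s
  have hcm := X.cmm s
  have hlv : X.lv s = X.l0 * s - X.c * X.kq s := rfl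
  have hcond : (X.cb * s - X.d * X.kq s - a) % 10 = ((X.mm s : ℤ) - a) % 10 := by
    have : X.cb * s - X.d * X.kq s - a = (X.mm s : ℤ) - a := by rw [hmm]; ring
    rw [this]
  unfold HS FF Psi ZZ chi EE
  rw [hcond]
  split_ifs with h
  · have hcc := cos_sq_int (X.lv s)
    have hcne : Real.cos (Real.pi * X.lv s) ≠ 0 := by
      intro h0; rw [h0] at hcc; norm_num at hcc
    have hdiv : GG X.t X.eps (X.mm s) / Real.sin (Real.pi * (X.mm s * X.t))
        = Real.cos (Real.pi * X.lv s) * (GG X.t X.eps (X.mm s) * (1 / Real.sin (Real.pi * X.th s))) := by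
      rw [X.sin_mt]
      by_cases hs0 : Real.sin (Real.pi * X.th s) = 0
      · rw [hs0]; simp
      · field_simp
        linear_combination (-(GG X.t X.eps (X.mm s))) * hcc
    rw [hdiv, Complex.ofReal_mul, ← e_int_half]
    have hmmR : (X.cb : ℝ) * s = X.d * X.kq s + X.mm s := by exact_mod_cast hmm
    have hcmR : (X.c : ℝ) * X.mm s = s + X.d * X.lv s := by exact_mod_cast hcm
    have hPZ : (X.PZ s (X.kq s) : ℝ) = X.kq s * s - X.lv s * X.mm s + 5 * X.lv s := by
      have : X.PZ s (X.kq s) = X.kq s * s - X.lv s * X.mm s + 5 * X.lv s := by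
        unfold PZ
        rw [hlv]
        have : X.cb * s - X.d * X.kq s = (X.mm s : ℤ) := by rw [hmm]; ring
        rw [this]
      exact_mod_cast this
    have hphase : (-X.t * (X.mm s : ℝ) ^ 2 / 10 + (β + b / X.d) * X.mm s) + (X.lv s : ℝ) / 2
        = ((-X.al * (s : ℝ) ^ 2 / 10 + b * X.al * s) + (X.PZ s (X.kq s) : ℝ) / 10
          + (-X.eps * (X.mm s : ℝ) ^ 2 / (10 * X.d) + β * X.mm s)) + ((-(b * X.kq s) : ℤ) : ℝ) := by
      rw [hPZ, X.t_eq]
      unfold al
      push_cast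
      field_simp
      linear_combination (-2 * (X.mm s : ℝ)) * hcmR + (2 * (s - 10 * b) : ℝ) * hmmR
    have hE : e (-X.t * (X.mm s : ℝ) ^ 2 / 10 + (β + b / X.d) * X.mm s) * e ((X.lv s : ℝ) / 2)
        = e (-X.al * (s : ℝ) ^ 2 / 10 + b * X.al * s) * e ((X.PZ s (X.kq s) : ℝ) / 10)
          * e (-X.eps * (X.mm s : ℝ) ^ 2 / (10 * X.d) + β * X.mm s) := by
      rw [← e_add, hphase, e_add_int, e_add, e_add]
    push_cast at hE ⊢
    linear_combination ((GG X.t X.eps (X.mm s) : ℂ) * (1 / Complex.sin (Real.pi * X.th s))) * hE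
  · simp

theorem th_sin_abs (s : ℕ) : |Real.sin (Real.pi * X.th s)| = |Real.sin (Real.pi * (X.mm s * X.t))| := by
  have hcc := cos_sq_int (X.lv s)
  rw [X.sin_mt, abs_mul]
  have : |Real.cos (Real.pi * X.lv s)| = 1 := by
    have h1 : |Real.cos (Real.pi * X.lv s)| * |Real.cos (Real.pi * X.lv s)| = 1 := by
      rw [← abs_mul, hcc, abs_one]
    have h0 := abs_nonneg (Real.cos (Real.pi * X.lv s))
    nlinarith
  rw [this, one_mul]

/-- a single term -/
theorem one_term (C : ℝ) (hC : ∀ m0 ≤ X.d, |GG X.t X.eps m0| ≤ C) (a b : ℤ) (β : ℝ) (s : ℕ)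
    (h0 : 0 < s) (h1 : s < X.d) :
    |Real.sin (Real.pi * X.eps)| * ‖X.FF a b β s * ((1 / Real.sin (Real.pi * X.th s) : ℝ) : ℂ)‖ ≤ C * M := by
  have hM := X.hM
  have hmp := X.mm_pos s h0 h1
  have hml := X.mm_lt s
  have hne := X.h4 _ hmp hml
  have hb := X.h3 _ hmp hml
  have hC0 : 0 ≤ C := (abs_nonneg _).trans (hC 0 (Nat.zero_le _))
  rw [norm_mul, Complex.norm_real, Real.norm_eq_abs, abs_div, abs_one, X.th_sin_abs]
  have hp : 0 < |Real.sin (Real.pi * (X.mm s * X.t))| := abs_pos.2 hne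
  have hF := X.norm_FF_le C hC a b β s
  have h2 : |Real.sin (Real.pi * X.eps)| * (1 / |Real.sin (Real.pi * (X.mm s * X.t))|) ≤ M := by
    rw [mul_one_div, div_le_iff₀ hp]
    exact hb
  calc |Real.sin (Real.pi * X.eps)| * (‖X.FF a b β s‖ * (1 / |Real.sin (Real.pi * (X.mm s * X.t))|))
      = ‖X.FF a b β s‖ * (|Real.sin (Real.pi * X.eps)| * (1 / |Real.sin (Real.pi * (X.mm s * X.t))|)) := by
        ring
    _ ≤ C * M := mul_le_mul hF h2 (by positivity) hC0

end Dat

theorem inv_diff (A B : ℝ) (hA : A ≠ 0) (hB : B ≠ 0) : 1 / A - 1 / B = (B - A) / (A * B) := by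
  field_simp

theorem half_sum (M : ℝ) (hM : 1 ≤ M) : ∃ C : ℝ, 1 ≤ C ∧ (∀ X : Dat M, ∀ m0 ≤ X.d, |GG X.t X.eps m0| ≤ C) ∧
    ∀ X : Dat M, ∀ a b : ℤ, ∀ β : ℝ, |β| * X.d ≤ 1 →
      |Real.sin (Real.pi * X.eps)| *
        ‖∑ s ∈ Ico 1 ((X.d + 1) / 2), X.FF a b β s * ((1 / Real.sin (Real.pi * X.th s) : ℝ) : ℂ)‖ ≤ C := by
  obtain ⟨C, hC1, hGG, hU⟩ := U_bound M hM
  set S := ⌈2 * M⌉₊ with hS
  have hSR : 2 * M ≤ S := Nat.le_ceil _
  have hS1 : (1 : ℝ) ≤ S := by linarith
  have hSpos : 0 < S := by exact_mod_cast (by linarith : (0 : ℝ) < S)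
  have hMC : 1 ≤ C * M := by nlinarith
  refine ⟨C + S * (C * M) + 10 * M ^ 2 * C + 256 * (C * M), ?_, ?_, ?_⟩
  · have : 0 ≤ S * (C * M) := by positivity
    have : 0 ≤ M ^ 2 * C := by positivity
    linarith
  · intro X m0 hm0
    have := hGG X m0 hm0
    have : 0 ≤ S * (C * M) := by positivity
    have : 0 ≤ M ^ 2 * C := by positivity
    linarith
  intro X a b β hβ
  have hd := X.dpos
  have hK := X.hK
  have hdn : 0 < X.d := by have := X.hd; omega
  set h := (X.d + 1) / 2 with hh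
  set F : ℕ → ℂ := fun s => X.FF a b β s * ((1 / Real.sin (Real.pi * X.th s) : ℝ) : ℂ) with hF
  have hsineps := X.sin_eps_le
  set E := |Real.sin (Real.pi * X.eps)| with hE
  have hE0 : 0 ≤ E := abs_nonneg _
  -- small part
  have hsmall : ∀ T, T ≤ S + 1 → T ≤ h → E * ‖∑ s ∈ Ico 1 T, F s‖ ≤ S * (C * M) := by
    intro T hT hTh
    have h1 : E * ‖∑ s ∈ Ico 1 T, F s‖ ≤ ∑ s ∈ Ico 1 T, E * ‖F s‖ := by
      rw [← mul_sum]
      exact mul_le_mul_of_nonneg_left (norm_sum_le _ _) hE0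
    refine h1.trans ?_
    have h2 : ∀ s ∈ Ico 1 T, E * ‖F s‖ ≤ C * M := by
      intro s hs
      rw [mem_Ico] at hs
      exact X.one_term C (hGG X) a b β s (by omega) (by omega)
    refine (sum_le_sum h2).trans ?_
    rw [sum_const, Nat.card_Ico, nsmul_eq_mul]
    apply mul_le_mul_of_nonneg_right _ (by linarith)
    exact_mod_cast (by omega : T - 1 ≤ S)
  have hp1 : 0 ≤ S * (C * M) := by positivity
  have hp2 : 0 ≤ M ^ 2 * C := by positivity
  by_cases hhS : h ≤ S + 1
  · have := hsmall h hhS le_rfl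
    linarith
  push Not at hhS
  have hsplit : ∑ s ∈ Ico 1 h, F s = ∑ s ∈ Ico 1 (S + 1), F s
      + ∑ s ∈ Ico (S + 1) h, X.FF a b β s * (((1 / Real.sin (Real.pi * X.th s)
          - 1 / Real.sin (Real.pi * (s / X.d)) : ℝ)) : ℂ)
      + ∑ s ∈ Ico (S + 1) h, ((1 / Real.sin (Real.pi * (s / X.d)) : ℝ) : ℂ) * X.FF a b β s := by
    rw [← sum_Ico_consecutive F (by omega : 1 ≤ S + 1) (by omega : S + 1 ≤ h), add_assoc, ← sum_add_distrib]
    congr 1
    apply sum_congr rfl
    intro s _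
    simp only [hF]
    push_cast
    ring
  have b1 := hsmall (S + 1) le_rfl (by omega)
  have b2 : E * ‖∑ s ∈ Ico (S + 1) h, X.FF a b β s * (((1 / Real.sin (Real.pi * X.th s)
          - 1 / Real.sin (Real.pi * (s / X.d)) : ℝ)) : ℂ)‖ ≤ 10 * M ^ 2 * C := by
    have h1 : E * ‖∑ s ∈ Ico (S + 1) h, X.FF a b β s * (((1 / Real.sin (Real.pi * X.th s)
          - 1 / Real.sin (Real.pi * (s / X.d)) : ℝ)) : ℂ)‖
        ≤ ∑ s ∈ Ico (S + 1) h, E * ‖X.FF a b β s * (((1 / Real.sin (Real.pi * X.th s)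
          - 1 / Real.sin (Real.pi * (s / X.d)) : ℝ)) : ℂ)‖ := by
      rw [← mul_sum]
      exact mul_le_mul_of_nonneg_left (norm_sum_le _ _) hE0
    refine h1.trans ?_
    have h2 : ∀ s ∈ Ico (S + 1) h, E * ‖X.FF a b β s * (((1 / Real.sin (Real.pi * X.th s)
          - 1 / Real.sin (Real.pi * (s / X.d)) : ℝ)) : ℂ)‖ ≤ 10 * M ^ 2 * C * (1 / (s : ℝ) ^ 2) := by
      intro s hs
      rw [mem_Ico] at hs
      obtain ⟨σ, hσ0, hσS, hs1, hs2, hs3⟩ := X.mid S hSR s hs.1 (by omega)
      have hs0 : (0 : ℝ) < s := by exact_mod_cast (by omega : 0 < s)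
      have hds : (s : ℝ) ≤ ((X.d - s : ℕ) : ℝ) := by exact_mod_cast (by omega : s ≤ X.d - s)
      have hs4 : 1 / σ ^ 2 ≤ 2 * (1 / (s : ℝ) ^ 2) := by
        have : 1 / ((X.d - s : ℕ) : ℝ) ^ 2 ≤ 1 / (s : ℝ) ^ 2 := by
          apply one_div_le_one_div_of_le (by positivity)
          exact pow_le_pow_left₀ hs0.le hds 2
        linarith
      have hp : 0 < σ / X.d := by positivity
      have n1 : 0 < Real.sin (Real.pi * X.th s) := lt_of_lt_of_le hp hs2
      have n2 : 0 < Real.sin (Real.pi * (s / X.d)) := lt_of_lt_of_le (by positivity) hs1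
      have hdiff : |1 / Real.sin (Real.pi * X.th s) - 1 / Real.sin (Real.pi * (s / X.d))|
          ≤ (Real.pi * (M / X.d)) / ((σ / X.d) * (2 * (σ / X.d))) := by
        have e1 : 1 / Real.sin (Real.pi * X.th s) - 1 / Real.sin (Real.pi * (s / X.d))
            = (Real.sin (Real.pi * (s / X.d)) - Real.sin (Real.pi * X.th s))
              / (Real.sin (Real.pi * X.th s) * Real.sin (Real.pi * (s / X.d))) :=
          inv_diff _ _ n1.ne' n2.ne'
        rw [e1, abs_div, abs_of_pos (mul_pos n1 n2)]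
        have hnum : |Real.sin (Real.pi * (s / X.d)) - Real.sin (Real.pi * X.th s)| ≤ Real.pi * (M / X.d) := by
          refine (Real.abs_sin_sub_sin_le _ _).trans ?_
          have : Real.pi * ((s : ℝ) / X.d) - Real.pi * X.th s = -(Real.pi * ((X.mm s * X.eps) / X.d)) := by
            unfold Dat.th; ring
          rw [this, abs_neg, abs_mul, abs_of_pos Real.pi_pos, abs_div, abs_of_pos hd]
          apply mul_le_mul_of_nonneg_left _ Real.pi_pos.le
          exact div_le_div_of_nonneg_right (X.mmeps_le' s) hd.le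
        have hden : (σ / X.d) * (2 * (σ / X.d)) ≤ Real.sin (Real.pi * X.th s) * Real.sin (Real.pi * (s / X.d)) :=
          mul_le_mul hs2 hs1 (by positivity) (by linarith)
        exact div_le_div₀ (by positivity) hnum (by positivity) hden
      rw [norm_mul, Complex.norm_real, Real.norm_eq_abs]
      have hFle := X.norm_FF_le C (hGG X) a b β s
      have hprod : E * |1 / Real.sin (Real.pi * X.th s) - 1 / Real.sin (Real.pi * (s / X.d))|
          ≤ 10 * M ^ 2 * (1 / (s : ℝ) ^ 2) := by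
        calc E * |1 / Real.sin (Real.pi * X.th s) - 1 / Real.sin (Real.pi * (s / X.d))|
            ≤ (Real.pi * (M / (X.K * X.d))) * ((Real.pi * (M / X.d)) / ((σ / X.d) * (2 * (σ / X.d)))) :=
              mul_le_mul hsineps hdiff (abs_nonneg _) (by positivity)
          _ = (Real.pi ^ 2 / 2) * M ^ 2 * (1 / σ ^ 2) / X.K := by field_simp
          _ ≤ (Real.pi ^ 2 / 2) * M ^ 2 * (1 / σ ^ 2) := div_le_self (by positivity) hK
          _ ≤ 5 * M ^ 2 * (1 / σ ^ 2) := by
              have : Real.pi ^ 2 / 2 ≤ 5 := by nlinarith [Real.pi_lt_d2, Real.pi_pos]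
              have h9 : 0 ≤ M ^ 2 * (1 / σ ^ 2) := by positivity
              nlinarith
          _ ≤ 5 * M ^ 2 * (2 * (1 / (s : ℝ) ^ 2)) := mul_le_mul_of_nonneg_left hs4 (by positivity)
          _ = _ := by ring
      calc E * (‖X.FF a b β s‖ * |1 / Real.sin (Real.pi * X.th s) - 1 / Real.sin (Real.pi * (s / X.d))|)
          = ‖X.FF a b β s‖ * (E * |1 / Real.sin (Real.pi * X.th s) - 1 / Real.sin (Real.pi * (s / X.d))|) := by
            ring
        _ ≤ C * (10 * M ^ 2 * (1 / (s : ℝ) ^ 2)) := mul_le_mul hFle hprod (by positivity) (by linarith)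
        _ = _ := by ring
    refine (sum_le_sum h2).trans ?_
    rw [← mul_sum]
    have h3 := sum_inv_sq_le S h hSpos
    have h4 : 1 / (S : ℝ) ≤ 1 := by rw [div_le_one (by linarith)]; exact hS1
    calc 10 * M ^ 2 * C * ∑ s ∈ Ico (S + 1) h, 1 / (s : ℝ) ^ 2 ≤ 10 * M ^ 2 * C * 1 :=
          mul_le_mul_of_nonneg_left (h3.trans h4) (by positivity)
      _ = _ := by ring
  have b3 : E * ‖∑ s ∈ Ico (S + 1) h, ((1 / Real.sin (Real.pi * (s / X.d)) : ℝ) : ℂ) * X.FF a b β s‖
      ≤ 256 * (C * M) := by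
    set y : ℕ → ℝ := fun n => (n : ℝ) ^ ((1 : ℝ) / 64) with hy
    have hy0 : ∀ n, 0 ≤ y n := fun n => by simp only [hy]; positivity
    have hy64 : ∀ n, y n ^ 64 = n := by
      intro n
      simp only [hy]
      rw [← Real.rpow_natCast, ← Real.rpow_mul (by positivity)]
      norm_num
    have hymono : ∀ n m : ℕ, n ≤ m → y n ≤ y m := by
      intro n m hnm
      apply le_of_pow_le_pow_left₀ (by norm_num : 64 ≠ 0) (hy0 _)
      rw [hy64, hy64]
      exact_mod_cast hnm
    have hab := abel_pow 64 (by norm_num) S h (X.FF a b β) (fun s => 1 / Real.sin (Real.pi * (s / X.d)))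
      y hy0 hy64 (2 * C * X.K) (X.d / 2) (by positivity) (by positivity)
      (by
        intro n h1 h2
        have u1 := hU X a b β hβ n (by omega) (by omega) (y n) (hy0 n) (hy64 n)
        have u2 := hU X a b β hβ S hSpos (by omega) (y S) (hy0 S) (hy64 S)
        have u3 : y S ^ 63 ≤ y n ^ 63 := pow_le_pow_left₀ (hy0 S) (hymono S n (by omega)) 63
        have u4 : ∑ s ∈ Ico (S + 1) (n + 1), X.FF a b β s
            = ∑ s ∈ Ico 1 (n + 1), X.FF a b β s - ∑ s ∈ Ico 1 (S + 1), X.FF a b β s := by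
          rw [← sum_Ico_consecutive (fun s => X.FF a b β s) (by omega : 1 ≤ S + 1) (by omega : S + 1 ≤ n + 1)]
          ring
        rw [u4]
        refine (norm_sub_le _ _).trans ?_
        have u5 : C * X.K * y S ^ 63 ≤ C * X.K * y n ^ 63 := mul_le_mul_of_nonneg_left u3 (by positivity)
        have u6 : (64 : ℕ) - 1 = 63 := by norm_num
        rw [u6]
        linarith)
      (by
        intro s h1 h2
        apply div_nonneg zero_le_one
        apply Real.sin_nonneg_of_nonneg_of_le_pi (by positivity)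
        have : (s : ℝ) / X.d ≤ 1 := by
          rw [div_le_one hd]; exact_mod_cast (by omega : s ≤ X.d)
        nlinarith [Real.pi_pos])
      (by
        intro s h1 h2
        have hs0 : (0 : ℝ) < s := by exact_mod_cast (by omega : 0 < s)
        have hle : ((s + 1 : ℕ) : ℝ) / X.d ≤ 1 / 2 := by
          rw [div_le_div_iff₀ hd two_pos]
          have : (s + 1) * 2 ≤ 1 * X.d := by omega
          exact_mod_cast this
        have hlt : (s : ℝ) / X.d ≤ ((s + 1 : ℕ) : ℝ) / X.d := by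
          apply div_le_div_of_nonneg_right _ hd.le
          push_cast; linarith
        have hpos : 0 < Real.sin (Real.pi * ((s : ℝ) / X.d)) := by
          apply Real.sin_pos_of_pos_of_lt_pi (by positivity)
          have : (s : ℝ) / X.d ≤ 1 / 2 := hlt.trans hle
          nlinarith [Real.pi_pos]
        apply one_div_le_one_div_of_le hpos
        apply Real.sin_le_sin_of_le_of_le_pi_div_two
        · have : 0 ≤ Real.pi * ((s : ℝ) / X.d) := by positivity
          linarith [Real.pi_pos]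
        · nlinarith [Real.pi_pos]
        · exact mul_le_mul_of_nonneg_left hlt Real.pi_pos.le)
      (by
        intro s h1 h2
        have hs0 : (0 : ℝ) < s := by exact_mod_cast (by omega : 0 < s)
        have hv : (s : ℝ) / X.d ≤ 1 / 2 := by
          rw [div_le_div_iff₀ hd two_pos]
          have : s * 2 ≤ 1 * X.d := by omega
          exact_mod_cast this
        have hv0 : 0 < (s : ℝ) / X.d := by positivity
        have hsin := sin_lower ((s : ℝ) / X.d) hv0.le (by linarith) (s / X.d) le_rfl (by linarith)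
        have hpos : 0 < 2 * ((s : ℝ) / X.d) := by positivity
        calc 1 / Real.sin (Real.pi * ((s : ℝ) / X.d)) * s
            ≤ 1 / (2 * ((s : ℝ) / X.d)) * s :=
              mul_le_mul_of_nonneg_right (one_div_le_one_div_of_le hpos hsin) hs0.le
          _ = X.d / 2 := by field_simp)
    have hyS : 1 ≤ y (S + 1) := by
      have h1 := hymono 1 (S + 1) (by omega)
      have h2 : y 1 = 1 := by simp [hy]
      linarith
    set W := ‖∑ s ∈ Ico (S + 1) h, ((1 / Real.sin (Real.pi * (s / X.d)) : ℝ) : ℂ) * X.FF a b β s‖ with hW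
    have hW0 : 0 ≤ W := norm_nonneg _
    have hWle : W ≤ 2 * C * X.K * (X.d / 2) * ((64 : ℕ) : ℝ) := by
      refine le_trans ?_ hab
      exact le_mul_of_one_le_right hW0 hyS
    calc E * W ≤ (Real.pi * (M / (X.K * X.d))) * (2 * C * X.K * (X.d / 2) * ((64 : ℕ) : ℝ)) :=
          mul_le_mul hsineps hWle hW0 (by positivity)
      _ = 64 * Real.pi * (C * M) := by push_cast; field_simp
      _ ≤ 256 * (C * M) := by
          have := Real.pi_lt_four
          nlinarith
  rw [hsplit]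
  have t1 := norm_add₃_le (a := ∑ s ∈ Ico 1 (S + 1), F s)
    (b := ∑ s ∈ Ico (S + 1) h, X.FF a b β s * (((1 / Real.sin (Real.pi * X.th s)
          - 1 / Real.sin (Real.pi * (s / X.d)) : ℝ)) : ℂ))
    (c := ∑ s ∈ Ico (S + 1) h, ((1 / Real.sin (Real.pi * (s / X.d)) : ℝ) : ℂ) * X.FF a b β s)
  have t2 := mul_le_mul_of_nonneg_left t1 hE0
  rw [mul_add, mul_add] at t2
  linarith

end Pool.Agent.Helper74.RR
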