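import Mathlib
import Pool.Agent.Helper74.RR.R11

set_option autoImplicit false

namespace Pool.Agent.Helper74.RR

open Finset

theorem GG_neg (t ε : ℝ) (m : ℕ) : GG (-t) (-ε) m = GG t ε m := by
  unfold GG
  apply prod_congr rfl
  intro i _
  have h1 : Real.pi * (i * -t - -ε) = -(Real.pi * (i * t - ε)) := by ring
  have h2 : Real.pi * (i * -t) = -(Real.pi * (i * t)) := by ring
  rw [h1, h2, Real.sin_neg, Real.sin_neg, neg_div_neg_eq]

theorem HS_neg (t ε : ℝ) (a : ℤ) (lam : ℝ) (m : ℕ) :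
    HS (-t) (-ε) a (-lam) m = -(starRingEnd ℂ) (HS t ε a lam m) := by
  unfold HS
  rw [GG_neg]
  have h2 : Real.pi * (m * -t) = -(Real.pi * (m * t)) := by ring
  rw [h2, Real.sin_neg, map_mul, Complex.conj_ofReal]
  split_ifs
  · rw [← e_neg]
    have h3 : -(-t) * (m : ℝ) ^ 2 / 10 + -lam * m = -(-t * (m : ℝ) ^ 2 / 10 + lam * m) := by ring
    rw [h3, div_neg]
    push_cast
    ring
  · simp

namespace Dat

variable {M : ℝ} (X : Dat M)

/-- reflected data -/
noncomputable def neg : Dat M where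
  d := X.d
  c := -X.c
  cb := -X.cb
  l0 := X.l0
  t := -X.t
  K := X.K
  hd := X.hd
  hM := X.hM
  hK := X.hK
  hc := by have := X.hc; linarith
  h1 := by
    have : (X.d : ℝ) * -X.t - ((-X.c : ℤ) : ℝ) = -(X.d * X.t - X.c) := by push_cast; ring
    rw [this, abs_neg]; exact X.h1
  h2 := by
    intro q hq0 hqd p
    have : (q : ℝ) * (((-X.cb : ℤ) : ℝ) / X.d) - p = -(q * ((X.cb : ℝ) / X.d) - ((-p : ℤ) : ℝ)) := by
      push_cast; ring
    rw [this, abs_neg]; exact X.h2 q hq0 hqd (-p)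
  h3 := by
    intro m hm0 hmd
    have e1 : Real.pi * ((X.d : ℝ) * -X.t - ((-X.c : ℤ) : ℝ)) = -(Real.pi * (X.d * X.t - X.c)) := by
      push_cast; ring
    have e2 : Real.pi * ((m : ℝ) * -X.t) = -(Real.pi * (m * X.t)) := by ring
    rw [e1, e2, Real.sin_neg, Real.sin_neg, abs_neg, abs_neg]
    exact X.h3 m hm0 hmd
  h4 := by
    intro m hm0 hmd
    have e2 : Real.pi * ((m : ℝ) * -X.t) = -(Real.pi * (m * X.t)) := by ring
    rw [e2, Real.sin_neg, neg_ne_zero]
    exact X.h4 m hm0 hmd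

theorem neg_eps : X.neg.eps = -X.eps := by
  unfold eps neg
  push_cast
  ring

theorem neg_mm (s : ℕ) (h0 : 0 < s) (h1 : s < X.d) : X.neg.mm s = X.d - X.mm s := by
  have hp := X.mm_pos s h0 h1
  have hl := X.mm_lt s
  have h2 := X.mm_spec s
  have e1 : ((X.neg.mm s : ℕ) : ℤ) = (X.d : ℤ) - X.mm s := by
    rw [mm_cast]
    have : X.neg.cb * (s : ℤ) = ((X.d : ℤ) - X.mm s) + X.neg.d * (-X.kq s - 1) := by
      show -X.cb * (s : ℤ) = ((X.d : ℤ) - X.mm s) + X.d * (-X.kq s - 1)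
      linear_combination -h2
    rw [this, Int.add_mul_emod_self_left]
    show ((X.d : ℤ) - X.mm s) % X.d = _
    apply Int.emod_eq_of_lt <;> omega
  omega

end Dat

theorem full_sum (M : ℝ) (hM : 1 ≤ M) : ∃ C : ℝ, 1 ≤ C ∧ ∀ X : Dat M, ∀ a : ℤ, ∀ lam : ℝ,
    |Real.sin (Real.pi * X.eps)| * ‖∑ m ∈ Ico 1 X.d, HS X.t X.eps a lam m‖ ≤ C := by
  obtain ⟨C, hC1, hGG, hH⟩ := half_sum M hM
  refine ⟨2 * C + C * M, by nlinarith, ?_⟩
  have hhalf : ∀ X : Dat M, ∀ a : ℤ, ∀ lam : ℝ,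
      |Real.sin (Real.pi * X.eps)| * ‖∑ s ∈ Ico 1 ((X.d + 1) / 2), HS X.t X.eps a lam (X.mm s)‖ ≤ C := by
    intro X a lam
    have hd := X.dpos
    set b : ℤ := round (lam * X.d) with hb
    set β : ℝ := lam - b / X.d with hβ
    have hβd : |β| * X.d ≤ 1 := by
      have h1 : |lam * X.d - b| ≤ 1 / 2 := abs_sub_round _
      have h2 : |β| * X.d = |lam * X.d - b| := by
        rw [← abs_of_pos hd, ← abs_mul, abs_of_pos hd]
        congr 1
        rw [hβ]
        field_simp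
      rw [h2]; linarith
    have := hH X a b β hβd
    have hl : β + b / X.d = lam := by rw [hβ]; ring
    have hs : ∑ s ∈ Ico 1 ((X.d + 1) / 2), HS X.t X.eps a lam (X.mm s)
        = ∑ s ∈ Ico 1 ((X.d + 1) / 2), X.FF a b β s * ((1 / Real.sin (Real.pi * X.th s) : ℝ) : ℂ) := by
      apply sum_congr rfl
      intro s _
      rw [← X.term_eq a b β s, hl]
    rw [hs]; exact this
  have hsingle : ∀ X : Dat M, ∀ a : ℤ, ∀ lam : ℝ, ∀ s : ℕ, 0 < s → s < X.d →
      |Real.sin (Real.pi * X.eps)| * ‖HS X.t X.eps a lam (X.mm s)‖ ≤ C * M := by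
    intro X a lam s h0 h1
    have := X.term_eq a 0 lam s
    have hz : lam + ((0 : ℤ) : ℝ) / X.d = lam := by simp
    rw [hz] at this
    rw [this]
    exact X.one_term C (hGG X) a 0 lam s h0 h1
  intro X a lam
  have hd := X.dpos
  have hd2 := X.hd
  set h := (X.d + 1) / 2 with hh
  set E := |Real.sin (Real.pi * X.eps)| with hE
  have hE0 : 0 ≤ E := abs_nonneg _
  set f : ℕ → ℂ := fun s => HS X.t X.eps a lam (X.mm s) with hf
  have hbij : ∑ m ∈ Ico 1 X.d, HS X.t X.eps a lam m = ∑ s ∈ Ico 1 X.d, f s := by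
    symm
    exact Finset.sum_nbij X.mm X.mm_maps X.mm_inj X.mm_surj (fun s _ => rfl)
  have hsplit : ∑ s ∈ Ico 1 X.d, f s = ∑ s ∈ Ico 1 h, f s + ∑ s ∈ Ico h X.d, f s :=
    (sum_Ico_consecutive f (by omega) (by omega)).symm
  have hrefl := sum_Ico_reflect f 1 (n := X.d) (m := X.d - h + 1) (by omega)
  have hi1 : X.d + 1 - (X.d - h + 1) = h := by omega
  have hi2 : X.d + 1 - 1 = X.d := by omega
  rw [hi1, hi2] at hrefl
  have hsecond : E * ‖∑ j ∈ Ico 1 h, f (X.d - j)‖ ≤ C := by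
    have h1 := hhalf X.neg a (-lam)
    have h2 : |Real.sin (Real.pi * X.neg.eps)| = E := by
      rw [X.neg_eps, mul_neg, Real.sin_neg, abs_neg]
    have h3 : ∑ s ∈ Ico 1 ((X.neg.d + 1) / 2), HS X.neg.t X.neg.eps a (-lam) (X.neg.mm s)
        = -(starRingEnd ℂ) (∑ j ∈ Ico 1 h, f (X.d - j)) := by
      rw [map_sum, ← sum_neg_distrib]
      show ∑ s ∈ Ico 1 h, HS (-X.t) X.neg.eps a (-lam) (X.neg.mm s) = _
      apply sum_congr rfl
      intro s hs
      rw [mem_Ico] at hs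
      rw [X.neg_eps, HS_neg, X.neg_mm s (by omega) (by omega)]
      simp only [hf]
      rw [X.mm_reflect s (by omega) (by omega)]
    rw [h2, h3, norm_neg, Complex.norm_conj] at h1
    exact h1
  have hfirst : E * ‖∑ s ∈ Ico 1 h, f s‖ ≤ C := hhalf X a lam
  have hsec2 : E * ‖∑ s ∈ Ico h X.d, f s‖ ≤ C + C * M := by
    rw [← hrefl]
    have hCM : 0 ≤ C * M := by nlinarith
    rcases Nat.even_or_odd' X.d with ⟨w, hw | hw⟩
    · have e2 : X.d - h + 1 = h + 1 := by omega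
      rw [e2, sum_Ico_succ_top (by omega)]
      have h1 := norm_add_le (∑ j ∈ Ico 1 h, f (X.d - j)) (f (X.d - h))
      have h2 := hsingle X a lam (X.d - h) (by omega) (by omega)
      have h3 := mul_le_mul_of_nonneg_left h1 hE0
      rw [mul_add] at h3
      have h4 : E * ‖f (X.d - h)‖ ≤ C * M := h2
      linarith
    · have e2 : X.d - h + 1 = h := by omega
      rw [e2]
      linarith
  rw [hbij, hsplit]
  have h1 := norm_add_le (∑ s ∈ Ico 1 h, f s) (∑ s ∈ Ico h X.d, f s)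
  have h3 := mul_le_mul_of_nonneg_left h1 hE0
  rw [mul_add] at h3
  linarith

/-- the sum of Gaussian binomials over a class modulo five -/
theorem key5 (M : ℝ) (hM : 1 ≤ M) : ∃ C : ℝ, 1 ≤ C ∧ ∀ X : Dat M, ∀ mu : ℤ, ∀ lam : ℝ,
    ‖∑ k ∈ (range (X.d + 1)).filter (fun k : ℕ => ((k : ℤ) - mu) % 5 = 0),
      e (2 / 5 * X.t * (k : ℝ) ^ 2 + lam * k) * gb X.t X.d k‖ ≤ C := by
  obtain ⟨C, hC1, hC⟩ := full_sum M hM
  refine ⟨2 + 2 * C, by linarith, ?_⟩
  intro X mu lam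
  have hd := X.dpos
  have hd2 := X.hd
  rw [sum_filter]
  set g : ℕ → ℂ := fun k => if ((k : ℤ) - mu) % 5 = 0 then
    e (2 / 5 * X.t * (k : ℝ) ^ 2 + lam * k) * gb X.t X.d k else 0 with hg
  have hsplit : ∑ k ∈ range (X.d + 1), g k = g 0 + ∑ k ∈ Ico 1 X.d, g k + g X.d := by
    rw [sum_range_succ, range_eq_Ico, sum_eq_sum_Ico_succ_bot (by omega : 0 < X.d)]
  have h0 : ‖g 0‖ ≤ 1 := by
    simp only [hg]
    split_ifs
    · rw [norm_mul, norm_e]
      have : gb X.t X.d ((0 : ℕ) : ℤ) = 1 := gb_zero X.t X.d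
      rw [this]; simp
    · simp
  have h1 : ‖g X.d‖ ≤ 1 := by
    simp only [hg]
    split_ifs
    · rw [norm_mul, norm_e, gb_self]; simp
    · simp
  set lam' : ℝ := lam + X.d * X.t / 2 + (X.c + 1) / 2 with hlam'
  have h2 : ∑ k ∈ Ico 1 X.d, g k
      = -((Real.sin (Real.pi * X.eps) : ℝ) : ℂ) * (∑ m ∈ Ico 1 X.d, HS X.t X.eps mu lam' m)
        + -((Real.sin (Real.pi * X.eps) : ℝ) : ℂ) * (∑ m ∈ Ico 1 X.d, HS X.t X.eps (mu + 5) lam' m) := by
    rw [← mul_add, ← sum_add_distrib, mul_sum]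
    apply sum_congr rfl
    intro k hk
    rw [mem_Ico] at hk
    have hgb := gb_GG X.t X.d X.c k hk.1 (fun i h1 h2 => X.h4 i (by omega) (by omega))
    have hee : X.d * X.t - X.c = X.eps := rfl
    rw [hee] at hgb
    have hph : e (2 / 5 * X.t * (k : ℝ) ^ 2 + lam * k) * e (k * (X.d - k) * X.t / 2 + k * (X.c + 1) / 2)
        = e (-X.t * (k : ℝ) ^ 2 / 10 + lam' * k) := by
      rw [← e_add]
      congr 1
      rw [hlam']
      ring
    simp only [hg]
    unfold HS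
    by_cases hc : ((k : ℤ) - mu) % 5 = 0
    · rw [if_pos hc, hgb]
      by_cases hc2 : ((k : ℤ) - mu) % 10 = 0
      · rw [if_pos hc2, if_neg (by omega)]
        push_cast at hph ⊢
        linear_combination (-(Complex.sin (Real.pi * X.eps) * (GG X.t X.eps k : ℂ)
          / Complex.sin (Real.pi * (k * X.t)))) * hph
      · rw [if_neg hc2, if_pos (by omega)]
        push_cast at hph ⊢
        linear_combination (-(Complex.sin (Real.pi * X.eps) * (GG X.t X.eps k : ℂ)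
          / Complex.sin (Real.pi * (k * X.t)))) * hph
    · rw [if_neg hc, if_neg (by omega), if_neg (by omega)]
      ring
  have h3 : ‖∑ k ∈ Ico 1 X.d, g k‖ ≤ 2 * C := by
    rw [h2]
    refine (norm_add_le _ _).trans ?_
    rw [norm_mul, norm_mul, norm_neg, Complex.norm_real, Real.norm_eq_abs]
    have a1 := hC X mu lam'
    have a2 := hC X (mu + 5) lam'
    linarith
  rw [hsplit]
  have := norm_add₃_le (a := g 0) (b := ∑ k ∈ Ico 1 X.d, g k) (c := g X.d)
  linarith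

end Pool.Agent.Helper74.RR
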