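import Mathlib
import Pool.Agent.Helper74.RR.R12

set_option autoImplicit false

namespace Pool.Agent.Helper74.RR

open Finset

theorem jsum (M : ℝ) (hM : 1 ≤ M) : ∃ C : ℝ, 1 ≤ C ∧ ∀ X : Dat M, ∀ n s p : ℤ, (p = 0 ∨ p = 1) →
    ∀ lam u : ℝ, ∀ N : ℕ, (X.d : ℤ) + |n| + 2 * |s| + 10 ≤ N →
    ‖∑ j ∈ (Icc (-(N : ℤ)) N).filter (fun j => j % 2 = p),
      e (5 / 2 * X.t * (j : ℝ) ^ 2 + lam * j + u) * gb X.t X.d ((n - 5 * j) / 2 + s)‖ ≤ C := by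
  obtain ⟨C, hC1, hC⟩ := key5 M hM
  refine ⟨C, hC1, ?_⟩
  intro X n s p hp lam u N hN
  set mu : ℤ := (n - 5 * p) / 2 + s with hmu
  set Lam : ℝ := -(4 / 5) * X.t * mu - 2 * p * X.t - 2 / 5 * lam with hLam
  set U : ℝ := 2 / 5 * X.t * mu ^ 2 + 2 * p * X.t * mu + 5 / 2 * X.t * p ^ 2 + 2 / 5 * lam * mu
    + lam * p + u with hU
  have hn1 := le_abs_self n
  have hn2 := neg_abs_le n
  have hs1 := le_abs_self s
  have hs2 := neg_abs_le s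
  generalize |n| = an at *
  generalize |s| = as at *
  have hrestrict : ∑ j ∈ (Icc (-(N : ℤ)) N).filter (fun j => j % 2 = p),
      e (5 / 2 * X.t * (j : ℝ) ^ 2 + lam * j + u) * gb X.t X.d ((n - 5 * j) / 2 + s)
      = ∑ j ∈ (Icc (-(N : ℤ)) N).filter (fun j => j % 2 = p ∧ 0 ≤ (n - 5 * j) / 2 + s
          ∧ (n - 5 * j) / 2 + s ≤ X.d),
      e (5 / 2 * X.t * (j : ℝ) ^ 2 + lam * j + u) * gb X.t X.d ((n - 5 * j) / 2 + s) := by
    symm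
    apply sum_subset
    · intro j hj
      rw [mem_filter] at hj ⊢
      exact ⟨hj.1, hj.2.1⟩
    · intro j hj hj2
      rw [mem_filter] at hj
      by_cases h1 : (n - 5 * j) / 2 + s < 0
      · rw [gb_neg _ _ _ h1, mul_zero]
      · rw [gb_large, mul_zero]
        by_contra h2
        apply hj2
        rw [mem_filter]
        exact ⟨hj.1, hj.2, by omega, by omega⟩
  have hval : ∑ j ∈ (Icc (-(N : ℤ)) N).filter (fun j => j % 2 = p ∧ 0 ≤ (n - 5 * j) / 2 + s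
          ∧ (n - 5 * j) / 2 + s ≤ X.d),
      e (5 / 2 * X.t * (j : ℝ) ^ 2 + lam * j + u) * gb X.t X.d ((n - 5 * j) / 2 + s)
      = ∑ k ∈ (range (X.d + 1)).filter (fun k : ℕ => ((k : ℤ) - mu) % 5 = 0),
        e U * (e (2 / 5 * X.t * (k : ℝ) ^ 2 + Lam * k) * gb X.t X.d k) := by
    apply sum_nbij' (fun j => ((n - 5 * j) / 2 + s).toNat) (fun k => 2 * ((mu - k) / 5) + p)
    · intro j hj
      rw [mem_filter, mem_Icc] at hj
      rw [mem_filter, mem_range]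
      obtain ⟨hj1, hj2, hj3, hj4⟩ := hj
      have h1 : ((((n - 5 * j) / 2 + s).toNat : ℕ) : ℤ) = (n - 5 * j) / 2 + s := Int.toNat_of_nonneg hj3
      refine ⟨by omega, ?_⟩
      rw [h1, hmu]
      omega
    · intro k hk
      rw [mem_filter, mem_range] at hk
      rw [mem_filter, mem_Icc]
      obtain ⟨hk1, hk2⟩ := hk
      rcases hp with rfl | rfl <;> refine ⟨⟨by omega, by omega⟩, by omega, by omega, by omega⟩
    · intro j hj
      rw [mem_filter, mem_Icc] at hj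
      obtain ⟨hj1, hj2, hj3, hj4⟩ := hj
      have h1 : ((((n - 5 * j) / 2 + s).toNat : ℕ) : ℤ) = (n - 5 * j) / 2 + s := Int.toNat_of_nonneg hj3
      simp only [h1]
      rcases hp with rfl | rfl <;> omega
    · intro k hk
      rw [mem_filter, mem_range] at hk
      obtain ⟨hk1, hk2⟩ := hk
      rcases hp with rfl | rfl <;> omega
    · intro j hj
      rw [mem_filter, mem_Icc] at hj
      obtain ⟨hj1, hj2, hj3, hj4⟩ := hj
      have h1 : ((((n - 5 * j) / 2 + s).toNat : ℕ) : ℤ) = (n - 5 * j) / 2 + s := Int.toNat_of_nonneg hj3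
      have h1R : ((((n - 5 * j) / 2 + s).toNat : ℕ) : ℝ) = (((n - 5 * j) / 2 + s : ℤ) : ℝ) := by
        exact_mod_cast h1
      rw [h1, h1R, ← mul_assoc, ← e_add]
      have hk : 5 * j = 2 * (mu - ((n - 5 * j) / 2 + s)) + 5 * p := by
        rcases hp with rfl | rfl <;> omega
      generalize (n - 5 * j) / 2 + s = k at *
      have hkR : (5 : ℝ) * j = 2 * (mu - k) + 5 * p := by exact_mod_cast hk
      have hj' : (j : ℝ) = (2 * (mu - k) + 5 * p) / 5 := by linarith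
      congr 2
      rw [hj', hU, hLam]
      ring
  rw [hrestrict, hval, ← mul_sum, norm_mul, norm_e, one_mul]
  exact hC X mu Lam

theorem sum_parity (N : ℕ) (f : ℤ → ℂ) : ∑ j ∈ Icc (-(N : ℤ)) N, f j
    = ∑ j ∈ (Icc (-(N : ℤ)) N).filter (fun j => j % 2 = 0), f j
      + ∑ j ∈ (Icc (-(N : ℤ)) N).filter (fun j => j % 2 = 1), f j := by
  rw [← sum_filter_add_sum_filter_not (Icc (-(N : ℤ)) N) (fun j => j % 2 = 0)]
  congr 1
  apply sum_congr _ (fun _ _ => rfl)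
  apply filter_congr
  intro j _
  omega

theorem sch_bound (M : ℝ) (hM : 1 ≤ M) : ∃ C : ℝ, 1 ≤ C ∧ ∀ X : Dat M, ∀ s : ℤ, ∀ N : ℕ,
    (X.d : ℤ) + X.d + 2 * |s| + 20 ≤ N →
    ‖sch X.t s N X.d‖ ≤ C ∧ ‖sch X.t s N (X.d + 1)‖ ≤ C := by
  obtain ⟨C, hC1, hC⟩ := jsum M hM
  refine ⟨4 * C, by linarith, ?_⟩
  intro X s N hN
  have hs1 := le_abs_self s
  have hs2 := neg_abs_le s
  have hs3 : |s - 1| ≤ |s| + 1 := by
    have := abs_sub s 1
    simpa using this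
  set L : ℝ := 1 / 2 + X.t * (1 - 4 * s) / 2 with hL
  have hph : ∀ j : ℤ, ph X.t s j = 5 / 2 * X.t * (j : ℝ) ^ 2 + L * j + 0 := by
    intro j
    unfold ph
    rw [hL]
    ring
  have habs1 : |((X.d : ℕ) : ℤ)| = X.d := abs_of_nonneg (by positivity)
  have habs2 : |((X.d + 1 : ℕ) : ℤ)| = X.d + 1 := by rw [abs_of_nonneg (by positivity)]; push_cast; rfl
  constructor
  · have h1 : sch X.t s N X.d = ∑ j ∈ Icc (-(N : ℤ)) N,
        e (5 / 2 * X.t * (j : ℝ) ^ 2 + L * j + 0) * gb X.t X.d ((X.d - 5 * j) / 2 + s) := by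
      unfold sch kk
      apply sum_congr rfl
      intro j _
      rw [hph]
    rw [h1, sum_parity]
    refine (norm_add_le _ _).trans ?_
    have a1 := hC X X.d s 0 (Or.inl rfl) L 0 N (by rw [habs1]; omega)
    have a2 := hC X X.d s 1 (Or.inr rfl) L 0 N (by rw [habs1]; omega)
    linarith
  · have h1 : sch X.t s N (X.d + 1) = ∑ j ∈ Icc (-(N : ℤ)) N,
        e (5 / 2 * X.t * (j : ℝ) ^ 2 + L * j + 0) * gb X.t X.d ((((X.d + 1 : ℕ) : ℤ) - 5 * j) / 2 + (s - 1))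
        + ∑ j ∈ Icc (-(N : ℤ)) N, e (5 / 2 * X.t * (j : ℝ) ^ 2 + L * j + 0) *
          (e (X.t * (((((X.d + 1 : ℕ) : ℤ) - 5 * j) / 2 + s : ℤ) : ℝ))
            * gb X.t X.d ((((X.d + 1 : ℕ) : ℤ) - 5 * j) / 2 + s)) := by
      unfold sch kk
      rw [← sum_add_distrib]
      apply sum_congr rfl
      intro j _
      rw [gb_succ, hph]
      have : (((X.d + 1 : ℕ) : ℤ) - 5 * j) / 2 + s - 1 = (((X.d + 1 : ℕ) : ℤ) - 5 * j) / 2 + (s - 1) := by ring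
      rw [this]
      ring
    have h2 : ∀ p : ℤ, (p = 0 ∨ p = 1) →
        ‖∑ j ∈ (Icc (-(N : ℤ)) N).filter (fun j => j % 2 = p), e (5 / 2 * X.t * (j : ℝ) ^ 2 + L * j + 0) *
          (e (X.t * (((((X.d + 1 : ℕ) : ℤ) - 5 * j) / 2 + s : ℤ) : ℝ))
            * gb X.t X.d ((((X.d + 1 : ℕ) : ℤ) - 5 * j) / 2 + s))‖ ≤ C := by
      intro p hp
      set ρ : ℤ := (((X.d + 1 : ℕ) : ℤ) - 5 * p) % 2 with hρ
      have a1 := hC X ((X.d + 1 : ℕ) : ℤ) s p hp (L - 5 / 2 * X.t)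
        (X.t * ((((X.d + 1 : ℕ) : ℝ) - ρ) / 2 + s)) N (by rw [habs2]; omega)
      have h3 : ∑ j ∈ (Icc (-(N : ℤ)) N).filter (fun j => j % 2 = p), e (5 / 2 * X.t * (j : ℝ) ^ 2 + L * j + 0) *
          (e (X.t * (((((X.d + 1 : ℕ) : ℤ) - 5 * j) / 2 + s : ℤ) : ℝ))
            * gb X.t X.d ((((X.d + 1 : ℕ) : ℤ) - 5 * j) / 2 + s))
          = ∑ j ∈ (Icc (-(N : ℤ)) N).filter (fun j => j % 2 = p),
            e (5 / 2 * X.t * (j : ℝ) ^ 2 + (L - 5 / 2 * X.t) * j + X.t * ((((X.d + 1 : ℕ) : ℝ) - ρ) / 2 + s))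
              * gb X.t X.d ((((X.d + 1 : ℕ) : ℤ) - 5 * j) / 2 + s) := by
        apply sum_congr rfl
        intro j hj
        rw [mem_filter] at hj
        rw [← mul_assoc, ← e_add]
        congr 2
        have h4 : 2 * ((((X.d + 1 : ℕ) : ℤ) - 5 * j) / 2) = ((X.d + 1 : ℕ) : ℤ) - 5 * j - ρ := by
          rcases hp with rfl | rfl <;> omega
        have h5 : (2 : ℝ) * (((((X.d + 1 : ℕ) : ℤ) - 5 * j) / 2 : ℤ) : ℝ) = ((X.d + 1 : ℕ) : ℝ) - 5 * j - ρ := by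
          exact_mod_cast h4
        have h6 : (((((X.d + 1 : ℕ) : ℤ) - 5 * j) / 2 + s : ℤ) : ℝ)
            = (((X.d + 1 : ℕ) : ℝ) - 5 * j - ρ) / 2 + s := by
          rw [Int.cast_add]
          linarith
        rw [h6]
        ring
      rw [h3]
      exact a1
    rw [h1, sum_parity N (fun j => e (5 / 2 * X.t * (j : ℝ) ^ 2 + L * j + 0)
        * gb X.t X.d ((((X.d + 1 : ℕ) : ℤ) - 5 * j) / 2 + (s - 1))),
      sum_parity N (fun j => e (5 / 2 * X.t * (j : ℝ) ^ 2 + L * j + 0) *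
          (e (X.t * (((((X.d + 1 : ℕ) : ℤ) - 5 * j) / 2 + s : ℤ) : ℝ))
            * gb X.t X.d ((((X.d + 1 : ℕ) : ℤ) - 5 * j) / 2 + s)))]
    refine (norm_add_le _ _).trans ?_
    have b1 := (norm_add_le (∑ j ∈ (Icc (-(N : ℤ)) N).filter (fun j => j % 2 = 0),
      e (5 / 2 * X.t * (j : ℝ) ^ 2 + L * j + 0) * gb X.t X.d ((((X.d + 1 : ℕ) : ℤ) - 5 * j) / 2 + (s - 1)))
      (∑ j ∈ (Icc (-(N : ℤ)) N).filter (fun j => j % 2 = 1),
      e (5 / 2 * X.t * (j : ℝ) ^ 2 + L * j + 0) * gb X.t X.d ((((X.d + 1 : ℕ) : ℤ) - 5 * j) / 2 + (s - 1))))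
    have b2 := (norm_add_le (∑ j ∈ (Icc (-(N : ℤ)) N).filter (fun j => j % 2 = 0),
      e (5 / 2 * X.t * (j : ℝ) ^ 2 + L * j + 0) *
          (e (X.t * (((((X.d + 1 : ℕ) : ℤ) - 5 * j) / 2 + s : ℤ) : ℝ))
            * gb X.t X.d ((((X.d + 1 : ℕ) : ℤ) - 5 * j) / 2 + s)))
      (∑ j ∈ (Icc (-(N : ℤ)) N).filter (fun j => j % 2 = 1),
      e (5 / 2 * X.t * (j : ℝ) ^ 2 + L * j + 0) *
          (e (X.t * (((((X.d + 1 : ℕ) : ℤ) - 5 * j) / 2 + s : ℤ) : ℝ))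
            * gb X.t X.d ((((X.d + 1 : ℕ) : ℤ) - 5 * j) / 2 + s))))
    have a1 := hC X ((X.d + 1 : ℕ) : ℤ) (s - 1) 0 (Or.inl rfl) L 0 N (by rw [habs2]; omega)
    have a2 := hC X ((X.d + 1 : ℕ) : ℤ) (s - 1) 1 (Or.inr rfl) L 0 N (by rw [habs2]; omega)
    have a3 := h2 0 (Or.inl rfl)
    have a4 := h2 1 (Or.inr rfl)
    linarith

theorem seq_bound (M : ℝ) (hM : 1 ≤ M) : ∃ C : ℝ, 1 ≤ C ∧ ∀ X : Dat M,
    ‖seqA X.t X.d‖ ≤ C ∧ ‖seqA X.t (X.d + 1)‖ ≤ C ∧ ‖seqB X.t X.d‖ ≤ C ∧ ‖seqB X.t (X.d + 1)‖ ≤ C := by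
  obtain ⟨C, hC1, hC⟩ := sch_bound M hM
  refine ⟨C, hC1, ?_⟩
  intro X
  obtain ⟨a1, a2⟩ := hC X 0 (2 * X.d + 30) (by simp; omega)
  obtain ⟨b1, b2⟩ := hC X 1 (2 * X.d + 30) (by simp; omega)
  rw [sch_A _ _ _ (by omega)] at a1 a2
  rw [sch_B _ _ _ (by omega)] at b1 b2
  exact ⟨a1, a2, b1, b2⟩

end Pool.Agent.Helper74.RR
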