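import Mathlib
import Pool.Agent.Helper74.RR.R13

set_option autoImplicit false

namespace Pool.Agent.Helper74.RR

open Finset

theorem sin_dist (v : ℝ) : 2 * |v - round v| ≤ |Real.sin (Real.pi * v)| := by
  have h1 := two_mul_le_sin (v - round v) (abs_sub_round v)
  have h2 : Real.pi * v = Real.pi * (v - round v) + (round v : ℤ) * Real.pi := by ring
  rw [h2, Real.sin_add_int_mul_pi, abs_mul]
  have h3 : |((-1 : ℝ)) ^ (round v)| = 1 := by
    rw [abs_zpow, abs_neg, abs_one, one_zpow]
  rw [h3, one_mul]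
  exact h1

/-- construct the data -/
theorem mk_dat (t K0 C1 : ℝ) (hK0 : 1 ≤ K0) (hC1 : 1 ≤ C1) (d : ℕ) (c : ℤ) (hd : 2 ≤ d)
    (hcop : IsCoprime c (d : ℤ)) (heps : |d * t - c| ≤ C1 / (K0 * d))
    (hlow : ∀ r : ℕ, 0 < r → r < d → ∀ p : ℤ, 1 / (K0 * r) ≤ |r * t - p|) :
    ∃ X : Dat (2 * C1 ^ 2), X.t = t ∧ X.d = d := by
  obtain ⟨u, v, huv⟩ := hcop
  have hdR : (0 : ℝ) < d := by exact_mod_cast (by omega : 0 < d)
  have hlowZ : ∀ r : ℤ, r ≠ 0 → |r| < d → ∀ p : ℤ, 1 / (K0 * |(r : ℝ)|) ≤ |r * t - p| := by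
    intro r hr0 hrd p
    have h1 : 0 < r.natAbs := Int.natAbs_pos.2 hr0
    have h2 : r.natAbs < d := by
      have := Int.abs_eq_natAbs r
      omega
    have h3 : ((r.natAbs : ℕ) : ℝ) = |(r : ℝ)| := by
      rw [Nat.cast_natAbs, Int.cast_abs]
    rcases le_or_gt 0 r with hpos | hneg
    · have h4 := hlow r.natAbs h1 h2 p
      rw [h3, abs_of_nonneg (by exact_mod_cast hpos : (0 : ℝ) ≤ r)] at h4
      rw [abs_of_nonneg (by exact_mod_cast hpos : (0 : ℝ) ≤ r)]
      exact h4
    · have h4 := hlow r.natAbs h1 h2 (-p)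
      have h5 : (r : ℝ) < 0 := by exact_mod_cast hneg
      rw [h3, abs_of_neg h5] at h4
      rw [abs_of_neg h5]
      have h6 : -(r : ℝ) * t - ((-p : ℤ) : ℝ) = -(r * t - p) := by push_cast; ring
      rw [h6, abs_neg] at h4
      exact h4
  have hlowD : ∀ m : ℕ, 0 < m → m < d → 2 / (K0 * d) ≤ |Real.sin (Real.pi * (m * t))| := by
    intro m hm0 hmd
    have hmR : (0 : ℝ) < m := by exact_mod_cast hm0
    have h1 := hlow m hm0 hmd (round (m * t))
    have h2 := sin_dist (m * t)
    have h3 : 1 / (K0 * d) ≤ 1 / (K0 * m) := by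
      apply one_div_le_one_div_of_le (by positivity)
      apply mul_le_mul_of_nonneg_left _ (by linarith)
      exact_mod_cast hmd.le
    have h4 : 2 / (K0 * d) = 2 * (1 / (K0 * d)) := by ring
    rw [h4]
    linarith
  refine ⟨{ d := d, c := c, cb := u, l0 := -v, t := t, K := 2 * C1 * K0, hd := hd,
            hM := by nlinarith, hK := by nlinarith, hc := by linarith, h1 := ?_, h2 := ?_,
            h3 := ?_, h4 := ?_ }, rfl, rfl⟩
  · refine heps.trans (le_of_eq ?_)
    field_simp
  · intro q hq0 hqd p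
    have hqR : (1 : ℝ) ≤ q := by exact_mod_cast hq0
    set r : ℤ := q * u - p * d with hr
    set l : ℤ := -(v * q + c * p) with hl
    have hql : (q : ℤ) = c * r - d * l := by
      rw [hr, hl]
      linear_combination (-(q : ℤ)) * huv
    have hr0 : r ≠ 0 := by
      intro h0
      rw [h0] at hql
      have hdvd : (d : ℤ) ∣ (q : ℤ) := ⟨-l, by linarith⟩
      have := Int.le_of_dvd (by exact_mod_cast hq0) hdvd
      omega
    have e1 : (q : ℝ) * ((u : ℝ) / d) - p = r / d := by
      rw [hr]; push_cast; field_simp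
    rw [e1, abs_div, abs_of_pos hdR]
    have hr1 : (1 : ℝ) ≤ |(r : ℝ)| := by
      rw [← Int.cast_abs]
      exact_mod_cast Int.one_le_abs hr0
    set K : ℝ := 2 * C1 * K0 with hK
    have hK2 : 2 ≤ K := by nlinarith
    rw [div_le_div_iff₀ (by positivity) hdR, one_mul]
    -- goal: d ≤ |r| * (K * q)
    by_cases hbig : (d : ℝ) ≤ K * |(r : ℝ)|
    · have : K * |(r : ℝ)| ≤ K * |(r : ℝ)| * q := le_mul_of_one_le_right (by positivity) hqR
      linarith
    push Not at hbig
    have hrd : |r| < (d : ℤ) := by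
      have : |(r : ℝ)| < d := by nlinarith
      rw [← Int.cast_abs] at this
      exact_mod_cast this
    have hlw := hlowZ r hr0 hrd l
    have hqlR : (q : ℝ) = d * (r * t - l) - (d * t - c) * r := by
      have : (q : ℝ) = c * r - d * l := by exact_mod_cast hql
      rw [this]; ring
    have hq1 : (d : ℝ) * |r * t - l| ≤ q + C1 / (K0 * d) * |(r : ℝ)| := by
      have h1 : (d : ℝ) * (r * t - l) = q + (d * t - c) * r := by rw [hqlR]; ring
      have h2 : (d : ℝ) * |r * t - l| = |(q : ℝ) + (d * t - c) * r| := by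
        rw [← h1, abs_mul, abs_of_pos hdR]
      rw [h2]
      refine (abs_add_le _ _).trans ?_
      rw [abs_of_nonneg (by linarith : (0 : ℝ) ≤ q), abs_mul]
      have := mul_le_mul_of_nonneg_right heps (abs_nonneg (r : ℝ))
      linarith
    have hq2 : (d : ℝ) * (1 / (K0 * |(r : ℝ)|)) ≤ q + C1 / (K0 * d) * |(r : ℝ)| :=
      (mul_le_mul_of_nonneg_left hlw hdR.le).trans hq1
    set R := |(r : ℝ)| with hR
    have hRpos : 0 < R := by linarith
    -- multiply by K0 * R
    have hq3 : (d : ℝ) ≤ K0 * q * R + C1 / d * R ^ 2 := by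
      have := mul_le_mul_of_nonneg_right hq2 (by positivity : 0 ≤ K0 * R)
      have e2 : (d : ℝ) * (1 / (K0 * R)) * (K0 * R) = d := by field_simp
      have e3 : (q + C1 / (K0 * d) * R) * (K0 * R) = K0 * q * R + C1 / d * R ^ 2 := by
        field_simp
      rw [e2, e3] at this
      exact this
    have hq4 : C1 / d * R ^ 2 ≤ d / 4 := by
      have h1 : R ≤ d / K := by rw [le_div_iff₀ (by linarith)]; linarith
      have h2 : R ^ 2 ≤ (d / K) ^ 2 := pow_le_pow_left₀ hRpos.le h1 2
      calc C1 / d * R ^ 2 ≤ C1 / d * (d / K) ^ 2 := mul_le_mul_of_nonneg_left h2 (by positivity)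
        _ = d / 4 / (C1 * K0 ^ 2) := by rw [hK]; field_simp; norm_num
        _ ≤ d / 4 := by
            apply div_le_self (by positivity)
            have : 1 ≤ K0 ^ 2 := one_le_pow₀ hK0
            nlinarith
    have hq5 : (d : ℝ) / 2 ≤ K0 * q * R := by linarith
    have hq6 : K0 * q * R ≤ C1 * (K0 * q * R) := le_mul_of_one_le_left (by positivity) hC1
    calc (d : ℝ) ≤ 2 * (C1 * (K0 * q * R)) := by linarith
      _ = R * (K * q) := by rw [hK]; ring
  · intro m hm0 hmd
    have h1 := hlowD m hm0 hmd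
    have h2 : |Real.sin (Real.pi * (d * t - c))| ≤ 4 * (C1 / (K0 * d)) := by
      refine (Real.abs_sin_le_abs).trans ?_
      rw [abs_mul, abs_of_pos Real.pi_pos]
      exact mul_le_mul Real.pi_lt_four.le heps (abs_nonneg _) (by norm_num)
    refine h2.trans ?_
    calc 4 * (C1 / (K0 * d)) ≤ 4 * (C1 ^ 2 / (K0 * d)) := by
          apply mul_le_mul_of_nonneg_left _ (by norm_num)
          apply div_le_div_of_nonneg_right _ (by positivity)
          nlinarith
      _ = 2 * C1 ^ 2 * (2 / (K0 * d)) := by ring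
      _ ≤ _ := mul_le_mul_of_nonneg_left h1 (by positivity)
  · intro m hm0 hmd h0
    have h1 := hlowD m hm0 hmd
    rw [h0, abs_zero] at h1
    have : 0 < 2 / (K0 * d) := by positivity
    linarith

/-- selection of good denominators -/
theorem select (t : ℝ) (ht : Irrational t) : ∃ M : ℝ, 1 ≤ M ∧ ∀ N : ℕ, ∃ X : Dat M, X.t = t ∧ N ≤ X.d := by
  have hpos : ∀ r : ℕ, 0 < r → ∀ p : ℤ, 0 < (r : ℝ) * |r * t - p| := by
    intro r hr p
    have hrR : (0 : ℝ) < r := by exact_mod_cast hr
    apply mul_pos hrR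
    rw [abs_pos, sub_ne_zero]
    intro h
    apply ht
    refine ⟨(p : ℚ) / r, ?_⟩
    push_cast
    rw [← h]
    field_simp
  by_cases hbt : ∃ lam : ℝ, 0 < lam ∧ ∀ r : ℕ, 0 < r → ∀ p : ℤ, lam ≤ (r : ℝ) * |r * t - p|
  · -- badly approximable
    obtain ⟨lam0, hlam0, hl0⟩ := hbt
    set lam : ℝ := min lam0 1 with hlam
    have hlampos : 0 < lam := lt_min hlam0 one_pos
    have hlam1 : lam ≤ 1 := min_le_right _ _
    have hl : ∀ r : ℕ, 0 < r → ∀ p : ℤ, lam ≤ (r : ℝ) * |r * t - p| := fun r hr p =>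
      (min_le_left _ _).trans (hl0 r hr p)
    set K0 : ℝ := 1 / lam with hK0
    have hK01 : 1 ≤ K0 := by rw [hK0, le_div_iff₀ hlampos]; linarith
    refine ⟨2 * K0 ^ 2, by nlinarith, ?_⟩
    intro N
    set n : ℕ := ⌈((N : ℝ) + 2) / lam⌉₊ with hn
    have hnR : ((N : ℝ) + 2) / lam ≤ n := Nat.le_ceil _
    have hn0 : 0 < n := by
      have : (0 : ℝ) < n := lt_of_lt_of_le (by positivity) hnR
      exact_mod_cast this
    obtain ⟨x, hx1, hx2⟩ := Real.exists_rat_abs_sub_le_and_den_le t hn0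
    set d := x.den with hd
    set c := x.num with hc
    have hd0 : 0 < d := x.den_pos
    have hdR : (0 : ℝ) < d := by exact_mod_cast hd0
    have hcop : IsCoprime c (d : ℤ) := by
      rw [Int.isCoprime_iff_gcd_eq_one]
      exact x.reduced
    have hxr : (x : ℝ) = c / d := by
      rw [hc, hd]; exact_mod_cast (Rat.num_div_den x).symm
    rw [hxr] at hx1
    have heps : |d * t - c| ≤ 1 / (n + 1) := by
      have : (d : ℝ) * t - c = d * (t - c / d) := by field_simp
      rw [this, abs_mul, abs_of_pos hdR]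
      calc (d : ℝ) * |t - c / d| ≤ d * (1 / ((n + 1) * d)) := mul_le_mul_of_nonneg_left hx1 hdR.le
        _ = 1 / (n + 1) := by field_simp
    have hdN : (N : ℝ) + 2 ≤ d := by
      have h1 := (hl d hd0 c).trans (mul_le_mul_of_nonneg_left heps hdR.le)
      rw [mul_one_div, le_div_iff₀ (by positivity)] at h1
      have h2 := mul_le_mul_of_nonneg_left hnR hlampos.le
      have e1 : lam * (((N : ℝ) + 2) / lam) = N + 2 := by field_simp
      rw [e1] at h2
      nlinarith
    have hdN' : N + 2 ≤ d := by exact_mod_cast hdN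
    obtain ⟨X, hX1, hX2⟩ := mk_dat t K0 K0 hK01 hK01 d c (by omega) hcop (by
      have h1 : K0 / (K0 * d) = 1 / d := by field_simp
      rw [h1]
      refine heps.trans ?_
      apply one_div_le_one_div_of_le hdR
      have : (d : ℝ) ≤ n := by exact_mod_cast hx2
      linarith) (by
      intro r hr0 hrd p
      have hrR : (0 : ℝ) < r := by exact_mod_cast hr0
      have := hl r hr0 p
      have h1 : 1 / (K0 * r) = lam / r := by rw [hK0]; field_simp
      rw [h1, div_le_iff₀ hrR]
      linarith)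
    exact ⟨X, hX1, by omega⟩
  · -- record minima
    push Not at hbt
    refine ⟨2 * 1 ^ 2, by norm_num, ?_⟩
    intro N
    set μ : ℕ → ℝ := fun r => (r : ℝ) * |r * t - round (r * t)| with hμ
    have hμpos : ∀ r : ℕ, 0 < r → 0 < μ r := fun r hr => hpos r hr _
    have hμle : ∀ r : ℕ, ∀ p : ℤ, μ r ≤ (r : ℝ) * |r * t - p| := by
      intro r p
      apply mul_le_mul_of_nonneg_left _ (Nat.cast_nonneg r)
      exact round_le (r * t) p
    -- lower bound over small r
    obtain ⟨l0, hl0pos, hl0⟩ : ∃ l0 : ℝ, 0 < l0 ∧ ∀ r : ℕ, 0 < r → r ≤ N + 2 → l0 ≤ μ r := by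
      have hne : (Ico 1 (N + 3)).Nonempty := ⟨1, by simp⟩
      obtain ⟨r0, hr0, hr1⟩ := exists_min_image (Ico 1 (N + 3)) μ hne
      rw [mem_Ico] at hr0
      refine ⟨μ r0, hμpos r0 (by omega), ?_⟩
      intro r h1 h2
      exact hr1 r (by rw [mem_Ico]; omega)
    set lam : ℝ := min l0 1 with hlam
    have hlampos : 0 < lam := lt_min hl0pos one_pos
    obtain ⟨r1, hr1, p1, hp1⟩ := hbt lam hlampos
    have hex : ∃ r : ℕ, 0 < r ∧ μ r < lam := ⟨r1, hr1, (hμle r1 p1).trans_lt hp1⟩
    classical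
    set d := Nat.find hex with hd
    obtain ⟨hd0, hdlt⟩ := Nat.find_spec hex
    have hmin : ∀ r : ℕ, 0 < r → r < d → lam ≤ μ r := by
      intro r h1 h2
      by_contra h3
      push Not at h3
      exact Nat.find_min hex h2 ⟨h1, h3⟩
    have hdN : N + 2 < d := by
      by_contra h
      push Not at h
      have h1 := hl0 d hd0 h
      have h2 : lam ≤ l0 := min_le_left _ _
      have h3 : μ d < lam := hdlt
      linarith
    have hdR : (0 : ℝ) < d := by exact_mod_cast hd0
    set c : ℤ := round ((d : ℝ) * t) with hc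
    have hμd : μ d = d * |d * t - c| := rfl
    have hμd0 := hμpos d hd0
    have hμd1 : μ d < 1 := lt_of_lt_of_le hdlt (min_le_right _ _)
    have hrec : ∀ r : ℕ, 0 < r → r < d → ∀ p : ℤ, μ d < r * |r * t - p| := by
      intro r h1 h2 p
      exact (lt_of_lt_of_le hdlt (hmin r h1 h2)).trans_le (hμle r p)
    have hcop : IsCoprime c (d : ℤ) := by
      rw [Int.isCoprime_iff_gcd_eq_one]
      by_contra hg
      set g := Int.gcd c (d : ℤ) with hgdef
      have hg0 : 0 < g := Int.gcd_pos_of_ne_zero_right _ (by exact_mod_cast hd0.ne')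
      have hg2 : 2 ≤ g := by omega
      obtain ⟨c', hc'⟩ : (g : ℤ) ∣ c := Int.gcd_dvd_left _ _
      obtain ⟨d', hd'⟩ : (g : ℤ) ∣ (d : ℤ) := Int.gcd_dvd_right _ _
      have hd'pos : 0 < d' := by
        have h1 : (0 : ℤ) < g * d' := by rw [← hd']; exact_mod_cast hd0
        exact pos_of_mul_pos_right h1 (by positivity)
      obtain ⟨dn, rfl⟩ : ∃ dn : ℕ, d' = dn := ⟨d'.toNat, by omega⟩
      have hdn0 : 0 < dn := by exact_mod_cast hd'pos
      have hd'' : d = g * dn := by exact_mod_cast hd'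
      have hdnd : dn < d := by
        rw [hd'']
        nlinarith
      have h1 := hrec dn hdn0 hdnd c'
      rw [hμd] at h1
      have hdr : (d : ℝ) = g * dn := by exact_mod_cast hd''
      have hcr : (c : ℝ) = g * c' := by exact_mod_cast hc'
      have hgR : (2 : ℝ) ≤ g := by exact_mod_cast hg2
      have h2 : (d : ℝ) * t - c = g * (dn * t - c') := by rw [hdr, hcr]; ring
      rw [h2, abs_mul, abs_of_pos (by linarith : (0 : ℝ) < g), hdr] at h1
      have hdnR : (0 : ℝ) < dn := by exact_mod_cast hdn0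
      have h3 := abs_nonneg ((dn : ℝ) * t - c')
      have h4 : (g : ℝ) * dn * (g * |dn * t - c'|) = (g * g) * (dn * |dn * t - c'|) := by ring
      rw [h4] at h1
      have h5 : 0 ≤ (dn : ℝ) * |dn * t - c'| := by positivity
      have h6 : (4 : ℝ) ≤ g * g := by nlinarith
      have h7 := mul_le_mul_of_nonneg_right h6 h5
      linarith
    obtain ⟨X, hX1, hX2⟩ := mk_dat t (1 / μ d) 1 (by rw [le_div_iff₀ hμd0]; linarith) le_rfl d c
      (by omega) hcop (by
        have h1 : 1 / (1 / μ d * d) = μ d / d := by field_simp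
        rw [h1, hμd]
        apply le_of_eq
        field_simp) (by
        intro r hr0 hrd p
        have hrR : (0 : ℝ) < r := by exact_mod_cast hr0
        have := (hrec r hr0 hrd p).le
        have h1 : 1 / (1 / μ d * r) = μ d / r := by field_simp
        rw [h1, div_le_iff₀ hrR]
        linarith)
    exact ⟨X, hX1, by omega⟩

end Pool.Agent.Helper74.RR
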